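import Pool.Agent.Lib.MP_23b606_ag.PQ.Nv

/-! PM/B: elements which are zero or of value at least `c`. -/

set_option autoImplicit false

open T1 PQ

namespace PM

/-- `x` is zero or of value at least `c`. -/
def Ge {K : Type} [Field K] {O : ValuationSubring K} (V : NVal O) (x : K) (c : ℤ) : Prop :=
  x = 0 ∨ c ≤ V.v x

variable {K : Type} [Field K] {O : ValuationSubring K} (V : NVal O)

theorem Ge.zero (c : ℤ) : Ge V (0 : K) c := Or.inl rfl

theorem Ge.self (x : K) : Ge V x (V.v x) := Or.inr le_rfl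

variable {V}

theorem Ge.mono {x : K} {c d : ℤ} (h : Ge V x c) (hd : d ≤ c) : Ge V x d :=
  h.imp_right fun h => hd.trans h

theorem Ge.le {x : K} {c : ℤ} (h : Ge V x c) (hx : x ≠ 0) : c ≤ V.v x := h.resolve_left hx

theorem Ge.neg {x : K} {c : ℤ} (h : Ge V x c) : Ge V (-x) c := by
  by_cases hx : x = 0
  · rw [hx, neg_zero]
    exact Ge.zero V c
  · exact Or.inr (by rw [v_neg V hx]; exact h.le hx)

theorem Ge.add {x y : K} {c : ℤ} (hx : Ge V x c) (hy : Ge V y c) : Ge V (x + y) c :=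
  v_add_ge V hx hy

theorem Ge.sub {x y : K} {c : ℤ} (hx : Ge V x c) (hy : Ge V y c) : Ge V (x - y) c := by
  rw [sub_eq_add_neg]
  exact hx.add hy.neg

theorem Ge.mul {x y : K} {c d : ℤ} (hx : Ge V x c) (hy : Ge V y d) : Ge V (x * y) (c + d) := by
  by_cases h1 : x = 0
  · rw [h1, zero_mul]
    exact Ge.zero V _
  by_cases h2 : y = 0
  · rw [h2, mul_zero]
    exact Ge.zero V _
  right
  rw [V.mul _ _ h1 h2]
  exact add_le_add (hx.le h1) (hy.le h2)

theorem Ge.sum {α : Type} (S : Finset α) (x : α → K) (c : ℤ) (h : ∀ i ∈ S, Ge V (x i) c) :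
    Ge V (∑ i ∈ S, x i) c :=
  v_sum_ge V S x c h

theorem Ge.prod {α : Type} (S : Finset α) (x : α → K) (c : α → ℤ) (h : ∀ i ∈ S, Ge V (x i) (c i)) :
    Ge V (∏ i ∈ S, x i) (∑ i ∈ S, c i) := by
  classical
  induction S using Finset.induction_on with
  | empty => exact Or.inr (by rw [Finset.prod_empty, Finset.sum_empty, V.one])
  | insert a s ha ih =>
    rw [Finset.prod_insert ha, Finset.sum_insert ha]
    exact (h a (Finset.mem_insert_self a s)).mul (ih fun i hi => h i (Finset.mem_insert_of_mem hi))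

theorem Ge.mem {x : K} (h : Ge V x 0) : x ∈ O := by
  by_cases hx : x = 0
  · rw [hx]
    exact O.zero_mem
  · exact (V.mem x hx).2 (h.le hx)

theorem ge_of_mem {x : K} (h : x ∈ O) : Ge V x 0 := by
  by_cases hx : x = 0
  · exact Or.inl hx
  · exact Or.inr ((V.mem x hx).1 h)

theorem ge_const [Algebra ℂ K] (hC : Cst O) (c : ℂ) : Ge V (algebraMap ℂ K c) 0 := ge_of_mem (hC c)

theorem ge_intCast [Algebra ℂ K] (hC : Cst O) (n : ℤ) : Ge V (n : K) 0 := by
  have h := ge_const (V := V) hC (n : ℂ)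
  rwa [map_intCast] at h

theorem ge_natCast [Algebra ℂ K] (hC : Cst O) (n : ℕ) : Ge V (n : K) 0 := by
  have h := ge_const (V := V) hC (n : ℂ)
  rwa [map_natCast] at h

/-- An element with a different value is not cancelled. -/
theorem v_eq_of_ge {x y : K} (hx : x ≠ 0) (h : Ge V (y - x) (V.v x + 1)) :
    y ≠ 0 ∧ V.v y = V.v x := by
  have h1 := v_add_eq V (x := x) (y := y - x) hx (h.imp_right fun h => by omega)
  rwa [add_sub_cancel] at h1

end PM
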