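import Pool.Agent.Lib.MP_23b606_ag.PM.Eg

/-!
PM/Cc: the constants of the coordinates.

`exists_cc`: if `V (t - c) > 0` for a constant `c` (then it is unique: `v_sub_of_pos`) take this one,
otherwise `c = 0`: then `V t < 0` or all `V (t - c)` are `0` (`cases_at`). It depends only on the function
`c ↦ V (t - c)`, so it is the same for `t i` and `g (t i) = t (σ i)` (`Ine.v_map`). Define `c i` for all `i` by one
rule (`Classical.choose` of the condition, as a function of `fun c => V.v (t i - c)`).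
-/

set_option autoImplicit false

open T1 PQ

namespace PM

theorem exists_cc {L : Type} [Field L] [Algebra ℂ L] {O : ValuationSubring L} {V : NVal O}
    {g : L ≃ₐ[ℂ] L} {e : ℕ} {ζ : ℂ} (h : Ine V g e ζ) (hC : Cst O) {n : ℕ} (t : Fin n → L)
    (ht : ∀ i, Transcendental ℂ (t i)) (σ : Equiv.Perm (Fin n)) (hg : ∀ i, g (t i) = t (σ i)) :
    ∃ c : Fin n → ℂ, (∀ i, c (σ i) = c i) ∧ ∀ i, V.v (t i - algebraMap ℂ L (c i)) = 0 →
      ∀ c' : ℂ, V.v (t i - algebraMap ℂ L c') = 0 := by
  classical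
  have hne : ∀ i (c : ℂ), t i - algebraMap ℂ L c ≠ 0 := by
    intro i c h0
    refine ht i ?_
    rw [sub_eq_zero.1 h0]
    exact isAlgebraic_algebraMap c
  have hf : ∀ i, (fun c : ℂ => V.v (t (σ i) - algebraMap ℂ L c)) =
      fun c : ℂ => V.v (t i - algebraMap ℂ L c) := by
    intro i
    funext c
    have h1 : g (t i - algebraMap ℂ L c) = t (σ i) - algebraMap ℂ L c := by
      rw [map_sub, hg, AlgEquiv.commutes]
    rw [← h1]
    exact h.v_map hC (hne i c)
  let A : (ℂ → ℤ) → ℂ := fun f => if hA : ∃ c, f c ≠ 0 then hA.choose else 0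
  refine ⟨fun i => A fun c : ℂ => V.v (t i - algebraMap ℂ L c), fun i => ?_, fun i hi c' => ?_⟩
  · change A (fun c : ℂ => V.v (t (σ i) - algebraMap ℂ L c)) = _
    rw [hf i]
  · by_contra hc'
    have hA : ∃ c, (fun c : ℂ => V.v (t i - algebraMap ℂ L c)) c ≠ 0 := ⟨c', hc'⟩
    have h2 : (A fun c : ℂ => V.v (t i - algebraMap ℂ L c)) = hA.choose := dif_pos hA
    have h3 := hA.choose_spec
    rw [← h2] at h3
    exact h3 hi

end PM
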