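import Pool.Agent.Lib.MP_23b606_ag.PQ.Fin

/-!
# PM: quotients of products of curves, the factors may be permuted. Definitions.

`F` is the field of rational functions on a curve `C`; the points of `C` are the valuation subrings `P`
of `F` with `T1.IsDiv 1 P`.
-/

set_option autoImplicit false

open IntermediateField

namespace PM

/-- The ramification index at the point `P` of the curve `C` over its quotient `B` is at least `e`;
`k` = the functions on `B`. -/
def Ram {F : Type} [Field F] [Algebra ℂ F] (k : IntermediateField ℂ F) (P : ValuationSubring F)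
    (e : ℕ) : Prop :=
  ∃ y : F, P.valuation y < 1 ∧ ∀ x ∈ k, P.valuation x < 1 → P.valuation x ≤ P.valuation y ^ e

/-- The genus of the curve with the field of rational functions `k` is at least `b`: there are `b`
linearly independent differentials `z_a dt` on `k` which are regular at all places. -/
def GenusGE (k : Type) [Field k] [Algebra ℂ k] (b : ℕ) : Prop :=
  ∃ (t : Fin 1 → k) (z : Fin b → k), (∃ D, T1.jac D t ≠ 0) ∧ LinearIndependent ℂ z ∧
    ∀ (a : Fin b) (P : ValuationSubring k), T1.IsDiv 1 P → T1.RegularAt P t 1 (z a)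

/-- The form `g dt ^ m` on the curve with the functions `F` vanishes to order at least `r` at the
point `P`. -/
def VanAt {F : Type} [Field F] [Algebra ℂ F] (P : ValuationSubring F) (t : F) (m : ℕ) (g : F)
    (r : ℕ) : Prop :=
  ∃ y : F, y ≠ 0 ∧ P.valuation y < 1 ∧ T1.RegularAt P (fun _ : Fin 1 => t) m (g / y ^ r)

/-- Weights `R P` of the points `P` of the curve `C` over its quotient `B`; `k` = the functions on
`B`, `b` = the number of elements of the block. One of the following holds, where `e` is at most the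
ramification index at `P`.
(1) `b = 1`, `12` divides `m`, and `R P ≤ m` or `6 * R P ≤ m * e`, for every `P`.
(2) The genus of `B` is at least `b`, and `R P ≤ m * e` for every `P`.
(3) `k = ℂ(x)`, there are numbers `w c` at the points `c` of the line with sum `(b + 1) * m`, with
`m ≤ e * (m - w c)` and `R P ≤ e * (m - w c)` for every `P` over `x = c`, and `R P ≤ m * e` for
every `P` over `x = ∞`.
(4) There are `t`, `h` and `b` linearly independent functions `z a` on `B` such that the `m`-canonical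
forms `h * z a ^ m * dt ^ m` are regular on `C` and vanish at every `P` to order at least `R P - m`. -/
def Weights {F : Type} [Field F] [Algebra ℂ F] (k : IntermediateField ℂ F) (m b : ℕ)
    (R : ValuationSubring F → ℕ) : Prop :=
  (b = 1 ∧ 12 ∣ m ∧ ∀ P, T1.IsDiv 1 P → R P ≤ m ∨ ∃ e, Ram k P e ∧ 6 * R P ≤ m * e) ∨
  (GenusGE k b ∧ ∀ P, T1.IsDiv 1 P → ∃ e, Ram k P e ∧ R P ≤ m * e) ∨
  (∃ (x : F) (w : ℂ →₀ ℕ), ℂ⟮x⟯ = k ∧ (w.sum fun _ j => j) = (b + 1) * m ∧
    ∀ P, T1.IsDiv 1 P → ∃ e, Ram k P e ∧ ((x ∉ P ∧ R P ≤ m * e) ∨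
      ∃ c : ℂ, P.valuation (x - algebraMap ℂ F c) < 1 ∧ m ≤ e * (m - w c) ∧
        R P ≤ e * (m - w c))) ∨
  ∃ (t h : F) (z : Fin b → F), t ∈ k ∧ h ∈ k ∧ (∀ a, z a ∈ k) ∧ Transcendental ℂ t ∧ h ≠ 0 ∧
    LinearIndependent ℂ z ∧
    ∀ a P, T1.IsDiv 1 P → VanAt P t m (h * z a ^ m) (R P - m)

section prod

variable {L : Type} [Field L] [Algebra ℂ L]

/-- `g` maps the subfield `A` to `B`. -/
def Maps (g : L ≃ₐ[ℂ] L) (A B : IntermediateField ℂ L) : Prop := ∀ x ∈ A, g x ∈ B

/-- `g` maps the point `P` of the curve with the functions `A` to the point `Q` of the curve with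
the functions `B`. -/
def MapsPt (g : L ≃ₐ[ℂ] L) {A B : IntermediateField ℂ L} (P : ValuationSubring A)
    (Q : ValuationSubring B) : Prop :=
  ∀ (x : A) (y : B), g (x : L) = (y : L) → (x ∈ P ↔ y ∈ Q)

/-- `0 ≤ a < N` and `g` acts on the cotangent space at the point `P` of the curve with the
functions `A` by `exp (2 π i a / N)`. -/
def Rot (g : L ≃ₐ[ℂ] L) {A : IntermediateField ℂ L} (P : ValuationSubring A) (a N : ℕ) : Prop :=
  a < N ∧ ∃ u v : A, u ≠ 0 ∧ P.valuation u < 1 ∧
    (∀ x : A, P.valuation x < 1 → P.valuation x ≤ P.valuation u) ∧ g (u : L) = (v : L) ∧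
    P.valuation (v - algebraMap ℂ A (Complex.exp (2 * Real.pi * Complex.I * (a / N))) * u) <
      P.valuation u

/-- The stabiliser of the subfield `F` in `G`. -/
def stab (G : Subgroup (L ≃ₐ[ℂ] L)) (F : IntermediateField ℂ L) : Subgroup (L ≃ₐ[ℂ] L) where
  carrier := {g | g ∈ G ∧ ∀ x, g x ∈ F ↔ x ∈ F}
  one_mem' := ⟨G.one_mem, fun _ => Iff.rfl⟩
  mul_mem' := fun {a b} ha hb => ⟨G.mul_mem ha.1 hb.1, fun x => (ha.2 (b x)).trans (hb.2 x)⟩
  inv_mem' := fun {a} ha => ⟨G.inv_mem ha.1, fun x => by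
    have h := ha.2 (a⁻¹ x)
    have h2 : a (a⁻¹ x) = x := by
      rw [← AlgEquiv.mul_apply, mul_inv_cancel]
      rfl
    rw [h2] at h
    exact h.symm⟩

/-- `P` is a fixed point of `g` on the product of the curves with the functions `F i`. -/
structure FixedPt {n : ℕ} (F : Fin n → IntermediateField ℂ L) (g : L ≃ₐ[ℂ] L)
    (P : ∀ i, ValuationSubring (F i)) : Prop where
  place : ∀ i, T1.IsDiv 1 (P i)
  fix : ∀ i j, Maps g (F i) (F j) → MapsPt g (P i) (P j)

/-- The group `G` permutes the curves `F i`; `bl` gives the blocks of a `G`-invariant partition,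
`m` is even and positive; `R i` are weights of the points of `F i` over its quotient by its
stabiliser, constant on the orbits of `G`.
If `g ≠ 1` maps all curves to themselves, `P` is a fixed point of `g`, and `g` acts on the
cotangent space of `P i` by `exp (2 π i a i / N)`, then `m ≤ ∑ R i (P i) * (a i / N)`.
If `g` exchanges `F i` and `F j` and maps the other curves to themselves, `P` is a fixed point of
`g`, `g ^ 2` acts on the cotangent space of `P i` by `exp (2 π i b / N)`, and `g` acts on the one of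
`P l`, `l ≠ i, j`, by `exp (2 π i a l / N)`, then `i` and `j` are in one block or
`m / 2 ≤ R i (P i) * (b / N) + ∑ R l (P l) * (a l / N)`. -/
structure Weighted {n : ℕ} (F : Fin n → IntermediateField ℂ L)
    (G : Subgroup (L ≃ₐ[ℂ] L)) (m : ℕ) (R : ∀ i, ValuationSubring (F i) → ℕ)
    (bl : Fin n → Fin n) : Prop where
  pos : 0 < m
  even : 2 ∣ m
  perm : ∀ g ∈ G, ∀ i, ∃ j, Maps g (F i) (F j)
  orbit : ∀ g ∈ G, ∀ i j, Maps g (F i) (F j) → ∀ (P : ValuationSubring (F i))
    (Q : ValuationSubring (F j)), T1.IsDiv 1 P → T1.IsDiv 1 Q → MapsPt g P Q → R i P = R j Q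
  block : ∀ g ∈ G, ∀ i j i' j', Maps g (F i) (F i') → Maps g (F j) (F j') → bl i = bl j →
    bl i' = bl j'
  weight : ∀ i, Weights (PQ.inv (stab G (F i)) (F i)) m
    (Finset.univ.filter fun l => bl l = bl i).card (R i)
  one : ∀ g ∈ G, g ≠ 1 → (∀ i, Maps g (F i) (F i)) → ∀ P, FixedPt F g P →
    ∀ (N : ℕ) (a : Fin n → ℕ), (∀ i, Rot g (P i) (a i) N) → m * N ≤ ∑ i, a i * R i (P i)
  swap : ∀ g ∈ G, ∀ i j, i ≠ j → (∀ l, Maps g (F l) (F (Equiv.swap i j l))) →
    ∀ P, FixedPt F g P → ∀ (N b : ℕ) (a : Fin n → ℕ), Rot (g ^ 2) (P i) b N →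
    (∀ l, l ≠ i → l ≠ j → Rot g (P l) (a l) N) →
    bl i = bl j ∨ m * N ≤ 2 * (b * R i (P i) + ∑ l with l ≠ i ∧ l ≠ j, a l * R l (P l))

end prod

end PM
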