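import Pool.Agent.Lib.MP_23b606_ag.PM.B
import Pool.Agent.Lib.MP_23b606_ag.PM.Defs
import Pool.Agent.Lib.MP_23b606_ag.PQ.Res

/-!
PM/Cf: the forms `h (z a) ^ m dt ^ m` of one factor, `a < b`.

`map`: `V.comap g` (the valuation `x ↦ V (g x)`, `x ∈ L`, of the ring `O.comap g`): the conditions for
`V` and `g t`, `g h`, `g z` are those of `V ∘ g` for `t`, `h`, `z`. An `x ∈ F` fixed by `Γ` corresponds to
`g x ∈ F'` fixed by `Γ'` (`hΓ`).
-/

set_option autoImplicit false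

open T1 PQ

namespace PM

/-- The forms of the factor `F`, `Γ` its stabiliser, `b` the size of its block. -/
structure Cf {L : Type} [Field L] [Algebra ℂ L] (F : IntermediateField ℂ L)
    (Γ : Subgroup (L ≃ₐ[ℂ] L)) (m : ℕ) (R : ValuationSubring F → ℕ) (b : ℕ) (t h : L) (z : ℕ → L) :
    Prop where
  t_mem : t ∈ F
  h_mem : h ∈ F
  z_mem : ∀ a, z a ∈ F
  t_fix : ∀ γ ∈ Γ, γ t = t
  h_fix : ∀ γ ∈ Γ, γ h = h
  z_fix : ∀ γ ∈ Γ, ∀ a, γ (z a) = z a
  tr : Transcendental ℂ t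
  ne : h ≠ 0
  li : LinearIndependent ℂ fun a : Fin b => z a
  triv : ∀ (O : ValuationSubring L) (V : NVal O), Cst O →
    (∀ c : ℂ, V.v (t - algebraMap ℂ L c) = 0) → ∀ x ∈ F, x ≠ 0 → V.v x = 0
  low : ∀ (O : ValuationSubring L) (V : NVal O), Cst O → ∀ c : ℂ,
    V.v (t - algebraMap ℂ L c) ≠ 0 → ∀ a, a < b →
      (m : ℤ) ≤ V.v h + m * V.v (z a) + m * V.v (t - algebraMap ℂ L c) ∧
      ∀ d : ℤ, 0 ≤ d → (∀ x ∈ F, x ≠ 0 → d ∣ V.v x) →
        d * R (O.comap (algebraMap F L)) ≤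
          V.v h + m * V.v (z a) + m * V.v (t - algebraMap ℂ L c)

/-- The valuation `x ↦ V (g x)`. -/
private def nvc {L : Type} [Field L] [Algebra ℂ L] {O : ValuationSubring L} (V : NVal O)
    (g : L ≃ₐ[ℂ] L) : NVal (O.comap (g : L →+* L)) where
  π := g.symm V.π
  v := fun x => V.v (g x)
  hπ := by
    intro h
    apply V.hπ
    have h1 := congrArg g h
    rwa [AlgEquiv.apply_symm_apply, map_zero] at h1
  vπ := by
    show V.v (g (g.symm V.π)) = 1
    rw [AlgEquiv.apply_symm_apply]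
    exact V.vπ
  mul := by
    intro x y hx hy
    show V.v (g (x * y)) = V.v (g x) + V.v (g y)
    rw [map_mul]
    exact V.mul _ _ (fun h => hx ((map_eq_zero g).1 h)) (fun h => hy ((map_eq_zero g).1 h))
  mem := by
    intro x hx
    rw [ValuationSubring.mem_comap]
    exact V.mem _ (fun h => hx ((map_eq_zero g).1 h))

private theorem nvc_v {L : Type} [Field L] [Algebra ℂ L] {O : ValuationSubring L} (V : NVal O)
    (g : L ≃ₐ[ℂ] L) (x : L) : (nvc V g).v x = V.v (g x) := rfl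

private theorem nvc_sub {L : Type} [Field L] [Algebra ℂ L] {O : ValuationSubring L} (V : NVal O)
    (g : L ≃ₐ[ℂ] L) (t : L) (c : ℂ) :
    (nvc V g).v (t - algebraMap ℂ L c) = V.v (g t - algebraMap ℂ L c) := by
  rw [nvc_v, map_sub, AlgEquiv.commutes]

private theorem nvc_cst {L : Type} [Field L] [Algebra ℂ L] {O : ValuationSubring L}
    (g : L ≃ₐ[ℂ] L) (h : Cst O) : Cst (O.comap (g : L →+* L)) := by
  intro c
  rw [ValuationSubring.mem_comap]
  show g (algebraMap ℂ L c) ∈ O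
  rw [AlgEquiv.commutes]
  exact h c

theorem Cf.map {L : Type} [Field L] [Algebra ℂ L] {F : IntermediateField ℂ L}
    {Γ : Subgroup (L ≃ₐ[ℂ] L)} {m : ℕ} {R : ValuationSubring F → ℕ} {b : ℕ} {t h : L} {z : ℕ → L}
    (H : Cf F Γ m R b t h z) (g : L ≃ₐ[ℂ] L) (F' : IntermediateField ℂ L)
    (Γ' : Subgroup (L ≃ₐ[ℂ] L)) (R' : ValuationSubring F' → ℕ)
    (hF : ∀ x, g x ∈ F' ↔ x ∈ F) (hΓ : ∀ γ, g * γ * g⁻¹ ∈ Γ' ↔ γ ∈ Γ)
    (hR : ∀ (P : ValuationSubring F) (Q : ValuationSubring F'), IsDiv 1 P → IsDiv 1 Q →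
      MapsPt g P Q → R P = R' Q) :
    Cf F' Γ' m R' b (g t) (g h) fun a => g (z a) := by
  have hinv : ∀ x : L, g (g⁻¹ x) = x := fun x => by
    rw [← AlgEquiv.mul_apply, mul_inv_cancel]
    rfl
  have hinv' : ∀ x : L, g⁻¹ (g x) = x := fun x => by
    rw [← AlgEquiv.mul_apply, inv_mul_cancel]
    rfl
  -- the conjugate of an element of `Γ'`
  have hc : ∀ γ ∈ Γ', g⁻¹ * γ * g ∈ Γ := by
    intro γ hγ
    rw [← hΓ]
    have : g * (g⁻¹ * γ * g) * g⁻¹ = γ := by group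
    rwa [this]
  have hfix : ∀ x : L, (∀ γ ∈ Γ, γ x = x) → ∀ γ ∈ Γ', γ (g x) = g x := by
    intro x hx γ hγ
    have h1 := hx _ (hc γ hγ)
    rw [AlgEquiv.mul_apply, AlgEquiv.mul_apply] at h1
    have h2 := congrArg g h1
    rwa [hinv] at h2
  have hFx : ∀ x ∈ F', g⁻¹ x ∈ F := by
    intro x hx
    rw [← hF, hinv]
    exact hx
  refine
    { t_mem := (hF t).2 H.t_mem
      h_mem := (hF h).2 H.h_mem
      z_mem := fun a => (hF _).2 (H.z_mem a)
      t_fix := hfix t H.t_fix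
      h_fix := hfix h H.h_fix
      z_fix := fun γ hγ a => hfix (z a) (fun γ hγ => H.z_fix γ hγ a) γ hγ
      tr := ?_
      ne := fun h0 => H.ne ((map_eq_zero g).1 h0)
      li := ?_
      triv := ?_
      low := ?_ }
  · intro h0
    apply H.tr
    exact (isAlgebraic_algHom_iff (g : L →ₐ[ℂ] L) g.injective).1 h0
  · have h1 := H.li.map' (g.toLinearMap) (LinearMap.ker_eq_bot.2 g.injective)
    exact h1
  · intro O V hC h0 x hx x0
    have h1 := H.triv _ (nvc V g) (nvc_cst g hC) (fun c => by rw [nvc_sub]; exact h0 c) (g⁻¹ x)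
      (hFx x hx) (fun h2 => x0 (by rw [← hinv x, h2, map_zero]))
    rwa [nvc_v, hinv] at h1
  · intro O V hC c h0 a ha
    obtain ⟨h2, h3⟩ := H.low _ (nvc V g) (nvc_cst g hC) c (by rw [nvc_sub]; exact h0) a ha
    rw [nvc_sub, nvc_v, nvc_v] at h2 h3
    refine ⟨h2, ?_⟩
    intro d hd hx
    have hpl : ∀ (A : IntermediateField ℂ L) (O₁ : ValuationSubring L) (V₁ : NVal O₁), Cst O₁ →
        ∀ y ∈ A, y - algebraMap ℂ L c ≠ 0 → V₁.v (y - algebraMap ℂ L c) ≠ 0 →
        IsDiv 1 (O₁.comap (algebraMap A L)) := by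
      intro A O₁ V₁ hC₁ y hy hy0 hv
      obtain ⟨W, -, -, -⟩ := exists_res (algebraMap A L) V₁
        (⟨y - algebraMap ℂ L c, A.sub_mem hy (A.algebraMap_mem c)⟩ : A)
        (fun h => hy0 (congrArg Subtype.val h)) hv
      exact isDiv_one W fun c' => hC₁ c'
    have ht0 : t - algebraMap ℂ L c ≠ 0 := by
      intro h4
      apply H.tr
      rw [sub_eq_zero.1 h4]
      exact isAlgebraic_algebraMap c
    have hgt0 : g t - algebraMap ℂ L c ≠ 0 := by
      intro h4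
      apply ht0
      rw [← map_eq_zero g, map_sub, AlgEquiv.commutes]
      exact h4
    have hkey : R ((O.comap (g : L →+* L)).comap (algebraMap F L)) =
        R' (O.comap (algebraMap F' L)) := by
      refine hR _ _ ?_ ?_ ?_
      · exact hpl F _ (nvc V g) (nvc_cst g hC) t H.t_mem ht0 (by rw [nvc_sub]; exact h0)
      · exact hpl F' O V hC (g t) ((hF t).2 H.t_mem) hgt0 h0
      · intro x y hxy
        rw [ValuationSubring.mem_comap, ValuationSubring.mem_comap, ValuationSubring.mem_comap]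
        change g (x : L) ∈ O ↔ (y : L) ∈ O
        rw [hxy]
    rw [← hkey]
    refine h3 d hd ?_
    intro x hxF x0
    exact hx (g x) ((hF x).2 hxF) (fun h4 => x0 ((map_eq_zero g).1 h4))

end PM
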