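import Pool.Agent.Lib.MP_23b606_ag.PM.B
import Pool.Agent.Lib.MP_23b606_ag.PQ.Nv

/-!
PM/Chr: the generator of the inertia group and its character.

`exists_gen`: the elements `γ` of `I` satisfy `V (γ x) = V x` (`v_eq_of_ge` on units and, as `γ` maps
`O` to `O` and `γ⁻¹` too, the valuation `V ∘ γ` has the same ring and is normalised, so it is `V`).
`r γ` = the class of `γ π / π` (a unit of `O`) in the residue field `κ`, a homomorphism `I →* κˣ` as `γ` acts
trivially on `κ`. It is injective: if `r γ = 1` then `V (γ x - x) > V x` for all `x ≠ 0` with `γ x ≠ x`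
(`x = π^k u`); if `γ x ≠ x`, `y = γ x - x`, `N` the order of `γ`, then `∑_{i < N} γ^i y = 0` (telescoping), but
`γ^i y - y` has value `> V y`, so the sum has the value `V (N y) = V y` (characteristic zero), a
contradiction. So `I` is cyclic (`isCyclic_of_subgroup_isDomain`), `γ` a generator, of order `e`
(`orderOf`), `(r γ)^e = 1` and `r γ` has order `e`. `X^e - 1` splits over `ℂ ⊆ κ`, so `r γ` is the class of a
`ζ : ℂ`, a primitive root of unity of order `e`. `key`: `x = π^k u`, `γ x / x = (γ π / π)^k (γ u / u)`, of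
class `ζ^k`.
-/

set_option autoImplicit false

open T1 PQ

namespace PM

/-- `g` generates the inertia group of `V`, which has order `e`, and acts on the cotangent space of
`V` by `ζ`. -/
structure Ine {L : Type} [Field L] [Algebra ℂ L] {O : ValuationSubring L} (V : NVal O)
    (g : L ≃ₐ[ℂ] L) (e : ℕ) (ζ : ℂ) : Prop where
  pos : 1 ≤ e
  prim : IsPrimitiveRoot ζ e
  pow : g ^ e = 1
  key : ∀ x : L, x ≠ 0 → Ge V (g x - algebraMap ℂ L (ζ ^ V.v x) * x) (V.v x + 1)

section aux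

variable {L : Type} [Field L] [Algebra ℂ L] {O : ValuationSubring L} (V : NVal O)

private theorem t_unit {g : L ≃ₐ[ℂ] L} (hg : ∀ x ∈ O, Ge V (g x - x) 1) {x : L} (hx : x ≠ 0)
    (h : V.v x = 0) : V.v (g x) = 0 := by
  have h1 := hg x ((V.mem x hx).2 h.ge)
  rw [← h]
  refine (v_eq_of_ge hx ?_).2
  rw [h, zero_add]
  exact h1

private theorem t_ge {g : L ≃ₐ[ℂ] L} (hg : ∀ x ∈ O, Ge V (g x - x) 1) {x : L} (hx : x ≠ 0)
    (h : 0 ≤ V.v x) : 0 ≤ V.v (g x) := by
  have h0 := (V.mem x hx).2 h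
  have h1 := hg x h0
  have h2 : Ge V (x + (g x - x)) 0 := (ge_of_mem h0).add (h1.mono (by omega))
  rw [add_sub_cancel] at h2
  exact h2.le ((map_ne_zero_iff g g.injective).2 hx)

private theorem t_pi {g g' : L ≃ₐ[ℂ] L} (hg : ∀ x ∈ O, Ge V (g x - x) 1)
    (hg' : ∀ x ∈ O, Ge V (g' x - x) 1) (hi : ∀ x, g' (g x) = x) : V.v (g V.π) = 1 := by
  have h0 : g V.π ≠ 0 := (map_ne_zero_iff g g.injective).2 V.hπ
  have h0' : g' V.π ≠ 0 := (map_ne_zero_iff g' g'.injective).2 V.hπ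
  have h1 := t_ge V hg V.hπ (by rw [V.vπ]; exact zero_le_one)
  have h1' := t_ge V hg' V.hπ (by rw [V.vπ]; exact zero_le_one)
  obtain ⟨u, u0, -, -, uv, hu⟩ := V.unit h0
  have h2 : g' (g V.π) = g' V.π ^ V.v (g V.π) * g' u := by
    conv_lhs => rw [hu]
    rw [map_mul, map_zpow₀]
  have h3 := t_unit V hg' u0 uv
  have h4 : g' u ≠ 0 := (map_ne_zero_iff g' g'.injective).2 u0
  rw [hi] at h2
  have h5 : V.v V.π = V.v (g' V.π ^ V.v (g V.π) * g' u) := by rw [← h2]
  rw [V.vπ, V.mul _ _ (zpow_ne_zero _ h0') h4, V.zpow h0', h3, add_zero] at h5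
  rcases Int.eq_one_or_neg_one_of_mul_eq_one h5.symm with h6 | h6
  · exact h6
  · omega

private theorem t_v {g g' : L ≃ₐ[ℂ] L} (hg : ∀ x ∈ O, Ge V (g x - x) 1)
    (hg' : ∀ x ∈ O, Ge V (g' x - x) 1) (hi : ∀ x, g' (g x) = x) {x : L} (hx : x ≠ 0) :
    V.v (g x) = V.v x := by
  obtain ⟨u, u0, -, -, uv, hu⟩ := V.unit hx
  have h0 : g V.π ≠ 0 := (map_ne_zero_iff g g.injective).2 V.hπ
  have h1 : g x = g V.π ^ V.v x * g u := by
    conv_lhs => rw [hu]
    rw [map_mul, map_zpow₀]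
  rw [h1, V.mul _ _ (zpow_ne_zero _ h0) ((map_ne_zero_iff g g.injective).2 u0), V.zpow h0,
    t_pi V hg hg' hi, t_unit V hg u0 uv, mul_one, add_zero]

/-- `g x` is `ζ^k x` up to terms of bigger value -/
private def Sm (g : L ≃ₐ[ℂ] L) (z : ℂ) (x : L) (k : ℤ) : Prop :=
  Ge V (g x - algebraMap ℂ L (z ^ k) * x) (V.v x + 1)

variable {V}

private theorem Sm.mul (hC : Cst O) {g : L ≃ₐ[ℂ] L} (hv : ∀ x, x ≠ 0 → V.v (g x) = V.v x) {z : ℂ}
    (hz : z ≠ 0) {x y : L} (hx : x ≠ 0) (hy : y ≠ 0) {k l : ℤ} (h1 : Sm V g z x k)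
    (h2 : Sm V g z y l) : Sm V g z (x * y) (k + l) := by
  unfold Sm at *
  have e1 : g (x * y) - algebraMap ℂ L (z ^ (k + l)) * (x * y)
      = (g x - algebraMap ℂ L (z ^ k) * x) * g y
        + algebraMap ℂ L (z ^ k) * x * (g y - algebraMap ℂ L (z ^ l) * y) := by
    rw [map_mul g, zpow_add₀ hz, map_mul (algebraMap ℂ L)]
    ring
  rw [e1, V.mul _ _ hx hy]
  refine Ge.add ?_ ?_
  · refine (h1.mul (Ge.self V (g y))).mono ?_
    rw [hv y hy]
    omega
  · refine (((ge_const hC (z ^ k)).mul (Ge.self V x)).mul h2).mono ?_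
    omega

private theorem Sm.inv (hC : Cst O) {g : L ≃ₐ[ℂ] L} (hv : ∀ x, x ≠ 0 → V.v (g x) = V.v x) {z : ℂ}
    (hz : z ≠ 0) {x : L} (hx : x ≠ 0) {k : ℤ} (h1 : Sm V g z x k) : Sm V g z x⁻¹ (-k) := by
  unfold Sm at *
  have hz' : algebraMap ℂ L (z ^ k) ≠ 0 := (map_ne_zero _).2 (zpow_ne_zero _ hz)
  have hg0 : g x ≠ 0 := (map_ne_zero_iff g g.injective).2 hx
  have e1 : g x⁻¹ - algebraMap ℂ L (z ^ (-k)) * x⁻¹
      = algebraMap ℂ L (z ^ (-k)) * (-(g x - algebraMap ℂ L (z ^ k) * x) * ((g x)⁻¹ * x⁻¹)) := by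
    rw [map_inv₀, zpow_neg, map_inv₀]
    field_simp
    ring
  rw [e1, V.inv hx]
  refine ((ge_const hC _).mul (h1.neg.mul ((Ge.self V _).mul (Ge.self V _)))).mono ?_
  rw [V.inv hx, V.inv hg0, hv x hx]
  omega

private theorem Sm.zpow (hC : Cst O) {g : L ≃ₐ[ℂ] L} (hv : ∀ x, x ≠ 0 → V.v (g x) = V.v x) {z : ℂ}
    (hz : z ≠ 0) {x : L} (hx : x ≠ 0) (h1 : Sm V g z x 1) (j : ℤ) : Sm V g z (x ^ j) j := by
  induction j using Int.induction_on with
  | zero =>
    unfold Sm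
    rw [zpow_zero, zpow_zero, map_one, map_one, mul_one, sub_self]
    exact Ge.zero V _
  | succ i ih =>
    rw [zpow_add_one₀ hx]
    exact ih.mul hC hv hz (zpow_ne_zero _ hx) hx h1
  | pred i ih =>
    rw [zpow_sub_one₀ hx, sub_eq_add_neg]
    exact ih.mul hC hv hz (zpow_ne_zero _ hx) (inv_ne_zero hx) (h1.inv hC hv hz hx)

/-- the statement for all `x` from the uniformiser -/
private theorem key_of (hC : Cst O) {g : L ≃ₐ[ℂ] L} (hg : ∀ x ∈ O, Ge V (g x - x) 1)
    (hv : ∀ x, x ≠ 0 → V.v (g x) = V.v x) {z : ℂ} (hz : z ≠ 0)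
    (h : Ge V (g V.π - algebraMap ℂ L z * V.π) 2) {x : L} (hx : x ≠ 0) :
    Ge V (g x - algebraMap ℂ L (z ^ V.v x) * x) (V.v x + 1) := by
  obtain ⟨u, u0, u1, -, uv, hu⟩ := V.unit hx
  have h1 : Sm V g z V.π 1 := by
    unfold Sm
    rw [zpow_one, V.vπ]
    exact h
  have h2 : Sm V g z u 0 := by
    unfold Sm
    rw [zpow_zero, map_one, one_mul, uv, zero_add]
    exact hg u u1
  have h3 := (h1.zpow hC hv hz V.hπ (V.v x)).mul hC hv hz (zpow_ne_zero _ V.hπ) u0 h2
  rw [← hu, add_zero] at h3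
  exact h3

variable (V)

/-- uniqueness of the constant -/
private theorem z_unique (hC : Cst O) {a : L} {z z' : ℂ}
    (h : Ge V (a - algebraMap ℂ L z * V.π) 2) (h' : Ge V (a - algebraMap ℂ L z' * V.π) 2) :
    z = z' := by
  by_contra hne
  have h1 := h'.sub h
  have e1 : a - algebraMap ℂ L z' * V.π - (a - algebraMap ℂ L z * V.π)
      = algebraMap ℂ L (z - z') * V.π := by
    rw [map_sub]
    ring
  rw [e1] at h1
  have h2 : z - z' ≠ 0 := sub_ne_zero.2 hne
  have h3 : algebraMap ℂ L (z - z') ≠ 0 := (map_ne_zero _).2 h2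
  have h4 := h1.le (mul_ne_zero h3 V.hπ)
  rw [V.mul _ _ h3 V.hπ, v_const V hC h2, V.vπ] at h4
  omega

/-- existence of the constant -/
private theorem z_exists (hC : Cst O) {g : L ≃ₐ[ℂ] L} (hg : ∀ x ∈ O, Ge V (g x - x) 1)
    (hv : ∀ x, x ≠ 0 → V.v (g x) = V.v x) {N : ℕ} (hN : 0 < N) (hgN : g ^ N = 1) :
    ∃ z : ℂ, z ≠ 0 ∧ Ge V (g V.π - algebraMap ℂ L z * V.π) 2 := by
  have hg0 : g V.π ≠ 0 := (map_ne_zero_iff g g.injective).2 V.hπ
  set q : L := g V.π / V.π with hq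
  have hq0 : q ≠ 0 := div_ne_zero hg0 V.hπ
  have hqv : V.v q = 0 := by rw [hq, v_div V hg0 V.hπ, hv _ V.hπ, sub_self]
  have hqO : Ge V q 0 := Or.inr hqv.ge
  have hqπ : g V.π = q * V.π := by rw [hq, div_mul_cancel₀ _ V.hπ]
  -- the powers
  have hpow : ∀ m : ℕ, ∃ b : L, Ge V b 0 ∧ (g ^ m) V.π = b * V.π ∧ Ge V (b - q ^ m) 1 := by
    intro m
    induction m with
    | zero =>
      refine ⟨1, Or.inr V.one.ge, ?_, ?_⟩
      · rw [pow_zero, one_mul]
        rfl
      · rw [pow_zero, sub_self]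
        exact Ge.zero V _
    | succ m ih =>
      obtain ⟨b, hb1, hb2, hb3⟩ := ih
      have h1 := hg b hb1.mem
      refine ⟨g b * q, ?_, ?_, ?_⟩
      · have h2 : Ge V (b + (g b - b)) 0 := hb1.add (h1.mono (by omega))
        rw [add_sub_cancel] at h2
        have h3 := h2.mul hqO
        rwa [add_zero] at h3
      · rw [pow_succ', AlgEquiv.mul_apply, hb2, map_mul, hqπ, mul_assoc]
      · have e1 : g b * q - q ^ (m + 1) = (g b - b) * q + (b - q ^ m) * q := by ring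
        rw [e1]
        refine Ge.add ?_ ?_
        · have := h1.mul hqO
          rwa [add_zero] at this
        · have := hb3.mul hqO
          rwa [add_zero] at this
  obtain ⟨b, hb1, hb2, hb3⟩ := hpow N
  have hb : b = 1 := by
    rw [hgN, AlgEquiv.one_apply] at hb2
    have h1 : (1 - b) * V.π = 0 := by
      rw [sub_mul, one_mul, ← hb2, sub_self]
    rcases mul_eq_zero.1 h1 with h2 | h2
    · exact (sub_eq_zero.1 h2).symm
    · exact absurd h2 V.hπ
  rw [hb] at hb3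
  have h4 : Ge V (q ^ N - 1) 1 := by
    have := hb3.neg
    rwa [neg_sub] at this
  -- the roots of unity
  have hprim : IsPrimitiveRoot (Complex.exp (2 * Real.pi * Complex.I / N)) N :=
    Complex.isPrimitiveRoot_exp N hN.ne'
  have h5 := Polynomial.X_pow_sub_one_eq_prod hN hprim
  have h6 : q ^ N - 1 = ∏ z ∈ Polynomial.nthRootsFinset N (1 : ℂ), (q - algebraMap ℂ L z) := by
    have h7 := congrArg (Polynomial.aeval q) h5
    rw [map_prod] at h7
    simpa using h7
  have h8 : ∃ z ∈ Polynomial.nthRootsFinset N (1 : ℂ), Ge V (q - algebraMap ℂ L z) 1 := by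
    by_contra hcon
    push Not at hcon
    have h9 : ∀ z ∈ Polynomial.nthRootsFinset N (1 : ℂ), q - algebraMap ℂ L z ≠ 0 ∧
        V.v (q - algebraMap ℂ L z) = 0 := by
      intro z hz
      have h10 := hcon z hz
      have h11 : q - algebraMap ℂ L z ≠ 0 := fun h => h10 (Or.inl h)
      refine ⟨h11, le_antisymm ?_ ?_⟩
      · by_contra h12
        exact h10 (Or.inr (by omega))
      · have h12 : Ge V (q - algebraMap ℂ L z) 0 := hqO.sub (ge_const hC z)
        exact h12.le h11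
    have h10 := v_prod V (Polynomial.nthRootsFinset N (1 : ℂ)) (fun z => q - algebraMap ℂ L z)
      fun z hz => (h9 z hz).1
    rw [Finset.sum_eq_zero fun z hz => (h9 z hz).2, ← h6] at h10
    have h11 : q ^ N - 1 ≠ 0 := by
      rw [h6]
      exact Finset.prod_ne_zero_iff.2 fun z hz => (h9 z hz).1
    have h12 := h4.le h11
    omega
  obtain ⟨z, hz, hz1⟩ := h8
  refine ⟨z, ?_, ?_⟩
  · rintro rfl
    rw [Polynomial.mem_nthRootsFinset hN] at hz
    rw [zero_pow hN.ne'] at hz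
    exact zero_ne_one hz
  · have e1 : g V.π - algebraMap ℂ L z * V.π = (q - algebraMap ℂ L z) * V.π := by
      rw [hqπ]
      ring
    rw [e1]
    have := hz1.mul (Ge.self V V.π)
    rw [V.vπ] at this
    exact this

/-- an element which acts trivially on the cotangent space is the identity -/
private theorem eq_one_of (hC : Cst O) {g : L ≃ₐ[ℂ] L}
    {N : ℕ} (hN : 0 < N) (hgN : g ^ N = 1)
    (h : ∀ i : ℕ, ∀ y : L, y ≠ 0 → Ge V ((g ^ i) y - y) (V.v y + 1)) : g = 1 := by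
  by_contra hne
  have h1 : ∃ x, g x ≠ x := by
    by_contra hcon
    push Not at hcon
    exact hne (AlgEquiv.ext hcon)
  obtain ⟨x, hx⟩ := h1
  set y : L := g x - x with hy
  have hy0 : y ≠ 0 := sub_ne_zero.2 hx
  have h2 : ∑ i ∈ Finset.range N, (g ^ i) y = 0 := by
    have h3 := Finset.sum_range_sub (fun i => (g ^ i) x) N
    rw [hgN, pow_zero, sub_self] at h3
    rw [← h3]
    refine Finset.sum_congr rfl fun i _ => ?_
    rw [hy, map_sub, pow_succ, AlgEquiv.mul_apply]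
  have h3 : ∑ i ∈ Finset.range N, (g ^ i) y
      = (N : L) * y + ∑ i ∈ Finset.range N, ((g ^ i) y - y) := by
    rw [Finset.sum_sub_distrib, Finset.sum_const, Finset.card_range, nsmul_eq_mul]
    ring
  have hN0 : (N : ℂ) ≠ 0 := Nat.cast_ne_zero.2 hN.ne'
  have hNL : algebraMap ℂ L (N : ℂ) = (N : L) := map_natCast _ N
  have hN1 : (N : L) ≠ 0 := by
    rw [← hNL]
    exact (map_ne_zero _).2 hN0
  have hv : V.v ((N : L) * y) = V.v y := by
    rw [V.mul _ _ hN1 hy0, ← hNL, v_const V hC hN0, zero_add]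
  have h4 : Ge V (∑ i ∈ Finset.range N, ((g ^ i) y - y)) (V.v y + 1) :=
    Ge.sum _ _ _ fun i _ => h i y hy0
  have h5 := v_add_eq V (mul_ne_zero hN1 hy0) (y := ∑ i ∈ Finset.range N, ((g ^ i) y - y)) (by
    rw [hv]
    exact h4.imp_right fun h => by omega)
  rw [← h3, h2] at h5
  exact h5.1 rfl

end aux

theorem exists_gen {L : Type} [Field L] [Algebra ℂ L] {O : ValuationSubring L} (V : NVal O)
    (hC : Cst O) (I : Subgroup (L ≃ₐ[ℂ] L)) [Finite I]
    (hI : ∀ g ∈ I, ∀ x : L, x ∈ O → g x - x = 0 ∨ 0 < V.v (g x - x)) :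
    ∃ g ∈ I, ∃ ζ : ℂ, Ine V g (Nat.card I) ζ := by
  have hg : ∀ g ∈ I, ∀ x ∈ O, Ge V (g x - x) 1 := fun g hg x hx =>
    (hI g hg x hx).imp_right fun h => by omega
  have hv : ∀ g ∈ I, ∀ x, x ≠ 0 → V.v (g x) = V.v x := by
    intro g hgI x hx
    refine t_v V (hg g hgI) (hg g⁻¹ (I.inv_mem hgI)) (fun x => ?_) hx
    rw [← AlgEquiv.mul_apply, inv_mul_cancel, AlgEquiv.one_apply]
  have hN : 0 < Nat.card I := Nat.card_pos
  have hpow : ∀ g ∈ I, g ^ Nat.card I = 1 := by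
    intro g hgI
    have h1 := pow_card_eq_one' (G := I) (x := ⟨g, hgI⟩)
    have h2 := congrArg Subtype.val h1
    rw [Subgroup.coe_pow] at h2
    exact h2
  have hz : ∀ g : I, ∃ z : ℂ, z ≠ 0 ∧ Ge V (g.1 V.π - algebraMap ℂ L z * V.π) 2 := fun g =>
    z_exists V hC (hg g.1 g.2) (hv g.1 g.2) hN (hpow g.1 g.2)
  choose χ hχ0 hχ using hz
  have hkey : ∀ (g : I) (x : L), x ≠ 0 →
      Ge V (g.1 x - algebraMap ℂ L (χ g ^ V.v x) * x) (V.v x + 1) := fun g x hx =>
    key_of hC (hg g.1 g.2) (hv g.1 g.2) (hχ0 g) (hχ g) hx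
  let f : I →* ℂ :=
    { toFun := χ
      map_one' := by
        refine z_unique V hC (hχ 1) ?_
        have e1 : ((1 : I) : L ≃ₐ[ℂ] L) V.π - algebraMap ℂ L 1 * V.π = 0 := by
          rw [map_one, one_mul, OneMemClass.coe_one, AlgEquiv.one_apply, sub_self]
        rw [e1]
        exact Ge.zero V _
      map_mul' := by
        intro a b
        refine z_unique V hC (hχ (a * b)) ?_
        have h0 : b.1 V.π ≠ 0 := (map_ne_zero_iff b.1 b.1.injective).2 V.hπ
        have h1 := hkey a (b.1 V.π) h0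
        rw [hv b.1 b.2 _ V.hπ, V.vπ, zpow_one] at h1
        have h2 := (ge_const (V := V) hC (χ a)).mul (hχ b)
        have e1 : ((a * b : I) : L ≃ₐ[ℂ] L) V.π - algebraMap ℂ L (χ a * χ b) * V.π
            = (a.1 (b.1 V.π) - algebraMap ℂ L (χ a) * b.1 V.π)
              + algebraMap ℂ L (χ a) * (b.1 V.π - algebraMap ℂ L (χ b) * V.π) := by
          rw [Subgroup.coe_mul, AlgEquiv.mul_apply, map_mul]
          ring
        rw [e1]
        refine Ge.add ?_ ?_
        · exact h1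
        · rwa [zero_add] at h2 }
  have hf : Function.Injective f := by
    rw [injective_iff_map_eq_one]
    intro a ha
    have h1 : ∀ i : ℕ, ∀ y : L, y ≠ 0 → Ge V ((a.1 ^ i) y - y) (V.v y + 1) := by
      intro i y hy
      have h2 := hkey (a ^ i) y hy
      have h3 : χ (a ^ i) = 1 := by
        have h4 : f (a ^ i) = 1 := by rw [map_pow, ha, one_pow]
        exact h4
      rw [h3, one_zpow, map_one, one_mul] at h2
      exact h2
    have h2 := eq_one_of V hC hN (hpow a.1 a.2) h1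
    exact Subtype.ext h2
  haveI : IsCyclic I := isCyclic_of_subgroup_isDomain f hf
  obtain ⟨g, hgen⟩ := IsCyclic.exists_generator (α := I)
  have h1 : orderOf g = Nat.card I := orderOf_eq_card_of_forall_mem_zpowers hgen
  have h2 : orderOf (f g) = orderOf g := orderOf_injective f hf g
  refine ⟨g.1, g.2, f g, hN, ?_, hpow g.1 g.2, hkey g⟩
  rw [← h1, ← h2]
  exact IsPrimitiveRoot.orderOf (f g)

end PM
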