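import Mathlib

/-! PM/Eq: equivariant choices. -/

set_option autoImplicit false

namespace PM

/-- An equivariant choice of objects with the property `P`. -/
theorem exists_equivariant {Γ ι X : Type} [Group Γ] [MulAction Γ ι] [MulAction Γ X]
    (P : ι → X → Prop) (h : ∀ i, ∃ x, P i x ∧ ∀ g : Γ, g • i = i → g • x = x)
    (hP : ∀ (g : Γ) (i : ι) (x : X), P i x → P (g • i) (g • x)) :
    ∃ f : ι → X, (∀ (g : Γ) (i : ι), f (g • i) = g • f i) ∧ ∀ i, P i (f i) := by
  classical
  have hrep : ∀ i : ι, ∃ γ : Γ, γ • (Quotient.out (Quotient.mk (MulAction.orbitRel Γ ι) i)) = i := by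
    intro i
    have h1 : (MulAction.orbitRel Γ ι).r (Quotient.out (Quotient.mk (MulAction.orbitRel Γ ι) i)) i :=
      Quotient.exact (Quotient.out_eq (Quotient.mk (MulAction.orbitRel Γ ι) i))
    have h2 : i ∈ MulAction.orbit Γ (Quotient.out (Quotient.mk (MulAction.orbitRel Γ ι) i)) :=
      (MulAction.orbitRel Γ ι).symm h1
    exact h2
  choose γ hγ using hrep
  choose x hx hfix using h
  refine ⟨fun i => γ i • x (Quotient.out (Quotient.mk (MulAction.orbitRel Γ ι) i)), ?_, ?_⟩
  · intro g i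
    have hq : Quotient.mk (MulAction.orbitRel Γ ι) (g • i) = Quotient.mk (MulAction.orbitRel Γ ι) i :=
      Quotient.sound ⟨g, rfl⟩
    have h1 := hγ (g • i)
    have h2 := hγ i
    rw [hq] at h1
    show γ (g • i) • x (Quotient.out (Quotient.mk (MulAction.orbitRel Γ ι) (g • i))) = _
    rw [hq]
    set r := Quotient.out (Quotient.mk (MulAction.orbitRel Γ ι) i) with hr
    have h3 : ((γ (g • i))⁻¹ * (g * γ i)) • r = r := by
      rw [mul_smul, mul_smul, h2, inv_smul_eq_iff, h1]
    have h4 := hfix r _ h3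
    rw [mul_smul, inv_smul_eq_iff, mul_smul] at h4
    exact h4.symm
  · intro i
    have h1 := hP (γ i) _ _ (hx (Quotient.out (Quotient.mk (MulAction.orbitRel Γ ι) i)))
    rwa [hγ i] at h1

end PM
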