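import Mathlib

/-!
PM/Mx: the block matrix of the forms.

`rk_lt`: `q` itself is in its block and not counted. `rk_inj`: if `q < q'` in one block then `rk q < rk q'`
(`Finset.card_lt_card`). `sum_rk`: the image of the block of `p` under `rk` is `range (bs bl p)` (injective,
cardinality), `Finset.sum_image`. `mx_inv`: `(mx bl z).det ^ 2 = det (Mᵀ M)`, the entry `p, p'` of `Mᵀ M` is
`∑_{a < bs p} z p a * z p' a` if `bl p = bl p'` (`sum_rk`), and `0` otherwise; `f` maps this matrix to its
`submatrix σ σ` (`RingHom.map_det`, `Matrix.det_submatrix_equiv_self`), `bs bl (σ p) = bs bl p`.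
-/

set_option autoImplicit false

namespace PM

/-- The size of the block of `q`. -/
def bs {n : ℕ} (bl : Fin n → Fin n) (q : Fin n) : ℕ :=
  (Finset.univ.filter fun l => bl l = bl q).card

/-- The position of `q` in its block. -/
def rk {n : ℕ} (bl : Fin n → Fin n) (q : Fin n) : ℕ :=
  (Finset.univ.filter fun p => p < q ∧ bl p = bl q).card

/-- The block matrix of the `z p a`. -/
def mx {L : Type} [Field L] {n : ℕ} (bl : Fin n → Fin n) (z : Fin n → ℕ → L) :
    Matrix (Fin n) (Fin n) L :=
  Matrix.of fun q p => if bl q = bl p then z p (rk bl q) else 0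

theorem rk_lt {n : ℕ} (bl : Fin n → Fin n) (q : Fin n) : rk bl q < bs bl q := by
  unfold rk bs
  refine Finset.card_lt_card (Finset.ssubset_iff_subset_ne.2 ⟨fun p hp => ?_, fun h => ?_⟩)
  · exact Finset.mem_filter.2 ⟨Finset.mem_univ _, (Finset.mem_filter.1 hp).2.2⟩
  · have h1 : q ∈ Finset.univ.filter fun p => p < q ∧ bl p = bl q := by
      rw [h]
      exact Finset.mem_filter.2 ⟨Finset.mem_univ _, rfl⟩
    exact absurd (Finset.mem_filter.1 h1).2.1 (lt_irrefl q)

private theorem rk_mono {n : ℕ} (bl : Fin n → Fin n) {q q' : Fin n} (h : bl q = bl q')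
    (hlt : q < q') : rk bl q < rk bl q' := by
  unfold rk
  refine Finset.card_lt_card (Finset.ssubset_iff_subset_ne.2 ⟨fun p hp => ?_, fun h' => ?_⟩)
  · obtain ⟨-, h1, h2⟩ := Finset.mem_filter.1 hp
    exact Finset.mem_filter.2 ⟨Finset.mem_univ _, h1.trans hlt, h2.trans h⟩
  · have h1 : q ∈ Finset.univ.filter fun p => p < q ∧ bl p = bl q := by
      rw [h']
      exact Finset.mem_filter.2 ⟨Finset.mem_univ _, hlt, h⟩
    exact absurd (Finset.mem_filter.1 h1).2.1 (lt_irrefl q)

theorem rk_inj {n : ℕ} (bl : Fin n → Fin n) {q q' : Fin n} (h : bl q = bl q')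
    (h' : rk bl q = rk bl q') : q = q' := by
  rcases lt_trichotomy q q' with h1 | h1 | h1
  · exact absurd h' (rk_mono bl h h1).ne
  · exact h1
  · exact absurd h'.symm (rk_mono bl h.symm h1).ne

private theorem bs_eq {n : ℕ} (bl : Fin n → Fin n) {q p : Fin n} (h : bl q = bl p) :
    bs bl q = bs bl p := by
  unfold bs
  rw [h]

theorem sum_rk {L : Type} [AddCommMonoid L] {n : ℕ} (bl : Fin n → Fin n) (p : Fin n) (f : ℕ → L) :
    ∑ q with bl q = bl p, f (rk bl q) = ∑ a ∈ Finset.range (bs bl p), f a := by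
  have hinj : Set.InjOn (rk bl) ((Finset.univ.filter fun q => bl q = bl p : Finset (Fin n)) :
      Set (Fin n)) := by
    intro a ha b hb hab
    have ha' := (Finset.mem_filter.1 (Finset.mem_coe.1 ha)).2
    have hb' := (Finset.mem_filter.1 (Finset.mem_coe.1 hb)).2
    exact rk_inj bl (ha'.trans hb'.symm) hab
  have himg : (Finset.univ.filter fun q => bl q = bl p).image (rk bl)
      = Finset.range (bs bl p) := by
    refine Finset.eq_of_subset_of_card_le (fun a ha => ?_) ?_
    · obtain ⟨q, hq, rfl⟩ := Finset.mem_image.1 ha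
      have h1 := (Finset.mem_filter.1 hq).2
      rw [Finset.mem_range, ← bs_eq bl h1]
      exact rk_lt bl q
    · rw [Finset.card_image_of_injOn hinj, Finset.card_range]
      exact le_refl _
  rw [← himg, Finset.sum_image hinj]

theorem bs_map {n : ℕ} (bl : Fin n → Fin n) (σ : Equiv.Perm (Fin n))
    (hσ : ∀ i j, bl (σ i) = bl (σ j) ↔ bl i = bl j) (i : Fin n) : bs bl (σ i) = bs bl i := by
  unfold bs
  refine (Finset.card_bij (fun l _ => σ l) (fun l hl => ?_) (fun a _ b _ h => ?_)
    fun l hl => ?_).symm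
  · exact Finset.mem_filter.2 ⟨Finset.mem_univ _, (hσ l i).2 (Finset.mem_filter.1 hl).2⟩
  · exact σ.injective h
  · refine ⟨σ.symm l, Finset.mem_filter.2 ⟨Finset.mem_univ _, (hσ _ _).1 ?_⟩, σ.apply_symm_apply l⟩
    rw [σ.apply_symm_apply]
    exact (Finset.mem_filter.1 hl).2

/-- the Gram matrix of `mx` -/
private theorem mx_gram {L : Type} [Field L] {n : ℕ} (bl : Fin n → Fin n) (z : Fin n → ℕ → L)
    (p p' : Fin n) : ((mx bl z).transpose * mx bl z) p p'
      = if bl p = bl p' then ∑ a ∈ Finset.range (bs bl p), z p a * z p' a else 0 := by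
  rw [Matrix.mul_apply]
  by_cases h : bl p = bl p'
  · rw [if_pos h, ← sum_rk bl p fun a => z p a * z p' a, Finset.sum_filter]
    refine Finset.sum_congr rfl fun q _ => ?_
    by_cases h1 : bl q = bl p
    · simp [mx, h1, h, Matrix.transpose_apply]
    · have h2 : ¬ bl q = bl p' := fun h3 => h1 (h3.trans h.symm)
      simp [mx, h1, Matrix.transpose_apply]
  · rw [if_neg h]
    refine Finset.sum_eq_zero fun q _ => ?_
    by_cases h1 : bl q = bl p
    · have h2 : ¬ bl q = bl p' := fun h3 => h (h1.symm.trans h3)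
      simp [mx, h2, Matrix.transpose_apply]
    · simp [mx, h1, Matrix.transpose_apply]

theorem mx_inv {L : Type} [Field L] {n : ℕ} (bl : Fin n → Fin n) (z : Fin n → ℕ → L)
    (σ : Equiv.Perm (Fin n)) (hσ : ∀ i j, bl (σ i) = bl (σ j) ↔ bl i = bl j) (f : L →+* L)
    (hf : ∀ i a, f (z i a) = z (σ i) a) : f ((mx bl z).det ^ 2) = (mx bl z).det ^ 2 := by
  have h1 : (mx bl z).det ^ 2 = ((mx bl z).transpose * mx bl z).det := by
    rw [Matrix.det_mul, Matrix.det_transpose, sq]
  have h2 : f.mapMatrix ((mx bl z).transpose * mx bl z)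
      = ((mx bl z).transpose * mx bl z).submatrix σ σ := by
    ext p p'
    rw [RingHom.mapMatrix_apply, Matrix.map_apply, Matrix.submatrix_apply, mx_gram, mx_gram]
    by_cases h : bl p = bl p'
    · rw [if_pos h, if_pos ((hσ p p').2 h), map_sum, bs_map bl σ hσ p]
      refine Finset.sum_congr rfl fun a _ => ?_
      rw [map_mul, hf, hf]
    · rw [if_neg h, if_neg fun h3 => h ((hσ p p').1 h3), map_zero]
  rw [h1, RingHom.map_det, h2, Matrix.det_submatrix_equiv_self]

theorem mx_map {L : Type} [Field L] {n : ℕ} (bl : Fin n → Fin n) (z : Fin n → ℕ → L)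
    (σ : Equiv.Perm (Fin n)) (f : L →+* L) (hf : ∀ i a, f (z i a) = z (σ i) a) (q p : Fin n)
    (h : bl (σ p) = bl p) : f (mx bl z q p) = mx bl z q (σ p) := by
  by_cases h1 : bl q = bl p
  · have h2 : bl q = bl (σ p) := h1.trans h.symm
    simp only [mx, Matrix.of_apply, if_pos h1, if_pos h2]
    exact hf p _
  · have h2 : ¬ bl q = bl (σ p) := fun h3 => h1 (h3.trans h)
    simp only [mx, Matrix.of_apply, if_neg h1, if_neg h2]
    exact map_zero f

end PM
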