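import Pool.Agent.Lib.MP_23b606_ag.PM.Defs
import Pool.Agent.Lib.MP_23b606_ag.PQ.Ai

/-!
PM/Pi: the permutation of the factors.

`maps_unique`: let `x ∈ F i` be transcendental; if `g x` is in `F j` and in `F j'`, `j ≠ j'`, choose for the
other factors transcendental elements and `g x` for `j` and `j'`: they are algebraically independent by
`alg_indep`, so different. `exists_perm`: `π g i` = the unique `j`; `π (g h) i = π g (π h i)` by
uniqueness, so `π g` is a permutation with the inverse `π g⁻¹`. `g x ∈ F (π g i) → x ∈ F i`: apply `g⁻¹`.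
-/

set_option autoImplicit false

open T1 PQ IntermediateField

namespace PM

private theorem pi_tr {L : Type} [Field L] [Algebra ℂ L] (F₀ : IntermediateField ℂ L)
    (h1 : Algebra.trdeg ℂ F₀ = 1) : ∃ x ∈ F₀, Transcendental ℂ x := by
  by_contra h
  push Not at h
  have h3 : Algebra.IsAlgebraic ℂ F₀ := ⟨fun x => by
    have h4 : IsAlgebraic ℂ (x : L) := by
      have := h x x.2
      rwa [Transcendental, not_not] at this
    exact (isAlgebraic_algHom_iff F₀.val F₀.val.injective).1 h4⟩
  have h2 : Algebra.trdeg ℂ F₀ = 0 := trdeg_eq_zero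
  rw [h1] at h2
  exact one_ne_zero h2

theorem maps_unique {L : Type} [Field L] [Algebra ℂ L] {n : ℕ}
    (F : Fin n → IntermediateField ℂ L) (hF : CurveProduct F) (g : L ≃ₐ[ℂ] L) (i j j' : Fin n)
    (h : Maps g (F i) (F j)) (h' : Maps g (F i) (F j')) : j = j' := by
  classical
  by_contra hne
  choose t ht htr using fun l => pi_tr (F l) (hF.tr l)
  have hg : Transcendental ℂ (g (t i)) := by
    intro h1
    exact htr i ((isAlgebraic_algHom_iff (g : L →ₐ[ℂ] L) g.injective).1 h1)
  let t' : Fin n → L := fun l => if l = j ∨ l = j' then g (t i) else t l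
  have ht' : ∀ l, t' l ∈ F l := by
    intro l
    by_cases h1 : l = j ∨ l = j'
    · simp only [t', if_pos h1]
      rcases h1 with rfl | rfl
      · exact h _ (ht i)
      · exact h' _ (ht i)
    · simp only [t', if_neg h1]
      exact ht l
  have htr' : ∀ l, Transcendental ℂ (t' l) := by
    intro l
    by_cases h1 : l = j ∨ l = j'
    · simp only [t', if_pos h1]
      exact hg
    · simp only [t', if_neg h1]
      exact htr l
  have hind := alg_indep F hF.tr hF.sup hF.dim t' ht' htr'
  refine hne (hind.injective ?_)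
  simp only [t', true_or, or_true, if_true]

theorem exists_perm {L : Type} [Field L] [Algebra ℂ L] {n : ℕ}
    (F : Fin n → IntermediateField ℂ L) (hF : CurveProduct F) (G : Subgroup (L ≃ₐ[ℂ] L))
    (hG : ∀ g ∈ G, ∀ i, ∃ j, Maps g (F i) (F j)) :
    ∃ π : G →* Equiv.Perm (Fin n), ∀ (g : G) (i : Fin n) (x : L),
      (g : L ≃ₐ[ℂ] L) x ∈ F (π g i) ↔ x ∈ F i := by
  choose p hp using fun (g : G) => hG g g.2
  have hone : p 1 = id := by
    funext i
    exact maps_unique F hF ((1 : G) : L ≃ₐ[ℂ] L) i _ _ (hp 1 i) fun x hx => hx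
  have hmul : ∀ g h : G, p (g * h) = p g ∘ p h := by
    intro g h
    funext i
    exact maps_unique F hF ((g * h : G) : L ≃ₐ[ℂ] L) i _ _ (hp (g * h) i)
      fun x hx => hp g (p h i) _ (hp h i x hx)
  let f : G →* Function.End (Fin n) :=
    { toFun := p
      map_one' := hone
      map_mul' := hmul }
  refine ⟨f.toHomPerm, fun g i x => ?_⟩
  have h1 : f.toHomPerm g i = p g i := rfl
  rw [h1]
  refine ⟨fun h => ?_, fun h => hp g i x h⟩
  have h2 := hp g⁻¹ (p g i) _ h
  have h3 : p g⁻¹ (p g i) = i := by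
    have h4 := hmul g⁻¹ g
    rw [inv_mul_cancel, hone] at h4
    exact (congrFun h4 i).symm
  have h5 : ((g⁻¹ : G) : L ≃ₐ[ℂ] L) ((g : L ≃ₐ[ℂ] L) x) = x := by
    have h6 : ((g⁻¹ : G) : L ≃ₐ[ℂ] L) * (g : L ≃ₐ[ℂ] L) = 1 := by
      rw [← Subgroup.coe_mul, inv_mul_cancel, Subgroup.coe_one]
    rw [← AlgEquiv.mul_apply, h6]
    rfl
  rw [h3, h5] at h2
  exact h2

end PM
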