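import Pool.Agent.Lib.MP_23b606_ag.PM.Fs
import Pool.Agent.Lib.MP_23b606_ag.PM.Eq
import Pool.Agent.Lib.MP_23b606_ag.PM.Pi
import Pool.Agent.Lib.MP_23b606_ag.PM.Mx
import Pool.Agent.Lib.MP_23b606_ag.PQ.Act

/-!
PM/Dat: the equivariant choice of the forms.

Proof of `exists_dat`: `π` from `exists_perm`. For every `i` there are `t, h, z` with `Cf`: `exists_forms`;
`stab G (F i)` is finite. `exists_equivariant` for `Γ = G`,
`ι = Fin n` (`MulAction.compHom _ π`), `X = L × L × (ℕ → L)`,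
`P i x = Cf (F i) (stab G (F i)) m (R i) (bs bl i) x.1 x.2.1 x.2.2`: `g • i = i` means `π g i = i`, so
`g ∈ stab G (F i)` and `t_fix`, `h_fix`, `z_fix`. Transport: `Cf.map`, with `hG.orbit` and
`bs bl (π g i) = bs bl i` (`bs_map`). `bl (π g i) = bl (π g j) ↔ bl i = bl j`: `hG.block` for `g` and `g⁻¹`.
-/

set_option autoImplicit false

open T1 PQ IntermediateField

namespace PM

/-- The equivariant forms. -/
structure Dat {L : Type} [Field L] [Algebra ℂ L] {n : ℕ} (F : Fin n → IntermediateField ℂ L)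
    (G : Subgroup (L ≃ₐ[ℂ] L)) (m : ℕ) (R : ∀ i, ValuationSubring (F i) → ℕ)
    (bl : Fin n → Fin n) (π : G →* Equiv.Perm (Fin n)) (t h : Fin n → L) (z : Fin n → ℕ → L) :
    Prop where
  maps : ∀ (g : G) (i : Fin n) (x : L), (g : L ≃ₐ[ℂ] L) x ∈ F (π g i) ↔ x ∈ F i
  cf : ∀ i, Cf (F i) (stab G (F i)) m (R i) (bs bl i) (t i) (h i) (z i)
  blk : ∀ (g : G) (i j : Fin n), bl (π g i) = bl (π g j) ↔ bl i = bl j
  gt : ∀ (g : G) (i : Fin n), (g : L ≃ₐ[ℂ] L) (t i) = t (π g i)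
  gh : ∀ (g : G) (i : Fin n), (g : L ≃ₐ[ℂ] L) (h i) = h (π g i)
  gz : ∀ (g : G) (i : Fin n) (a : ℕ), (g : L ≃ₐ[ℂ] L) (z i a) = z (π g i) a

/-- the membership in the stabiliser -/
private theorem mem_stab {L : Type} [Field L] [Algebra ℂ L] {G : Subgroup (L ≃ₐ[ℂ] L)}
    {F : IntermediateField ℂ L} {γ : L ≃ₐ[ℂ] L} :
    γ ∈ stab G F ↔ γ ∈ G ∧ ∀ x, γ x ∈ F ↔ x ∈ F := Iff.rfl

/-- the forms of one factor -/
private theorem exists_cf {L : Type} [Field L] [Algebra ℂ L] {n : ℕ}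
    (F : Fin n → IntermediateField ℂ L) (hF : CurveProduct F) (hr : ∀ i, ¬ Rational (F i))
    (G : Subgroup (L ≃ₐ[ℂ] L)) [Finite G] (m : ℕ) (R : ∀ i, ValuationSubring (F i) → ℕ)
    (bl : Fin n → Fin n)
    (hG : Weighted F G m R bl) (i : Fin n) :
    ∃ (t h : L) (z : ℕ → L), Cf (F i) (stab G (F i)) m (R i) (bs bl i) t h z := by
  have hle : stab G (F i) ≤ G := fun γ hγ => (mem_stab.1 hγ).1
  have hfin : Finite (stab G (F i)) :=
    Finite.of_injective (Subgroup.inclusion hle) (Subgroup.inclusion_injective hle)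
  exact exists_forms (F i) (crv_of_fg (F i) (hF.tr i) (hF.fg i)) (hr i) (stab G (F i))
    (fun γ hγ x hx => ((mem_stab.1 hγ).2 x).2 hx) m (bs bl i) hG.pos (R i) (hG.weight i)

theorem exists_dat {L : Type} [Field L] [Algebra ℂ L] {n : ℕ}
    (F : Fin n → IntermediateField ℂ L) (hF : CurveProduct F) (hr : ∀ i, ¬ Rational (F i))
    (G : Subgroup (L ≃ₐ[ℂ] L)) [Finite G] (m : ℕ) (R : ∀ i, ValuationSubring (F i) → ℕ)
    (bl : Fin n → Fin n)
    (hG : Weighted F G m R bl) :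
    ∃ (π : G →* Equiv.Perm (Fin n)) (t h : Fin n → L) (z : Fin n → ℕ → L),
      Dat F G m R bl π t h z := by
  obtain ⟨π, hπ⟩ := exists_perm F hF G hG.perm
  have hmaps : ∀ (g : G) (i : Fin n), Maps (g : L ≃ₐ[ℂ] L) (F i) (F (π g i)) :=
    fun g i x hx => (hπ g i x).2 hx
  have hb1 : ∀ (g : G) (i j : Fin n), bl i = bl j → bl (π g i) = bl (π g j) := fun g i j h =>
    hG.block g g.2 i j (π g i) (π g j) (hmaps g i) (hmaps g j) h
  have hblk : ∀ (g : G) (i j : Fin n), bl (π g i) = bl (π g j) ↔ bl i = bl j := by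
    intro g i j
    refine ⟨fun h => ?_, hb1 g i j⟩
    have h1 := hb1 g⁻¹ (π g i) (π g j) h
    have h2 : ∀ l : Fin n, π g⁻¹ (π g l) = l := by
      intro l
      rw [map_inv]
      exact (π g).symm_apply_apply l
    rwa [h2, h2] at h1
  have hbs : ∀ (g : G) (i : Fin n), bs bl (π g i) = bs bl i := fun g i =>
    bs_map bl (π g) (hblk g) i
  let _ : MulAction G (Fin n) := MulAction.compHom (Fin n) π
  have hsm : ∀ (g : G) (i : Fin n), g • i = π g i := fun _ _ => rfl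
  have hex : ∀ i, ∃ x : L × L × (ℕ → L), Cf (F i) (stab G (F i)) m (R i) (bs bl i) x.1 x.2.1 x.2.2
      ∧ ∀ g : G, g • i = i → g • x = x := by
    intro i
    obtain ⟨t, h, z, H⟩ := exists_cf F hF hr G m R bl hG i
    refine ⟨(t, h, z), H, fun g hg => ?_⟩
    rw [hsm] at hg
    have h1 : (g : L ≃ₐ[ℂ] L) ∈ stab G (F i) := by
      refine mem_stab.2 ⟨g.2, fun x => ?_⟩
      have h2 := hπ g i x
      rwa [hg] at h2
    refine Prod.ext (H.t_fix _ h1) (Prod.ext (H.h_fix _ h1) (funext fun a => H.z_fix _ h1 a))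
  have htra : ∀ (g : G) (i : Fin n) (x : L × L × (ℕ → L)),
      Cf (F i) (stab G (F i)) m (R i) (bs bl i) x.1 x.2.1 x.2.2 →
      Cf (F (g • i)) (stab G (F (g • i))) m (R (g • i)) (bs bl (g • i)) (g • x).1 (g • x).2.1
        (g • x).2.2 := by
    intro g i x H
    rw [hsm]
    have h1 := H.map (g : L ≃ₐ[ℂ] L) (F (π g i)) (stab G (F (π g i))) (R (π g i))
      (fun y => hπ g i y) ?_ fun P Q hP hQ hPQ => hG.orbit g g.2 i (π g i) (hmaps g i) P Q hP hQ hPQ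
    · rw [hbs]
      exact h1
    · intro γ
      rw [mem_stab, mem_stab]
      have h2 : ∀ y : L, ((g : L ≃ₐ[ℂ] L) * γ * (g : L ≃ₐ[ℂ] L)⁻¹) ((g : L ≃ₐ[ℂ] L) y)
          = (g : L ≃ₐ[ℂ] L) (γ y) := by
        intro y
        show (g : L ≃ₐ[ℂ] L) (γ ((g : L ≃ₐ[ℂ] L)⁻¹ ((g : L ≃ₐ[ℂ] L) y))) = _
        congr 2
        show (g : L ≃ₐ[ℂ] L).symm ((g : L ≃ₐ[ℂ] L) y) = y
        exact AlgEquiv.symm_apply_apply _ _
      have h3 : ∀ w : L, ∃ y, w = (g : L ≃ₐ[ℂ] L) y := fun w =>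
        ⟨(g : L ≃ₐ[ℂ] L).symm w, (AlgEquiv.apply_symm_apply _ _).symm⟩
      constructor
      · rintro ⟨h4, h5⟩
        refine ⟨?_, fun y => ?_⟩
        · have h6 := G.mul_mem (G.mul_mem (G.inv_mem g.2) h4) g.2
          have h7 : (g : L ≃ₐ[ℂ] L)⁻¹ * ((g : L ≃ₐ[ℂ] L) * γ * (g : L ≃ₐ[ℂ] L)⁻¹)
              * (g : L ≃ₐ[ℂ] L) = γ := by group
          rwa [h7] at h6
        · have h6 := h5 ((g : L ≃ₐ[ℂ] L) y)
          rw [h2, hπ, hπ] at h6
          exact h6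
      · rintro ⟨h4, h5⟩
        refine ⟨G.mul_mem (G.mul_mem g.2 h4) (G.inv_mem g.2), fun w => ?_⟩
        obtain ⟨y, rfl⟩ := h3 w
        rw [h2, hπ, hπ]
        exact h5 y
  obtain ⟨f, hf1, hf2⟩ := exists_equivariant (Γ := G) (ι := Fin n) (X := L × L × (ℕ → L))
    (fun i x => Cf (F i) (stab G (F i)) m (R i) (bs bl i) x.1 x.2.1 x.2.2) hex htra
  refine ⟨π, fun i => (f i).1, fun i => (f i).2.1, fun i => (f i).2.2, hπ, hf2, hblk, ?_, ?_, ?_⟩
  · intro g i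
    have h1 := hf1 g i
    rw [hsm] at h1
    show (g : L ≃ₐ[ℂ] L) (f i).1 = (f (π g i)).1
    rw [h1]
    rfl
  · intro g i
    have h1 := hf1 g i
    rw [hsm] at h1
    show (g : L ≃ₐ[ℂ] L) (f i).2.1 = (f (π g i)).2.1
    rw [h1]
    rfl
  · intro g i a
    have h1 := hf1 g i
    rw [hsm] at h1
    show (g : L ≃ₐ[ℂ] L) ((f i).2.2 a) = (f (π g i)).2.2 a
    rw [h1]
    rfl

end PM
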