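import Pool.Agent.Lib.MP_23b606_ag.PM.Du

/-!
PM/Dt: determinants of functions of different variables.

`lin_disj`: the `z a` are killed by the `E j`, `j ≠ q`, and linearly independent over `ℂ`, the `c a` are
killed by `E q`. Proof: strong induction on the number of the `a` with `c a ≠ 0`. If `c a₀ ≠ 0` divide the
relation by `c a₀` (the quotients are killed by `E q`), so let `c a₀ = 1`. Apply `E j`, `j ≠ q`:
`∑ (E j (c a)) z a = 0`, the coefficients are killed by `E q` (`comm_of_dual`) and vanish where the `c a`
do and at `a₀`, so they are `0` by induction. So `E j (c a) = 0` for all `j`, and the `c a` are constants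
(`const_of_dual`), all `0` by the linear independence.
`det_ne`: induction on `b`, expansion along the last column (`Matrix.det_succ_column`): the coefficients
are killed by `E (q last)` (a determinant of elements in the kernel of a derivation), one of them is not
`0` by induction (rows `≠ last`), `lin_disj`. `det_ne'`: any index type, by `Fintype.equivFin`
(`Matrix.det_submatrix_equiv_self`, `Matrix.det_reindex_self`).
-/

set_option autoImplicit false

open T1 PQ

namespace PM

theorem lin_disj {L : Type} [Field L] [Algebra ℂ L] {n : ℕ} (hn : Algebra.trdeg ℂ L = n)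
    (x : Fin n → L) (hx : AlgebraicIndependent ℂ x) (E : Fin n → Derivation ℂ L L)
    (hE : ∀ i j, E i (x j) = if i = j then 1 else 0) (q : Fin n) {b : ℕ} (z c : Fin b → L)
    (hz : ∀ a, ∀ j, j ≠ q → E j (z a) = 0) (hli : LinearIndependent ℂ z)
    (hc : ∀ a, E q (c a) = 0) (h : ∑ a, c a * z a = 0) (a : Fin b) : c a = 0 := by
  classical
  suffices H : ∀ m : ℕ, ∀ c : Fin b → L, (Finset.univ.filter fun a => c a ≠ 0).card = m →
      (∀ a, E q (c a) = 0) → ∑ a, c a * z a = 0 → ∀ a, c a = 0 from H _ c rfl hc h a
  clear a h hc c
  intro m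
  induction m using Nat.strong_induction_on with
  | _ m ih =>
    intro c hm hc h
    by_contra hcon
    rw [not_forall] at hcon
    obtain ⟨a₀, ha₀⟩ := hcon
    let d : Fin b → L := fun a => c a / c a₀
    have hd0 : d a₀ = 1 := div_self ha₀
    have hdq : ∀ a, E q (d a) = 0 := by
      intro a
      have h1 : d a * c a₀ = c a := div_mul_cancel₀ _ ha₀
      have h2 := congrArg (E q) h1
      rw [Derivation.leibniz, hc a₀, hc a, smul_zero, zero_add, smul_eq_mul] at h2
      exact (mul_eq_zero.1 h2).resolve_left ha₀
    have hdz : ∑ a, d a * z a = 0 := by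
      have h1 : ∑ a, d a * z a = (∑ a, c a * z a) / c a₀ := by
        rw [Finset.sum_div]
        exact Finset.sum_congr rfl fun a _ => div_mul_eq_mul_div _ _ _
      rw [h1, h, zero_div]
    have hEd : ∀ j, ∀ a, E j (d a) = 0 := by
      intro j
      by_cases hj : j = q
      · rw [hj]
        exact hdq
      refine ih _ ?_ (fun a => E j (d a)) rfl (fun a => ?_) ?_
      · rw [← hm]
        refine Finset.card_lt_card ?_
        rw [Finset.ssubset_iff_of_subset]
        · refine ⟨a₀, Finset.mem_filter.2 ⟨Finset.mem_univ _, ha₀⟩, fun h1 => ?_⟩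
          apply (Finset.mem_filter.1 h1).2
          rw [hd0]
          exact Derivation.map_one_eq_zero (E j)
        · intro a ha
          rw [Finset.mem_filter] at ha ⊢
          refine ⟨Finset.mem_univ _, fun h0 => ha.2 ?_⟩
          have h1 : d a = 0 := by
            show c a / c a₀ = 0
            rw [h0, zero_div]
          rw [h1, map_zero]
      · rw [comm_of_dual hn x hx E hE, hdq, map_zero]
      · have h1 := congrArg (E j) hdz
        rw [map_sum, map_zero] at h1
        rw [← h1]
        refine Finset.sum_congr rfl fun a _ => ?_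
        rw [Derivation.leibniz, hz a j hj, smul_zero, zero_add, smul_eq_mul, mul_comm]
    have hconst : ∀ a, ∃ k : ℂ, d a = algebraMap ℂ L k := fun a =>
      const_of_dual hn x hx E hE (d a) fun i => hEd i a
    choose k hk using hconst
    have h1 : ∑ a, k a • z a = 0 := by
      rw [← hdz]
      refine Finset.sum_congr rfl fun a _ => ?_
      rw [hk a, Algebra.smul_def]
    have h2 := Fintype.linearIndependent_iff.1 hli k h1 a₀
    rw [hk a₀, h2, map_zero] at hd0
    exact zero_ne_one hd0

private theorem der_det {L : Type} [Field L] [Algebra ℂ L] (D : Derivation ℂ L L) {m : ℕ}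
    (A : Matrix (Fin m) (Fin m) L) (hA : ∀ i j, D (A i j) = 0) : D A.det = 0 := by
  let S : Subalgebra ℂ L :=
    { carrier := {y | D y = 0}
      mul_mem' := by
        intro u v hu hv
        have hu' : D u = 0 := hu
        have hv' : D v = 0 := hv
        show D (u * v) = 0
        rw [Derivation.leibniz, hu', hv', smul_zero, smul_zero, add_zero]
      add_mem' := by
        intro u v hu hv
        have hu' : D u = 0 := hu
        have hv' : D v = 0 := hv
        show D (u + v) = 0
        rw [map_add, hu', hv', add_zero]
      algebraMap_mem' := fun r => D.map_algebraMap r }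
  have h1 : A.det ∈ S := by
    rw [Matrix.det_apply']
    refine Subalgebra.sum_mem S fun σ _ => Subalgebra.mul_mem S (Subalgebra.intCast_mem S _) ?_
    exact Subalgebra.prod_mem S fun i _ => hA _ _
  exact h1

theorem det_ne {L : Type} [Field L] [Algebra ℂ L] {n : ℕ} (hn : Algebra.trdeg ℂ L = n)
    (x : Fin n → L) (hx : AlgebraicIndependent ℂ x) (E : Fin n → Derivation ℂ L L)
    (hE : ∀ i j, E i (x j) = if i = j then 1 else 0) {b : ℕ} (q : Fin b → Fin n)
    (hq : Function.Injective q) (M : Matrix (Fin b) (Fin b) L)
    (hM : ∀ a p, ∀ j, j ≠ q p → E j (M a p) = 0)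
    (hli : ∀ p, LinearIndependent ℂ fun a => M a p) : M.det ≠ 0 := by
  induction b with
  | zero =>
    rw [Matrix.det_fin_zero]
    exact one_ne_zero
  | succ b ih =>
    intro hdet
    rw [Matrix.det_succ_column M (Fin.last b)] at hdet
    have h0 := lin_disj hn x hx E hE (q (Fin.last b)) (fun a => M a (Fin.last b))
      (fun i => (-1) ^ ((i : ℕ) + (Fin.last b : ℕ)) *
        (M.submatrix i.succAbove (Fin.last b).succAbove).det)
      (fun a j hj => hM a (Fin.last b) j hj) (hli (Fin.last b)) (fun i => ?_) ?_ (Fin.last b)
    · have h1 : (M.submatrix (Fin.last b).succAbove (Fin.last b).succAbove).det = 0 := by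
        rcases mul_eq_zero.1 h0 with h2 | h2
        · exact absurd h2 (pow_ne_zero _ (neg_ne_zero.2 one_ne_zero))
        · exact h2
      refine ih (fun p => q ((Fin.last b).succAbove p))
        (fun p p' hp => Fin.succAbove_right_injective (hq hp)) _ (fun a p j hj => hM _ _ j hj)
        (fun p => ?_) h1
      exact (hli ((Fin.last b).succAbove p)).comp (Fin.last b).succAbove
        Fin.succAbove_right_injective
    · have h1 : E (q (Fin.last b)) (M.submatrix i.succAbove (Fin.last b).succAbove).det = 0 := by
        refine der_det _ _ fun a p => ?_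
        refine hM _ _ _ fun h2 => ?_
        exact Fin.succAbove_ne (Fin.last b) p (hq h2).symm
      have h2 : E (q (Fin.last b)) ((-1 : L) ^ ((i : ℕ) + (Fin.last b : ℕ))) = 0 := by
        have h3 : ((-1 : L) ^ ((i : ℕ) + (Fin.last b : ℕ))) =
            algebraMap ℂ L ((-1) ^ ((i : ℕ) + (Fin.last b : ℕ))) := by
          rw [map_pow, map_neg, map_one]
        rw [h3, Derivation.map_algebraMap]
      rw [Derivation.leibniz, h1, h2, smul_zero, smul_zero, add_zero]
    · rw [← hdet]
      refine Finset.sum_congr rfl fun i _ => ?_
      ring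

theorem det_ne' {L : Type} [Field L] [Algebra ℂ L] {n : ℕ} (hn : Algebra.trdeg ℂ L = n)
    (x : Fin n → L) (hx : AlgebraicIndependent ℂ x) (E : Fin n → Derivation ℂ L L)
    (hE : ∀ i j, E i (x j) = if i = j then 1 else 0) {B : Type} [Fintype B] [DecidableEq B]
    (q : B → Fin n) (hq : Function.Injective q) (M : Matrix B B L)
    (hM : ∀ a p, ∀ j, j ≠ q p → E j (M a p) = 0)
    (hli : ∀ p, LinearIndependent ℂ fun a => M a p) : M.det ≠ 0 := by
  rw [← Matrix.det_submatrix_equiv_self (Fintype.equivFin B).symm M]
  refine det_ne hn x hx E hE (fun p => q ((Fintype.equivFin B).symm p))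
    (fun p p' hp => (Fintype.equivFin B).symm.injective (hq hp)) _ (fun a p j hj => hM _ _ j hj)
    (fun p => ?_)
  exact (hli ((Fintype.equivFin B).symm p)).comp (Fintype.equivFin B).symm
    (Fintype.equivFin B).symm.injective

end PM
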