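import Pool.Agent.Lib.MP_23b606_ag.PQ.Ai
import Pool.Agent.Lib.MP_23b606_ag.PM.B
import Pool.Agent.Lib.MP_23b606_ag.PQ.Log
import Pool.Agent.Lib.MP_23b606_ag.T1.Jac

/-!
PM/Du: dual derivations of algebraically independent elements.

`exists_dual`: compose the linear forms of `ai_dual` (private in `PQ/Ai.lean`, copy its proof:
`T1.linearIndependent_D`) with `KaehlerDifferential.D`. `dual_unique`: a derivation of `L` which vanishes on
a transcendence basis is `0`: `Ω[L⁄ℂ]` has dimension `n` (`T4.finrank_omega` in `T4/Base`), and the `D (x i)`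
are a basis of it; or: if `D = 0` on `ℂ(x)` and `y` is algebraic over it, `p(y) = 0` minimal gives
`p'(y) D y = 0`. `const_of_dual`: if `y` is transcendental over `ℂ` then `D y ≠ 0` in `Ω[L⁄ℂ]`
(`T1.linearIndependent_D` for `Fin 1`), and the dual forms form a basis of the dual space; an element of `L`
which is algebraic over `ℂ` is in `ℂ`. `comm`: the commutator of derivations is a derivation (`⁅D, E⁆`,
`Derivation.commutator_apply`), it kills the `x j`, use `dual_unique`. `W_of_dual`: `W y = j • W x` for
some `j` (`exists_smul_W`), apply `jac_eq_of_W`, `jac E x = 1`.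
-/

set_option autoImplicit false

open T1 PQ

open scoped KaehlerDifferential

namespace PM

theorem exists_dual {L : Type} [Field L] [Algebra ℂ L] {n : ℕ} (x : Fin n → L)
    (hx : AlgebraicIndependent ℂ x) :
    ∃ E : Fin n → Derivation ℂ L L, ∀ i j, E i (x j) = if i = j then 1 else 0 := by
  classical
  have hli := T1.linearIndependent_D x hx
  set v := fun i => KaehlerDifferential.D ℂ L (x i) with hv
  let b := Module.Basis.span hli
  have hφ : ∀ i, ∃ φ : Ω[L⁄ℂ] →ₗ[L] L, ∀ j, φ (v j) = if i = j then 1 else 0 := by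
    intro i
    obtain ⟨φ, hφ⟩ := LinearMap.exists_extend (b.coord i)
    refine ⟨φ, fun j => ?_⟩
    have h1 : (b j : Ω[L⁄ℂ]) = v j := congrArg Subtype.val (Module.Basis.span_apply hli j)
    rw [← h1]
    have h2 : φ (b j : Ω[L⁄ℂ]) = (b.coord i) (b j) := by rw [← hφ]; rfl
    rw [h2, Module.Basis.coord_apply, Module.Basis.repr_self, Finsupp.single_apply]
    simp only [eq_comm]
  choose φ hφ using hφ
  exact ⟨fun i => (φ i).compDer (KaehlerDifferential.D ℂ L), fun i j => hφ i j⟩

theorem ai_of_W {L : Type} [Field L] [Algebra ℂ L] {n : ℕ} (x : Fin n → L) (hx : W x ≠ 0) :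
    AlgebraicIndependent ℂ x := by
  classical
  have hli : LinearIndependent L fun i => KaehlerDifferential.D ℂ L (x i) := by
    by_contra hcon
    exact hx (AlternatingMap.map_linearDependent _ _ hcon)
  let k : IntermediateField ℂ L := IntermediateField.adjoin ℂ (Set.range x)
  let x' : Fin n → k := fun i => ⟨x i, IntermediateField.subset_adjoin ℂ _ ⟨i, rfl⟩⟩
  have : CharZero k := charZero_of_injective_algebraMap (algebraMap ℂ k).injective
  have hli' : LinearIndependent k fun i => KaehlerDifferential.D ℂ k (x' i) := by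
    rw [Fintype.linearIndependent_iff]
    intro g hg i
    have h1 := congrArg (KaehlerDifferential.map ℂ ℂ k L) hg
    rw [map_sum, map_zero] at h1
    have h2 : ∑ j, (g j : L) • KaehlerDifferential.D ℂ L (x j) = 0 := by
      rw [← h1]
      refine Finset.sum_congr rfl fun j _ => ?_
      rw [map_smul, KaehlerDifferential.map_D]
      rfl
    have h3 := Fintype.linearIndependent_iff.1 hli (fun j => (g j : L)) h2 i
    exact Subtype.ext h3
  have halg : Algebra.IsAlgebraic (Algebra.adjoin ℂ (Set.range x')) k := by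
    have htop : IntermediateField.adjoin ℂ (Set.range x') = ⊤ := by
      have h1 : (IntermediateField.adjoin ℂ (Set.range x')).map k.val = k := by
        rw [IntermediateField.adjoin_map]
        congr 1
        ext z
        constructor
        · rintro ⟨_, ⟨i, rfl⟩, rfl⟩
          exact ⟨i, rfl⟩
        · rintro ⟨i, rfl⟩
          exact ⟨x' i, ⟨i, rfl⟩, rfl⟩
      rw [eq_top_iff]
      intro z _
      have h2 : (z : L) ∈ (IntermediateField.adjoin ℂ (Set.range x')).map k.val := by
        rw [h1]
        exact z.2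
      obtain ⟨w, hw, hwz⟩ := h2
      have h3 : w = z := Subtype.ext hwz
      rwa [← h3]
    refine ⟨fun z => IntermediateField.isAlgebraic_adjoin_iff.1 ?_⟩
    have hz : z ∈ IntermediateField.adjoin ℂ (Set.range x') := by
      rw [htop]
      exact IntermediateField.mem_top
    exact isAlgebraic_algebraMap (⟨z, hz⟩ : IntermediateField.adjoin ℂ (Set.range x'))
  have htr : (n : Cardinal) ≤ Algebra.trdeg ℂ k := by
    by_contra hcon
    rw [not_le] at hcon
    obtain ⟨e, he⟩ := Cardinal.lt_aleph0.1 (hcon.trans (Cardinal.natCast_lt_aleph0))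
    obtain ⟨hfin, hrk⟩ := T4.finrank_omega (F := ℂ) (k := k) he
    have h1 := hli'.fintype_card_le_finrank
    rw [Fintype.card_fin, hrk] at h1
    rw [he, Nat.cast_lt] at hcon
    omega
  have hb : IsTranscendenceBasis ℂ x' :=
    Algebra.IsAlgebraic.isTranscendenceBasis_of_le_trdeg_of_finite ℂ x'
      (by rw [Cardinal.mk_fin]; exact htr)
  exact hb.1.map' (f := k.val) k.val.injective

theorem dual_unique {L : Type} [Field L] [Algebra ℂ L] {n : ℕ} (hn : Algebra.trdeg ℂ L = n)
    (x : Fin n → L) (hx : AlgebraicIndependent ℂ x) (D : Derivation ℂ L L)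
    (hD : ∀ j, D (x j) = 0) (y : L) : D y = 0 := by
  have : CharZero L := charZero_of_injective_algebraMap (algebraMap ℂ L).injective
  have hb : IsTranscendenceBasis ℂ x :=
    hx.isTranscendenceBasis_of_trdeg_le_of_finite (by rw [hn, Cardinal.mk_fin])
  exact T4.der_eq_zero D x hb hD y

theorem const_of_dual {L : Type} [Field L] [Algebra ℂ L] {n : ℕ} (hn : Algebra.trdeg ℂ L = n)
    (x : Fin n → L) (hx : AlgebraicIndependent ℂ x) (E : Fin n → Derivation ℂ L L)
    (hE : ∀ i j, E i (x j) = if i = j then 1 else 0) (y : L) (hy : ∀ i, E i y = 0) :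
    ∃ c : ℂ, y = algebraMap ℂ L c := by
  classical
  have hD : KaehlerDifferential.D ℂ L y = 0 := by
    rw [T4.D_base hn x E hE y]
    refine Finset.sum_eq_zero fun i _ => ?_
    rw [hy i, zero_smul]
  have halg : IsAlgebraic ℂ y := by
    by_contra hcon
    let z : Fin 1 → L := fun _ => y
    have hz : AlgebraicIndependent ℂ z := by
      rw [algebraicIndependent_unique_type_iff]
      exact hcon
    exact (T1.linearIndependent_D z hz).ne_zero 0 hD
  have hi : IsIntegral ℂ y := halg.isIntegral
  have h1 := IsAlgClosed.degree_eq_one_of_irreducible ℂ (minpoly.irreducible hi)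
  obtain ⟨c, hc⟩ := minpoly.degree_eq_one_iff.1 h1
  exact ⟨c, hc.symm⟩

theorem comm_of_dual {L : Type} [Field L] [Algebra ℂ L] {n : ℕ} (hn : Algebra.trdeg ℂ L = n)
    (x : Fin n → L) (hx : AlgebraicIndependent ℂ x) (E : Fin n → Derivation ℂ L L)
    (hE : ∀ i j, E i (x j) = if i = j then 1 else 0) (i j : Fin n) (y : L) :
    E i (E j y) = E j (E i y) := by
  have h1 := dual_unique hn x hx ⁅E i, E j⁆ (fun k => by
    rw [Derivation.commutator_apply, hE, hE]
    split_ifs <;> simp) y
  rw [Derivation.commutator_apply] at h1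
  exact sub_eq_zero.1 h1

/-- The coordinates of `W y` with respect to `W x`. -/
theorem W_of_dual {L : Type} [Field L] [Algebra ℂ L] {n : ℕ} (hn : Algebra.trdeg ℂ L = n)
    (x : Fin n → L) (hx : AlgebraicIndependent ℂ x) (E : Fin n → Derivation ℂ L L)
    (hE : ∀ i j, E i (x j) = if i = j then 1 else 0) (y : Fin n → L) :
    W y = jac E y • W x := by
  classical
  obtain ⟨j, hj⟩ := PQ.exists_smul_W hn y x (PQ.W_ne x hx)
  have h1 := jac_eq_of_W y x j hj E
  have h2 : jac E x = 1 := by
    unfold jac
    have h3 : (Matrix.of fun i j => E i (x j)) = (1 : Matrix (Fin n) (Fin n) L) := by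
      ext i j
      rw [Matrix.of_apply, Matrix.one_apply, hE]
    rw [h3, Matrix.det_one]
  rw [h2, mul_one] at h1
  rw [h1, hj]

end PM
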