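import Pool.Agent.Lib.MP_23b606_ag.PM.Eg

/-!
PM/Dv: values of determinants.

`det_ge`: `Matrix.det_apply'`, `Ge.sum`, `Ge.prod`, signs are constants (`ge_intCast`).
`det_ge_swap`: `2 det M = ∑_τ sgn τ (M (τ i) i M (τ j) j - M (τ j) i M (τ i) j) ∏_{p ≠ i, j} M (τ p) p`
(in the second term replace `τ` by `τ * swap i j`). `r = M a i * M b j - M b i * M a j` satisfies `g r = - r`,
so it is `0` or `2 V r` is an odd multiple of `e` (`Ine.odd_of_anti`), and `Ge V r (m i + m j)`, a multiple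
of `e`, so `2 V r ≥ 2 (m i + m j) + e`.
-/

set_option autoImplicit false

open T1 PQ

namespace PM

theorem det_ge {L : Type} [Field L] [Algebra ℂ L] {O : ValuationSubring L} {V : NVal O}
    (hC : Cst O) {n : ℕ} (M : Matrix (Fin n) (Fin n) L) (m : Fin n → ℤ)
    (hM : ∀ a p, Ge V (M a p) (m p)) : Ge V M.det (∑ p, m p) := by
  rw [Matrix.det_apply']
  refine Ge.sum _ _ _ fun σ _ => ?_
  have h1 : Ge V (((Equiv.Perm.sign σ : ℤ) : L)) 0 := ge_intCast hC _
  have h2 := Ge.prod (V := V) Finset.univ (fun p => M (σ p) p) m (fun p _ => hM _ _)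
  have h3 := h1.mul h2
  rwa [zero_add] at h3

private theorem split_prod {A : Type} [CommMonoid A] {n : ℕ} (f : Fin n → A) {i j : Fin n}
    (hij : i ≠ j) :
    ∏ p, f p = f i * f j * ∏ p ∈ (Finset.univ.erase i).erase j, f p := by
  rw [mul_assoc, Finset.mul_prod_erase (Finset.univ.erase i) f
    (Finset.mem_erase.2 ⟨hij.symm, Finset.mem_univ j⟩),
    Finset.mul_prod_erase Finset.univ f (Finset.mem_univ i)]

private theorem two_det {L : Type} [Field L] {n : ℕ} (M : Matrix (Fin n) (Fin n) L) {i j : Fin n}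
    (hij : i ≠ j) :
    2 * M.det = ∑ σ : Equiv.Perm (Fin n), ((Equiv.Perm.sign σ : ℤ) : L) *
      ((M (σ i) i * M (σ j) j - M (σ j) i * M (σ i) j) *
        ∏ p ∈ (Finset.univ.erase i).erase j, M (σ p) p) := by
  have h1 : M.det = ∑ σ : Equiv.Perm (Fin n), ((Equiv.Perm.sign σ : ℤ) : L) *
      ((M (σ i) i * M (σ j) j) * ∏ p ∈ (Finset.univ.erase i).erase j, M (σ p) p) := by
    rw [Matrix.det_apply']
    refine Finset.sum_congr rfl fun σ _ => ?_
    rw [split_prod (fun p => M (σ p) p) hij]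
  have h2 : M.det = ∑ σ : Equiv.Perm (Fin n), -(((Equiv.Perm.sign σ : ℤ) : L) *
      ((M (σ j) i * M (σ i) j) * ∏ p ∈ (Finset.univ.erase i).erase j, M (σ p) p)) := by
    rw [Matrix.det_apply', ← Equiv.sum_comp (Equiv.mulRight (Equiv.swap i j))]
    refine Finset.sum_congr rfl fun σ _ => ?_
    rw [split_prod (fun p => M ((Equiv.mulRight (Equiv.swap i j) σ) p) p) hij]
    have h3 : ∏ p ∈ (Finset.univ.erase i).erase j,
        M ((Equiv.mulRight (Equiv.swap i j) σ) p) p =
        ∏ p ∈ (Finset.univ.erase i).erase j, M (σ p) p := by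
      refine Finset.prod_congr rfl fun p hp => ?_
      have hp1 := Finset.mem_erase.1 hp
      have hp2 := Finset.mem_erase.1 hp1.2
      rw [Equiv.coe_mulRight, Equiv.Perm.mul_apply, Equiv.swap_apply_of_ne_of_ne hp2.1 hp1.1]
    rw [h3, Equiv.coe_mulRight, Equiv.Perm.mul_apply, Equiv.Perm.mul_apply, Equiv.swap_apply_left,
      Equiv.swap_apply_right, Equiv.Perm.sign_mul, Equiv.Perm.sign_swap hij]
    push_cast
    ring
  rw [two_mul]
  nth_rewrite 1 [h1]
  rw [h2, ← Finset.sum_add_distrib]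
  refine Finset.sum_congr rfl fun σ _ => ?_
  ring

theorem det_ge_swap {L : Type} [Field L] [Algebra ℂ L] {O : ValuationSubring L} {V : NVal O}
    {g : L ≃ₐ[ℂ] L} {e : ℕ} {ζ : ℂ} (h : Ine V g e ζ) (hC : Cst O) {n : ℕ}
    (M : Matrix (Fin n) (Fin n) L) (m : Fin n → ℤ) (hM : ∀ a p, Ge V (M a p) (m p))
    (i j : Fin n) (hij : i ≠ j) (hm : (e : ℤ) ∣ m i + m j) (hgi : ∀ a, g (M a i) = M a j)
    (hgj : ∀ a, g (M a j) = M a i) (h0 : M.det ≠ 0) :
    2 * (∑ p, m p) + e ≤ 2 * V.v M.det := by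
  have he : 1 ≤ e := h.pos
  obtain ⟨q, hq⟩ := hm
  obtain ⟨c, hc1, hc2⟩ : ∃ c : ℤ, (e : ℤ) ≤ 2 * c ∧ 2 * c ≤ e + 1 := ⟨(e + 1) / 2, by omega, by omega⟩
  have hr : ∀ a b : Fin n, Ge V (M a i * M b j - M b i * M a j) (c + (m i + m j)) := by
    intro a b
    by_cases hx : M a i * M b j - M b i * M a j = 0
    · exact Or.inl hx
    have h1 : Ge V (M a i * M b j) (m i + m j) := (hM a i).mul (hM b j)
    have h2 : Ge V (M b i * M a j) (m i + m j) := (hM b i).mul (hM a j)
    have h3 := (h1.sub h2).le hx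
    have h4 : g (M a i * M b j - M b i * M a j) = -(M a i * M b j - M b i * M a j) := by
      rw [map_sub, map_mul, map_mul, hgi, hgj, hgi, hgj]
      ring
    obtain ⟨k, hk⟩ := h.odd_of_anti hC hx h4
    right
    have hk0 : q ≤ k := by
      by_contra hk1
      have h5 : (2 * k + 1 - 2 * q) * (e : ℤ) < 0 :=
        mul_neg_of_neg_of_pos (by omega) (by exact_mod_cast he)
      nlinarith
    have h6 : 0 ≤ (k - q) * (e : ℤ) := mul_nonneg (by omega) (Int.natCast_nonneg e)
    have h7 : 2 * (m i + m j) + e ≤ 2 * V.v (M a i * M b j - M b i * M a j) := by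
      rw [hk, hq]
      nlinarith
    omega
  have hs : Ge V (2 * M.det) (c + ∑ p, m p) := by
    rw [two_det M hij]
    refine Ge.sum _ _ _ fun σ _ => ?_
    have h1 : Ge V (((Equiv.Perm.sign σ : ℤ) : L)) 0 := ge_intCast hC _
    have h2 := Ge.prod (V := V) ((Finset.univ.erase i).erase j) (fun p => M (σ p) p) m
      (fun p _ => hM _ _)
    have h3 : ∑ p, m p = (m i + m j) + ∑ p ∈ (Finset.univ.erase i).erase j, m p := by
      rw [← Finset.add_sum_erase Finset.univ m (Finset.mem_univ i),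
        ← Finset.add_sum_erase (Finset.univ.erase i) m
          (Finset.mem_erase.2 ⟨hij.symm, Finset.mem_univ j⟩), add_assoc]
    rw [h3, ← add_assoc]
    have h4 := h1.mul ((hr (σ i) (σ j)).mul h2)
    rwa [zero_add] at h4
  have hd : Ge V M.det (c + ∑ p, m p) := by
    have h1 := (ge_const (V := V) hC (1 / 2)).mul hs
    rw [zero_add, ← mul_assoc] at h1
    have h2 : algebraMap ℂ L (1 / 2) * 2 = 1 := by
      have h3 : (2 : L) = algebraMap ℂ L 2 := (map_ofNat (algebraMap ℂ L) 2).symm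
      rw [h3, ← map_mul]
      norm_num
    rwa [h2, one_mul] at h1
  have h5 := hd.le h0
  omega

end PM
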