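import Pool.Agent.Lib.MP_23b606_ag.PM.Chr

/-!
PM/Eg: consequences of `Ine`.

`v_map`: `v_eq_of_ge` for `ζ^k x` and `g x`, constants have value `0`. `of_eigen`: the constant `c - ζ^(V x)`
would have positive value. `dvd_of_pow`: induction on `k`:
`Ge V ((g^k) x - ζ^(k V x) x) (V x + 1)`; then `of_eigen`-argument: `ζ^(k V x) = 1`,
`IsPrimitiveRoot.zpow_eq_one_iff_dvd`. `fix_of_triv`: `g x - x ∈ F` would be of positive value. `one_of_eq`:
`x = V.π`: `ζ = 1`.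
-/

set_option autoImplicit false

open T1 PQ

namespace PM

namespace Ine

variable {L : Type} [Field L] [Algebra ℂ L] {O : ValuationSubring L} {V : NVal O}
  {g : L ≃ₐ[ℂ] L} {e : ℕ} {ζ : ℂ}

private theorem eg_const (h : Ine V g e ζ) (hC : Cst O) {x : L} (hx : x ≠ 0) (k : ℤ) :
    algebraMap ℂ L (ζ ^ k) * x ≠ 0 ∧ V.v (algebraMap ℂ L (ζ ^ k) * x) = V.v x := by
  have h0 : ζ ≠ 0 := h.prim.ne_zero (by have := h.pos; omega)
  have h1 : ζ ^ k ≠ 0 := zpow_ne_zero _ h0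
  have h2 : algebraMap ℂ L (ζ ^ k) ≠ 0 := (map_ne_zero _).2 h1
  refine ⟨mul_ne_zero h2 hx, ?_⟩
  rw [V.mul _ _ h2 hx, v_const V hC h1, zero_add]

private theorem eg_ne (hC : Cst O) {x : L} (hx : x ≠ 0) {c : ℂ}
    (h : Ge V (algebraMap ℂ L c * x) (V.v x + 1)) : c = 0 := by
  by_contra hc
  have h2 : algebraMap ℂ L c ≠ 0 := (map_ne_zero _).2 hc
  have h3 := h.le (mul_ne_zero h2 hx)
  rw [V.mul _ _ h2 hx, v_const V hC hc] at h3
  omega

theorem v_map (h : Ine V g e ζ) (hC : Cst O) {x : L} (hx : x ≠ 0) : V.v (g x) = V.v x := by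
  obtain ⟨h1, h2⟩ := eg_const h hC hx (V.v x)
  have h3 := h.key x hx
  have h4 := v_eq_of_ge (V := V) (x := algebraMap ℂ L (ζ ^ V.v x) * x) (y := g x) h1
    (by rw [h2]; exact h3)
  rw [h4.2, h2]

theorem v_map_pow (h : Ine V g e ζ) (hC : Cst O) (k : ℕ) {x : L} (hx : x ≠ 0) :
    V.v ((g ^ k) x) = V.v x := by
  induction k with
  | zero => simp
  | succ k ih =>
    have h1 : (g ^ (k + 1)) x = g ((g ^ k) x) := by
      rw [pow_succ', AlgEquiv.mul_apply]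
    have h2 : (g ^ k) x ≠ 0 := (map_ne_zero _).2 hx
    rw [h1, v_map h hC h2, ih]

theorem of_eigen (h : Ine V g e ζ) (hC : Cst O) {x : L} (hx : x ≠ 0) {c : ℂ}
    (hc : g x = algebraMap ℂ L c * x) : c = ζ ^ V.v x := by
  have h1 := h.key x hx
  rw [hc, ← sub_mul, ← map_sub] at h1
  exact sub_eq_zero.1 (eg_ne hC hx h1)

theorem key_pow (h : Ine V g e ζ) (hC : Cst O) (k : ℕ) {x : L} (hx : x ≠ 0) :
    Ge V ((g ^ k) x - algebraMap ℂ L (ζ ^ ((k : ℤ) * V.v x)) * x) (V.v x + 1) := by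
  have h0 : ζ ≠ 0 := h.prim.ne_zero (by have := h.pos; omega)
  induction k with
  | zero => simp [Ge.zero]
  | succ k ih =>
    have h1 : (g ^ (k + 1)) x = g ((g ^ k) x) := by
      rw [pow_succ', AlgEquiv.mul_apply]
    have h2 : (g ^ k) x ≠ 0 := (map_ne_zero _).2 hx
    have h3 := h.key _ h2
    rw [v_map_pow h hC k hx] at h3
    have h4 := (ge_const (V := V) hC (ζ ^ V.v x)).mul ih
    rw [zero_add] at h4
    have h5 := h3.add h4
    have h6 : ζ ^ (((k + 1 : ℕ) : ℤ) * V.v x) = ζ ^ V.v x * ζ ^ ((k : ℤ) * V.v x) := by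
      rw [← zpow_add₀ h0]
      congr 1
      push_cast
      ring
    rw [h1, h6, map_mul]
    have h7 : g ((g ^ k) x) - algebraMap ℂ L (ζ ^ V.v x) * (g ^ k) x
        + algebraMap ℂ L (ζ ^ V.v x) * ((g ^ k) x - algebraMap ℂ L (ζ ^ ((k : ℤ) * V.v x)) * x)
        = g ((g ^ k) x) - algebraMap ℂ L (ζ ^ V.v x)
          * algebraMap ℂ L (ζ ^ ((k : ℤ) * V.v x)) * x := by
      ring
    rwa [h7] at h5

theorem dvd_of_pow (h : Ine V g e ζ) (hC : Cst O) (k : ℕ) {x : L} (hx : x ≠ 0)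
    (hk : (g ^ k) x = x) : (e : ℤ) ∣ k * V.v x := by
  have h1 := key_pow h hC k hx
  have h2 : x - algebraMap ℂ L (ζ ^ ((k : ℤ) * V.v x)) * x
      = algebraMap ℂ L (1 - ζ ^ ((k : ℤ) * V.v x)) * x := by
    rw [map_sub, map_one]
    ring
  rw [hk, h2] at h1
  have h3 := eg_ne hC hx h1
  exact (h.prim.zpow_eq_one_iff_dvd _).1 (sub_eq_zero.1 h3).symm

theorem fix_of_triv (h : Ine V g e ζ) (hC : Cst O) (F : IntermediateField ℂ L)
    (hg : ∀ x ∈ F, g x ∈ F) (hF : ∀ x ∈ F, x ≠ 0 → V.v x = 0) (x : L) (hx : x ∈ F) : g x = x := by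
  by_cases hx0 : x = 0
  · rw [hx0, map_zero]
  have h1 := h.key x hx0
  rw [hF x hx hx0, zpow_zero, map_one, one_mul, zero_add] at h1
  by_contra hne
  have h2 : g x - x ≠ 0 := sub_ne_zero.2 hne
  have h3 := h1.le h2
  rw [hF _ (F.sub_mem (hg x hx) hx) h2] at h3
  omega

theorem one_of_eq (h : Ine V g e ζ) (hC : Cst O) (hg : g = 1) : e = 1 := by
  have h1 : (1 : ℂ) = ζ ^ V.v V.π := of_eigen h hC V.hπ (by
    rw [hg, map_one, one_mul]
    rfl)
  rw [V.vπ, zpow_one] at h1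
  have h2 := h.prim.dvd_of_pow_eq_one 1 (by rw [← h1, one_pow])
  exact Nat.dvd_one.1 h2

/-- An element which is invariant, or anti-invariant, and its value modulo `e`. -/
theorem dvd_of_inv (h : Ine V g e ζ) (hC : Cst O) {x : L} (hx : x ≠ 0) (hgx : g x = x) :
    (e : ℤ) ∣ V.v x := by
  have h1 := dvd_of_pow h hC 1 hx (by rw [pow_one]; exact hgx)
  rwa [Nat.cast_one, one_mul] at h1

theorem odd_of_anti (h : Ine V g e ζ) (hC : Cst O) {x : L} (hx : x ≠ 0) (hgx : g x = -x) :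
    ∃ k : ℤ, 2 * V.v x = (2 * k + 1) * e := by
  have h0 : ζ ≠ 0 := h.prim.ne_zero (by have := h.pos; omega)
  have h1 : (-1 : ℂ) = ζ ^ V.v x := of_eigen h hC hx (by
    rw [hgx, map_neg, map_one]
    ring)
  have h2 : ζ ^ (2 * V.v x) = 1 := by
    rw [mul_comm, zpow_mul, ← h1]
    norm_num
  obtain ⟨j, hj⟩ := (h.prim.zpow_eq_one_iff_dvd _).1 h2
  rcases Int.even_or_odd' j with ⟨i, hi | hi⟩
  · exfalso
    have h3 : V.v x = e * i := by
      rw [hi] at hj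
      have h4 : (2 : ℤ) * V.v x = 2 * (e * i) := by rw [hj]; ring
      omega
    have h5 : ζ ^ V.v x = 1 := (h.prim.zpow_eq_one_iff_dvd _).2 ⟨i, h3⟩
    rw [h5] at h1
    norm_num at h1
  · exact ⟨i, by rw [hj, hi]; ring⟩

end Ine

end PM
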