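import Pool.Agent.Lib.MP_23b606_ag.PM.Main

/-! PM/Fin: the final statement. -/

set_option autoImplicit false

open T1 PQ IntermediateField

namespace PM

theorem fin {L : Type} [Field L] [Algebra ℂ L] {n : ℕ} (F : Fin n → IntermediateField ℂ L)
    (hF : CurveProduct F) (G : Subgroup (L ≃ₐ[ℂ] L)) [Finite G]
    (m : ℕ) (R : ∀ i, ValuationSubring (F i) → ℕ) (bl : Fin n → Fin n)
    (hG : Weighted F G m R bl) :
    ((∃ i, Rational (F i)) ∧ Uniruled (fixedField G)) ∨
      ((∀ i, ¬ Rational (F i)) ∧ Plurigenus (fixedField G) n m) := by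
  by_cases hr : ∃ i, Rational (F i)
  · obtain ⟨i, hi⟩ := hr
    have := isAlgebraic_fixed G
    exact Or.inl ⟨⟨i, hi⟩, uniruled_of_rational F hF.tr hF.sup hF.dim i hi (fixedField G)⟩
  · right
    push Not at hr
    obtain ⟨x, g, hx, hg, hO⟩ := main F hF hr G m R bl hG
    refine ⟨hr, x, g, exists_jac_ne_zero x hx, hg, fun O hdiv => ?_⟩
    obtain ⟨a, c, j, ha, hc, hW, hgc⟩ := hO O hdiv
    exact ⟨a, c, j, ha, hc, jac_eq_of_W a x j hW, hgc⟩

end PM
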