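import Pool.Agent.Lib.MP_23b606_ag.PM.Pi
import Pool.Agent.Lib.MP_23b606_ag.PM.Eg
import Pool.Agent.Lib.MP_23b606_ag.PQ.Pl
import Pool.Agent.Lib.MP_23b606_ag.PQ.Res
import Pool.Agent.Lib.MP_23b606_ag.PQ.Sup

/-!
PM/Fp: the fixed point of the generator of the inertia group, for a permutation `σ` with `σ² = 1`: the
centre of `V` on the curves where `V` is not trivial. On a curve `F i` where `V` is trivial `g²` is the
identity; take any place of `F i` and its image under `g` on `F (σ i)`.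
-/

set_option autoImplicit false

open T1 PQ IntermediateField

namespace PM

private theorem fp_sq {L : Type} [Field L] [Algebra ℂ L] {O : ValuationSubring L} {V : NVal O}
    {g : L ≃ₐ[ℂ] L} {e : ℕ} {ζ : ℂ} (hI : Ine V g e ζ) (hC : Cst O)
    (A B : IntermediateField ℂ L) (hAB : ∀ x ∈ A, g x ∈ B) (hBA : ∀ x ∈ B, g x ∈ A)
    (hA : ∀ x ∈ A, x ≠ 0 → V.v x = 0) (x : L) (hx : x ∈ A) : g (g x) = x := by
  by_cases hx0 : x = 0
  · rw [hx0, map_zero, map_zero]
  have hgx0 : g x ≠ 0 := fun h => hx0 ((map_eq_zero g).1 h)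
  have hv := hA x hx hx0
  have hgv := hI.v_map hC hx0
  rw [hv] at hgv
  have h1 := hI.key x hx0
  have h2 := hI.key (g x) hgx0
  rw [hv, zpow_zero, map_one, one_mul, zero_add] at h1
  rw [hgv, zpow_zero, map_one, one_mul, zero_add] at h2
  have h3 := h2.add h1
  have h4 : g (g x) - g x + (g x - x) = g (g x) - x := by ring
  rw [h4] at h3
  by_contra hne
  have h5 := hA _ (A.sub_mem (hBA _ (hAB x hx)) hx) (sub_ne_zero.2 hne)
  have h6 := h3.le (sub_ne_zero.2 hne)
  omega

private theorem fp_div {L : Type} [Field L] [Algebra ℂ L] (A : IntermediateField ℂ L)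
    (hA : Crv A) (M : ValuationSubring L) (hM : Cst M) (u : L) (hu : u ∈ A) (huM : u ∉ M) :
    IsDiv 1 (M.comap (algebraMap A L)) := by
  have hC : Cst (M.comap (algebraMap A L)) := fun c => hM c
  obtain ⟨W⟩ := exists_nval_of_crv hA _ hC (by
    intro h
    apply huM
    have h1 : (⟨u, hu⟩ : A) ∈ M.comap (algebraMap A L) := by
      rw [h]
      exact ValuationSubring.mem_top _
    exact h1)
  exact isDiv_one W hC

theorem exists_fixedPt {L : Type} [Field L] [Algebra ℂ L] {n : ℕ}
    {F : Fin n → IntermediateField ℂ L} (hF : CurveProduct F) {O : ValuationSubring L}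
    {V : NVal O} {g : L ≃ₐ[ℂ] L} {e : ℕ} {ζ : ℂ} (hI : Ine V g e ζ) (hC : Cst O)
    (σ : Equiv.Perm (Fin n)) (hσ : ∀ i x, g x ∈ F (σ i) ↔ x ∈ F i) (h2 : ∀ i, σ (σ i) = i) :
    ∃ P : ∀ i, ValuationSubring (F i), FixedPt F g P ∧
      ∀ i, (∃ x ∈ F i, x ≠ 0 ∧ V.v x ≠ 0) → P i = O.comap (algebraMap (F i) L) := by
  classical
  have hcrv : ∀ i, Crv (F i) := fun i => crv_of_fg (F i) (hF.tr i) (hF.fg i)
  -- any place of `F i`
  have hex : ∀ i, ∃ N : ValuationSubring L, Cst N ∧ ∃ u ∈ F i, u ∉ N := by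
    intro i
    obtain ⟨t, ht⟩ : ∃ t : F i, Transcendental ℂ t := by
      by_contra hcon
      push Not at hcon
      have h1 : Algebra.IsAlgebraic ℂ (F i) := ⟨fun t => by
        have := hcon t
        rwa [Transcendental, not_not] at this⟩
      have h3 : Algebra.trdeg ℂ (F i) = 0 := trdeg_eq_zero
      rw [hF.tr i] at h3
      exact one_ne_zero h3
    have ht' : Transcendental ℂ (t : L) := fun h =>
      ht ((isAlgebraic_algHom_iff (F i).val (F i).val.injective).1 h)
    obtain ⟨N, hN, htN⟩ := exists_not_mem (t : L) ht'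
    exact ⟨N, hN, t, t.2, htN⟩
  choose N hN u hu huN using hex
  let M : Fin n → ValuationSubring L := fun i =>
    if ∃ x ∈ F i, x ≠ 0 ∧ V.v x ≠ 0 then O
    else if i ≤ σ i then N i else (N (σ i)).comap (g : L →+* L)
  have hMC : ∀ i, Cst (M i) := by
    intro i c
    simp only [M]
    split_ifs
    · exact hC c
    · exact hN i c
    · rw [ValuationSubring.mem_comap]
      change g (algebraMap ℂ L c) ∈ N (σ i)
      rw [AlgEquiv.commutes]
      exact hN (σ i) c
  have hMu : ∀ i, ∃ w ∈ F i, w ∉ M i := by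
    intro i
    simp only [M]
    split_ifs with h1 h3
    · obtain ⟨x, hx, hx0, hxv⟩ := h1
      rcases lt_or_gt_of_ne hxv with h4 | h4
      · exact ⟨x, hx, by rw [V.mem x hx0]; omega⟩
      · refine ⟨x⁻¹, (F i).inv_mem hx, ?_⟩
        rw [V.mem _ (inv_ne_zero hx0), V.inv hx0]
        omega
    · exact ⟨u i, hu i, huN i⟩
    · have h4 : g (g.symm (u (σ i))) = u (σ i) := AlgEquiv.apply_symm_apply _ _
      refine ⟨g.symm (u (σ i)), ?_, ?_⟩
      · rw [← hσ, h4]
        exact hu (σ i)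
      · rw [ValuationSubring.mem_comap]
        change g (g.symm (u (σ i))) ∉ N (σ i)
        rw [h4]
        exact huN (σ i)
  have hkey : ∀ i, ∀ x ∈ F i, (x ∈ M i ↔ g x ∈ M (σ i)) := by
    intro i x hx
    have hnt : (∃ x ∈ F (σ i), x ≠ 0 ∧ V.v x ≠ 0) ↔ ∃ x ∈ F i, x ≠ 0 ∧ V.v x ≠ 0 := by
      constructor
      · rintro ⟨y, hy, hy0, hyv⟩
        have h4 : g (g.symm y) = y := AlgEquiv.apply_symm_apply _ _
        have h5 : g.symm y ≠ 0 := fun h => hy0 (by rw [← h4, h, map_zero])
        refine ⟨g.symm y, (hσ i _).1 (by rwa [h4]), h5, ?_⟩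
        rw [← hI.v_map hC h5, h4]
        exact hyv
      · rintro ⟨y, hy, hy0, hyv⟩
        exact ⟨g y, (hσ i y).2 hy, fun h => hy0 ((map_eq_zero g).1 h), by
          rw [hI.v_map hC hy0]
          exact hyv⟩
    by_cases h1 : ∃ x ∈ F i, x ≠ 0 ∧ V.v x ≠ 0
    · simp only [M, hnt, if_pos h1]
      by_cases hx0 : x = 0
      · rw [hx0, map_zero]
      · rw [V.mem x hx0, V.mem _ (fun h => hx0 ((map_eq_zero g).1 h)), hI.v_map hC hx0]
    · have htriv : ∀ x ∈ F i, x ≠ 0 → V.v x = 0 := by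
        intro x hx hx0
        by_contra h
        exact h1 ⟨x, hx, hx0, h⟩
      have hsq := fp_sq hI hC (F i) (F (σ i)) (fun x hx => (hσ i x).2 hx)
        (fun x hx => by
          have h3 := (hσ (σ i) x).2 hx
          rwa [h2] at h3) htriv x hx
      simp only [M, hnt, if_neg h1, h2]
      rcases lt_trichotomy i (σ i) with h3 | h3 | h3
      · rw [if_pos h3.le, if_neg (not_le.2 h3), ValuationSubring.mem_comap]
        change x ∈ N i ↔ g (g x) ∈ N i
        rw [hsq]
      · have hgx : g x = x := by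
          refine hI.fix_of_triv hC (F i) (fun y hy => ?_) htriv x hx
          have h4 := (hσ i y).2 hy
          rwa [← h3] at h4
        rw [← h3, if_pos le_rfl, hgx]
      · rw [if_neg (not_le.2 h3), if_pos h3.le, ValuationSubring.mem_comap]
        exact Iff.rfl
  refine ⟨fun i => (M i).comap (algebraMap (F i) L), ⟨fun i => ?_, fun i j hij => ?_⟩,
    fun i hi => ?_⟩
  · obtain ⟨w, hw, hwM⟩ := hMu i
    exact fp_div (F i) (hcrv i) (M i) (hMC i) w hw hwM
  · have hj : j = σ i := maps_unique F hF g i j (σ i) hij fun x hx => (hσ i x).2 hx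
    subst hj
    intro x y hxy
    rw [ValuationSubring.mem_comap, ValuationSubring.mem_comap]
    change (x : L) ∈ M i ↔ (y : L) ∈ M (σ i)
    rw [← hxy]
    exact hkey i x x.2
  · simp only [M, if_pos hi]

end PM
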