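import Pool.Agent.Lib.MP_23b606_ag.PM.Kl
import Pool.Agent.Lib.MP_23b606_ag.PM.Du
import Pool.Agent.Lib.MP_23b606_ag.PM.Defs
import Pool.Agent.Lib.MP_23b606_ag.PQ.Tr

/-!
PM/Gq: a regular differential on a curve has positive logarithmic order.

`tr_of_jac`: `D t = 0` for algebraic `t`. `log_ge`: `P` is divisorial (`isDiv_one`), so
`z = c j ^ m`, `D a = j D t` for all `D` (`jac` for `Fin 1` is `D 0 (a 0)`), `a, c ∈ P`. `s = t - c₀`, `V s ≠ 0`,
`D` = the derivation with `D t = s` (`exists_dual` for `t`, multiplied by `s`). It maps `ℂ(t)` to itself, and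
`Ge V (D x) (V x)` for `x ∈ ℂ(t)`: this holds for constants and for all `t - c`, and for products and inverses.
`log_ext` with `k = ℂ(t)` (`hk.fin`): `Ge V (D y) (V y)` for all `y`.
`exists_residue` (`PQ/Tr.lean`): `a 0 - c₁` is `0` or of positive value, so `Ge V (D (a 0)) 1`;
`j s = j D t = D (a 0)`, so `Ge V j (1 - V s)`, `z = c j ^ m`.
-/

set_option autoImplicit false

open T1 PQ

open scoped IntermediateField

namespace PM

private theorem gq_jac {k : Type} [Field k] [Algebra ℂ k] (D : Fin 1 → Derivation ℂ k k)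
    (a : Fin 1 → k) : jac D a = D 0 (a 0) := by
  unfold jac
  rw [Matrix.det_fin_one]
  rfl

theorem tr_of_jac {k : Type} [Field k] [Algebra ℂ k] (t : Fin 1 → k) (h : ∃ D, jac D t ≠ 0) :
    Transcendental ℂ (t 0) := by
  obtain ⟨D, hD⟩ := h
  rw [gq_jac] at hD
  intro halg
  obtain ⟨c, hc⟩ : ∃ c : ℂ, t 0 = algebraMap ℂ k c := by
    have h1 : t 0 ∈ (⊥ : Subalgebra ℂ k) := by
      have h2 := minpoly.mem_range_of_degree_eq_one ℂ (t 0)
        (IsAlgClosed.degree_eq_one_of_irreducible ℂ (minpoly.irreducible halg.isIntegral))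
      exact Algebra.mem_bot.2 h2
    obtain ⟨c, hc⟩ := Algebra.mem_bot.1 h1
    exact ⟨c, hc.symm⟩
  exact hD (by rw [hc, Derivation.map_algebraMap])

section lin

variable {k : Type} [Field k] [Algebra ℂ k] {P : ValuationSubring k} (V : NVal P)
  (D : Derivation ℂ k k)

/-- The derivation does not lower the value of `x`. -/
private def Good (x : k) : Prop := x ≠ 0 ∧ Ge V (D x) (V.v x)

variable {V D}

private theorem Good.mul {x y : k} (hx : Good V D x) (hy : Good V D y) : Good V D (x * y) := by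
  refine ⟨mul_ne_zero hx.1 hy.1, ?_⟩
  rw [Derivation.leibniz, V.mul _ _ hx.1 hy.1, smul_eq_mul, smul_eq_mul]
  refine Ge.add ((Ge.self V x).mul hy.2) ?_
  rw [add_comm (V.v x)]
  exact (Ge.self V y).mul hx.2

private theorem Good.inv {x : k} (hx : Good V D x) : Good V D x⁻¹ := by
  refine ⟨inv_ne_zero hx.1, ?_⟩
  have h1 : D x⁻¹ = -(x⁻¹ * x⁻¹ * D x) := by
    have h2 : D (x * x⁻¹) = 0 := by
      rw [mul_inv_cancel₀ hx.1, Derivation.map_one_eq_zero]
    rw [Derivation.leibniz, smul_eq_mul, smul_eq_mul] at h2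
    have h3 := hx.1
    field_simp
    field_simp at h2
    linear_combination h2
  rw [h1]
  refine Ge.neg ?_
  have h2 := ((Ge.self V x⁻¹).mul (Ge.self V x⁻¹)).mul hx.2
  refine h2.mono ?_
  rw [V.inv hx.1]
  omega

private theorem good_const (hC : Cst P) {c : ℂ} (hc : c ≠ 0) : Good V D (algebraMap ℂ k c) := by
  refine ⟨(map_ne_zero _).2 hc, ?_⟩
  rw [Derivation.map_algebraMap]
  exact Ge.zero V _

private theorem good_poly (hC : Cst P) (t : k) (ht : ∀ c : ℂ, Good V D (t - algebraMap ℂ k c)) :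
    ∀ (n : ℕ) (p : Polynomial ℂ), p.natDegree ≤ n → p ≠ 0 → Good V D (Polynomial.aeval t p) := by
  have hconst : ∀ c : ℂ, c ≠ 0 → Good V D (Polynomial.aeval t (Polynomial.C c)) := by
    intro c hc
    rw [Polynomial.aeval_C]
    exact good_const hC hc
  intro n
  induction n with
  | zero =>
    intro p hp hp0
    have h1 := Polynomial.eq_C_of_natDegree_le_zero hp
    rw [h1]
    refine hconst _ fun h => hp0 ?_
    rw [h1, h, Polynomial.C_0]
  | succ n ih =>
    intro p hp hp0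
    by_cases hd : p.degree = 0
    · have h1 := Polynomial.eq_C_of_degree_eq_zero hd
      rw [h1]
      refine hconst _ fun h => hp0 ?_
      rw [h1, h, Polynomial.C_0]
    · obtain ⟨r, hr⟩ := IsAlgClosed.exists_root p hd
      obtain ⟨q, hq⟩ := Polynomial.dvd_iff_isRoot.2 hr
      have hq0 : q ≠ 0 := by
        rintro rfl
        exact hp0 (by rw [hq, mul_zero])
      have hdeg : p.natDegree = 1 + q.natDegree := by
        rw [hq, Polynomial.natDegree_mul (Polynomial.X_sub_C_ne_zero r) hq0,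
          Polynomial.natDegree_X_sub_C]
      have h3 : Polynomial.aeval t p = (t - algebraMap ℂ k r) * Polynomial.aeval t q := by
        rw [hq, map_mul, map_sub, Polynomial.aeval_X, Polynomial.aeval_C]
      rw [h3]
      exact (ht r).mul (ih q (by omega) hq0)

private theorem good_adj (hC : Cst P) (t : k) (ht : ∀ c : ℂ, Good V D (t - algebraMap ℂ k c))
    (x : k) (hx : x ∈ ℂ⟮t⟯) (hx0 : x ≠ 0) : Good V D x := by
  obtain ⟨r, s, hrs⟩ := (IntermediateField.mem_adjoin_simple_iff ℂ x).1 hx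
  have hr : r ≠ 0 := by
    rintro rfl
    rw [map_zero, zero_div] at hrs
    exact hx0 hrs
  have hs : s ≠ 0 := by
    rintro rfl
    rw [map_zero, div_zero] at hrs
    exact hx0 hrs
  rw [hrs, div_eq_mul_inv]
  exact (good_poly hC t ht _ r le_rfl hr).mul (good_poly hC t ht _ s le_rfl hs).inv

end lin

private theorem gq_maps {k : Type} [Field k] [Algebra ℂ k] (D : Derivation ℂ k k) (t : k)
    (ht : D t ∈ ℂ⟮t⟯) (x : k) (hx : x ∈ ℂ⟮t⟯) : D x ∈ ℂ⟮t⟯ := by
  induction hx using IntermediateField.adjoin_induction with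
  | mem x hx =>
    rw [Set.mem_singleton_iff] at hx
    rw [hx]
    exact ht
  | algebraMap c =>
    rw [Derivation.map_algebraMap]
    exact ℂ⟮t⟯.zero_mem
  | add x y _ _ hx hy =>
    rw [map_add]
    exact ℂ⟮t⟯.add_mem hx hy
  | mul x y hx0 hy0 hx hy =>
    rw [Derivation.leibniz, smul_eq_mul, smul_eq_mul]
    exact ℂ⟮t⟯.add_mem (ℂ⟮t⟯.mul_mem hx0 hy) (ℂ⟮t⟯.mul_mem hy0 hx)
  | inv x hx0 hx =>
    by_cases h0 : x = 0
    · rw [h0, inv_zero, map_zero]
      exact ℂ⟮t⟯.zero_mem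
    have h1 : D x⁻¹ = -(x⁻¹ * x⁻¹ * D x) := by
      have h2 : D (x * x⁻¹) = 0 := by
        rw [mul_inv_cancel₀ h0, Derivation.map_one_eq_zero]
      rw [Derivation.leibniz, smul_eq_mul, smul_eq_mul] at h2
      field_simp
      field_simp at h2
      linear_combination h2
    rw [h1]
    exact ℂ⟮t⟯.neg_mem (ℂ⟮t⟯.mul_mem (ℂ⟮t⟯.mul_mem (ℂ⟮t⟯.inv_mem hx0) (ℂ⟮t⟯.inv_mem hx0)) hx)

theorem log_ge {k : Type} [Field k] [Algebra ℂ k] (hk : Crv k) (t : Fin 1 → k)
    (ht : Transcendental ℂ (t 0)) {P : ValuationSubring k} (V : NVal P) (hC : Cst P) (m : ℕ) (z : k)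
    (hz : RegularAt P t m z) (c : ℂ) (hc : V.v (t 0 - algebraMap ℂ k c) ≠ 0) :
    Ge V z (m * (1 - V.v (t 0 - algebraMap ℂ k c))) := by
  obtain ⟨a, b, j, ha, hb, haj, hz⟩ := hz
  have hai : AlgebraicIndependent ℂ t := by
    rw [algebraicIndependent_unique_type_iff]
    exact ht
  obtain ⟨E, hE⟩ := exists_dual t hai
  obtain ⟨s, hs⟩ : ∃ s, s = t 0 - algebraMap ℂ k c := ⟨_, rfl⟩
  rw [← hs] at hc ⊢
  have hne : ∀ c' : ℂ, t 0 - algebraMap ℂ k c' ≠ 0 := by
    intro c' h0
    rw [sub_eq_zero] at h0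
    exact ht (h0 ▸ isAlgebraic_algebraMap c')
  have hs0 : s ≠ 0 := by
    rw [hs]
    exact hne c
  obtain ⟨D, hD⟩ : ∃ D : Derivation ℂ k k, D = s • E 0 := ⟨_, rfl⟩
  have hDt : D (t 0) = s := by
    rw [hD, Derivation.smul_apply, hE, if_pos rfl, smul_eq_mul, mul_one]
  have hgood : ∀ c' : ℂ, Good V D (t 0 - algebraMap ℂ k c') := by
    intro c'
    refine ⟨hne c', ?_⟩
    rw [map_sub, hDt, Derivation.map_algebraMap, sub_zero]
    right
    by_cases hcc : c' = c
    · rw [hcc, ← hs]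
    rcases lt_or_gt_of_ne hc with h1 | h1
    · have h2 := (v_sub_of_neg V hC hs0 h1 (c' - c)).2
      have h3 : s - algebraMap ℂ k (c' - c) = t 0 - algebraMap ℂ k c' := by
        rw [hs, map_sub]
        ring
      rw [h3] at h2
      exact h2.le
    · rw [hs] at h1
      have h2 := (v_sub_of_pos V hC hcc (Or.inr h1)).2
      rw [h2, hs]
      exact h1.le
  have ht1 : t 0 ∈ ℂ⟮t 0⟯ := IntermediateField.mem_adjoin_simple_self ℂ (t 0)
  have hs1 : s ∈ ℂ⟮t 0⟯ := by
    rw [hs]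
    exact ℂ⟮t 0⟯.sub_mem ht1 (ℂ⟮t 0⟯.algebraMap_mem c)
  haveI : FiniteDimensional ℂ⟮t 0⟯ k := hk.fin (t 0) ht
  have hlog : ∀ y : k, y ≠ 0 → Ge V (D y) (V.v y) := fun y hy =>
    log_ext ℂ⟮t 0⟯ V hC s hs1 hs0 hc D (gq_maps D (t 0) (by rw [hDt]; exact hs1))
      (fun x hx hx0 => (good_adj hC (t 0) hgood x hx hx0).2) y hy
  have hDa : Ge V (D (a 0)) 1 := by
    obtain ⟨c₁, hc₁⟩ := exists_residue hk V hC (a 0) (ha 0)
    have h1 : D (a 0) = D (a 0 - algebraMap ℂ k c₁) := by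
      rw [map_sub, Derivation.map_algebraMap, sub_zero]
    rw [h1]
    by_cases h0 : a 0 - algebraMap ℂ k c₁ = 0
    · rw [h0, map_zero]
      exact Ge.zero V _
    · exact (hlog _ h0).mono (by have := hc₁.resolve_left h0; omega)
  have hjs : D (a 0) = j * s := by
    have h1 := haj fun _ => D
    rw [gq_jac, gq_jac, hDt] at h1
    exact h1
  have hj : Ge V j (1 - V.v s) := by
    by_cases hj0 : j = 0
    · exact Or.inl hj0
    right
    rw [hjs] at hDa
    have h3 := hDa.le (mul_ne_zero hj0 hs0)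
    rw [V.mul _ _ hj0 hs0] at h3
    omega
  have hjm : ∀ m : ℕ, Ge V (j ^ m) (m * (1 - V.v s)) := by
    intro m
    induction m with
    | zero =>
      rw [pow_zero, Nat.cast_zero, zero_mul]
      exact Or.inr (by rw [V.one])
    | succ m ih =>
      rw [pow_succ, Nat.cast_succ, add_mul, one_mul]
      exact ih.mul hj
  rw [hz]
  have h4 := (ge_of_mem (V := V) hb).mul (hjm m)
  rwa [zero_add] at h4

end PM
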