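import Pool.Agent.Lib.MP_23b606_ag.PM.Defs
import Pool.Agent.Lib.MP_23b606_ag.PM.Gq
import Pool.Agent.Lib.MP_23b606_ag.PQ.LocF

/-!
PM/Wl: the forms on the quotient of a curve with given weights of the points.

Case (1) of `Weights`: the form of `exists_frm` (weight `2`), to the power `m / 12`. Case (2): `log_ge` on the
quotient. Case (3): `h = ∏ (x - c)^(-w c)`, `z a = x ^ a`. Case (4): `log_ge` on the curve.
-/

set_option autoImplicit false

open T1 PQ

open scoped IntermediateField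

namespace PM

/-- The forms `h (z a) ^ m dt ^ m` on the curve of `k` are regular on the curve of `F`, and have
logarithmic order at least `R P` at the point `P` of the curve of `F`. -/
structure Frl {F : Type} [Field F] [Algebra ℂ F] (k : IntermediateField ℂ F) (m b : ℕ)
    (R : ValuationSubring F → ℕ) (t h : F) (z : ℕ → F) : Prop where
  t_mem : t ∈ k
  h_mem : h ∈ k
  z_mem : ∀ a, z a ∈ k
  tr : Transcendental ℂ t
  ne : h ≠ 0
  li : LinearIndependent ℂ fun a : Fin b => z a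
  up : ∀ (P : ValuationSubring F) (V : NVal P), Cst P → ∀ c : ℂ, At V t c → ∀ a, a < b →
    (m : ℤ) ≤ V.v h + m * V.v (z a) + m * V.v (t - algebraMap ℂ F c) ∧
      (R P : ℤ) ≤ V.v h + m * V.v (z a) + m * V.v (t - algebraMap ℂ F c)

/-- The ramification index and the values on `k`. -/
theorem Ram.le {F : Type} [Field F] [Algebra ℂ F] {k : IntermediateField ℂ F}
    {P : ValuationSubring F} {e : ℕ} (h : Ram k P e) (V : NVal P) {x : F} (hx : x ∈ k)
    (hx0 : x ≠ 0) (hv : 0 < V.v x) : (e : ℤ) ≤ V.v x := by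
  obtain ⟨y, hy, h⟩ := h
  have h1 := h x hx ((valuation_lt_one_iff V hx0).2 hv)
  by_cases he : e = 0
  · rw [he]
    exact_mod_cast hv.le
  have hy0 : y ≠ 0 := by
    rintro rfl
    rw [map_zero, zero_pow he, le_zero_iff, map_eq_zero] at h1
    exact hx0 h1
  have h2 : 1 ≤ V.v y := (valuation_lt_one_iff V hy0).1 hy
  have h3 := (valuation_le_iff V hx0 (pow_ne_zero e hy0)).1 (by
    rw [map_pow]
    exact h1)
  rw [v_pow V hy0] at h3
  have h4 : (0 : ℤ) ≤ e := Int.natCast_nonneg e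
  nlinarith

/-- the logarithmic order of the form at a ramified point -/
private theorem frm_ram {F : Type} [Field F] [Algebra ℂ F] {k : IntermediateField ℂ F} {r : ℕ}
    {t h : F} (H : Frm k r t h) (P : ValuationSubring F) (V : NVal P) (hC : Cst P) (c : ℂ)
    (hc : At V t c) (e : ℕ) (he : Ram k P e) :
    (r : ℤ) * e ≤ V.v h + 12 * V.v (t - algebraMap ℂ F c) := by
  have ht0 : ∀ c : ℂ, t - algebraMap ℂ F c ≠ 0 := by
    intro c h0
    apply H.tr
    rw [sub_eq_zero.1 h0]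
    exact isAlgebraic_algebraMap c
  let t' : k := ⟨t, H.t_mem⟩
  have htc : algebraMap k F (t' - algebraMap ℂ k c) = t - algebraMap ℂ F c := rfl
  have ht'0 : t' - algebraMap ℂ k c ≠ 0 := fun h0 => ht0 c (congrArg Subtype.val h0)
  obtain ⟨W, a, ha, hW⟩ := exists_res (algebraMap k F) V (t' - algebraMap ℂ k c) ht'0 hc
  have h2 := hW _ ht'0
  rw [htc] at h2
  have hh0 : (⟨h, H.h_mem⟩ : k) ≠ 0 := fun h0 => H.ne (congrArg Subtype.val h0)
  have h3 := hW _ hh0
  have h3' : V.v h = a * W.v (⟨h, H.h_mem⟩ : k) := h3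
  have hAt : At W t' c := by
    intro h0
    apply hc
    rw [h2, h0, mul_zero]
  have h4 := H.down _ W (fun c' => hC c') c hAt
  have h5 : (e : ℤ) ≤ a := by
    have h6 := hW _ W.hπ
    rw [W.vπ, mul_one] at h6
    have h7 : algebraMap k F W.π ≠ 0 := (map_ne_zero _).2 W.hπ
    have h8 := he.le V (x := algebraMap k F W.π) W.π.2 h7 (by rw [h6]; omega)
    rwa [h6] at h8
  rw [h2, h3']
  have h10 : (0 : ℤ) ≤ r := Int.natCast_nonneg r
  have h11 : (r : ℤ) * e ≤ a * r := by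
    rw [mul_comm a]
    exact mul_le_mul_of_nonneg_left h5 h10
  have h13 : a * r ≤ a * (W.v (⟨h, H.h_mem⟩ : k) + 12 * W.v (t' - algebraMap ℂ k c)) :=
    mul_le_mul_of_nonneg_left h4 (by omega)
  linarith

private theorem frl_of_frm {F : Type} [Field F] [Algebra ℂ F] {k : IntermediateField ℂ F}
    {R : ValuationSubring F → ℕ} {m : ℕ} (hm : 12 ∣ m)
    (hR : ∀ P, IsDiv 1 P → R P ≤ m ∨ ∃ e, Ram k P e ∧ 6 * R P ≤ m * e) {t h : F}
    (H : Frm k 2 t h) : Frl k m 1 R t (h ^ (m / 12)) fun _ => 1 := by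
  obtain ⟨q, rfl⟩ := hm
  have hq : 12 * q / 12 = q := Nat.mul_div_cancel_left q (by norm_num)
  rw [hq]
  refine ⟨H.t_mem, pow_mem H.h_mem q, fun _ => one_mem k, H.tr, pow_ne_zero _ H.ne,
    LinearIndependent.of_subsingleton (0 : Fin 1) one_ne_zero, fun P V hC c hc a _ => ?_⟩
  rw [v_pow V H.ne, V.one]
  have h12 := H.up P V hC c hc
  have hq0 : (0 : ℤ) ≤ q := Int.natCast_nonneg q
  have h1 : (q : ℤ) * V.v h + ((12 * q : ℕ) : ℤ) * 0 +
      ((12 * q : ℕ) : ℤ) * V.v (t - algebraMap ℂ F c) =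
      q * (V.v h + 12 * V.v (t - algebraMap ℂ F c)) := by
    push_cast
    ring
  rw [h1]
  have h2 : ((12 * q : ℕ) : ℤ) ≤ q * (V.v h + 12 * V.v (t - algebraMap ℂ F c)) := by
    push_cast
    nlinarith
  refine ⟨h2, ?_⟩
  rcases hR P (isDiv_one V hC) with h3 | ⟨e, he, h3⟩
  · exact le_trans (by exact_mod_cast h3) h2
  · have h4 := frm_ram H P V hC c hc e he
    have h5 : (6 : ℤ) * R P ≤ 12 * q * e := by exact_mod_cast h3
    have h6 : (q : ℤ) * (2 * e) ≤ q * (V.v h + 12 * V.v (t - algebraMap ℂ F c)) :=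
      mul_le_mul_of_nonneg_left (by exact_mod_cast h4) hq0
    linarith


private theorem frl_of_genus {F : Type} [Field F] [Algebra ℂ F] (hF : Crv F)
    (k : IntermediateField ℂ F) [Algebra.IsAlgebraic k F] (m b : ℕ) (R : ValuationSubring F → ℕ)
    (hb : GenusGE k b) (hR : ∀ P, IsDiv 1 P → ∃ e, Ram k P e ∧ R P ≤ m * e) :
    ∃ (t h : F) (z : ℕ → F), Frl k m b R t h z := by
  classical
  obtain ⟨t, z, hD, hli, hreg⟩ := hb
  have hck : Crv k := crv_sub hF k
  have htr0 : Transcendental ℂ (t 0) := tr_of_jac t hD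
  have htr : Transcendental ℂ (t 0 : F) :=
    (transcendental_algebraMap_iff (algebraMap k F).injective).2 htr0
  refine ⟨(t 0 : F), 1, fun a => if ha : a < b then (z ⟨a, ha⟩ : F) else 0, ?_⟩
  refine
    { t_mem := (t 0).2
      h_mem := one_mem k
      z_mem := ?_
      tr := htr
      ne := one_ne_zero
      li := ?_
      up := ?_ }
  · intro a
    split_ifs with ha
    · exact (z ⟨a, ha⟩).2
    · exact zero_mem k
  · have h1 := hli.map' k.val.toLinearMap (LinearMap.ker_eq_bot.2 k.val.injective)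
    have h2 : (fun a : Fin b => if ha : (a : ℕ) < b then (z ⟨a, ha⟩ : F) else 0)
        = k.val.toLinearMap ∘ z := by
      funext a
      simp only [a.2, dite_true, Function.comp]
      rfl
    rw [h2]
    exact h1
  · intro P V hC c hc a ha
    simp only [ha, dite_true]
    have hne : t 0 - algebraMap ℂ k c ≠ 0 := by
      intro h1
      apply htr0
      rw [sub_eq_zero.1 h1]
      exact isAlgebraic_algebraMap c
    obtain ⟨W, d, hd, hW⟩ := exists_res (algebraMap k F) V _ hne hc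
    have hCW : Cst (P.comap (algebraMap k F)) := fun c => hC c
    have hc1 : V.v ((t 0 : F) - algebraMap ℂ F c) = d * W.v (t 0 - algebraMap ℂ k c) :=
      hW _ hne
    have hWc : W.v (t 0 - algebraMap ℂ k c) ≠ 0 := by
      intro h1
      rw [h1, mul_zero] at hc1
      exact hc hc1
    have h1 := log_ge hck t htr0 W hCW 1 (z ⟨a, ha⟩)
      (hreg ⟨a, ha⟩ (P.comap (algebraMap k F)) (isDiv_one W hCW)) c hWc
    have hz : z ⟨a, ha⟩ ≠ 0 := hli.ne_zero _
    have h2 := h1.le hz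
    rw [Nat.cast_one, one_mul] at h2
    have h3 : V.v (z ⟨a, ha⟩ : F) = d * W.v (z ⟨a, ha⟩) := hW _ hz
    have h4 : d ≤ V.v (z ⟨a, ha⟩ : F) + V.v ((t 0 : F) - algebraMap ℂ F c) := by
      rw [h3, hc1]
      nlinarith
    have hm0 : (0 : ℤ) ≤ m := Int.natCast_nonneg m
    have h5 : (m : ℤ) * d ≤ m * (V.v (z ⟨a, ha⟩ : F) + V.v ((t 0 : F) - algebraMap ℂ F c)) :=
      mul_le_mul_of_nonneg_left h4 hm0
    rw [V.one]
    obtain ⟨e, he, h6⟩ := hR P (isDiv_one V hC)
    have h7 : (e : ℤ) ≤ d := by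
      have h7 := hW _ W.hπ
      rw [W.vπ, mul_one] at h7
      have h8 : algebraMap k F W.π ≠ 0 := (map_ne_zero _).2 W.hπ
      have h9 := he.le V (x := algebraMap k F W.π) W.π.2 h8 (by rw [h7]; omega)
      rwa [h7] at h9
    have h8 : (R P : ℤ) ≤ m * e := by exact_mod_cast h6
    have h9 : (m : ℤ) * e ≤ m * d := mul_le_mul_of_nonneg_left h7 hm0
    have h10 : (m : ℤ) * 1 ≤ m * d := mul_le_mul_of_nonneg_left (by omega) hm0
    constructor <;> linarith

private theorem frl_of_w {F : Type} [Field F] [Algebra ℂ F] (x : F) (hx : Transcendental ℂ x)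
    (m b : ℕ) (hm : 0 < m) (R : ValuationSubring F → ℕ) (w : ℂ →₀ ℕ)
    (hs : (w.sum fun _ j => j) = (b + 1) * m)
    (h : ∀ P : ValuationSubring F, IsDiv 1 P → ∃ e, Ram ℂ⟮x⟯ P e ∧ ((x ∉ P ∧ R P ≤ m * e) ∨
      ∃ c : ℂ, P.valuation (x - algebraMap ℂ F c) < 1 ∧ m ≤ e * (m - w c) ∧
        R P ≤ e * (m - w c))) :
    ∃ y : F, Frl ℂ⟮x⟯ m b R x y fun a => x ^ a := by
  classical
  have hx0 : ∀ c : ℂ, x - algebraMap ℂ F c ≠ 0 := by
    intro c h0
    apply hx
    rw [sub_eq_zero.1 h0]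
    exact isAlgebraic_algebraMap c
  have hx1 : x ≠ 0 := by
    have := hx0 0
    rwa [map_zero, sub_zero] at this
  have hxm : x ∈ ℂ⟮x⟯ := IntermediateField.mem_adjoin_simple_self ℂ x
  have hym : (∏ c ∈ w.support, (x - algebraMap ℂ F c) ^ (-(w c : ℤ))) ∈ ℂ⟮x⟯ :=
    prod_mem fun c _ => zpow_mem (sub_mem hxm (ℂ⟮x⟯.algebraMap_mem c)) _
  refine ⟨∏ c ∈ w.support, (x - algebraMap ℂ F c) ^ (-(w c : ℤ)), hxm, hym,
    fun a => pow_mem hxm a, hx, Finset.prod_ne_zero_iff.2 fun c _ => zpow_ne_zero _ (hx0 c), ?_, ?_⟩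
  · have h1 : LinearIndependent ℂ fun a : ℕ => x ^ a := by
      have h2 : Function.Injective (Polynomial.aeval (R := ℂ) x) :=
        transcendental_iff_injective.1 hx
      have h3 := (Polynomial.basisMonomials ℂ).linearIndependent.map'
        (Polynomial.aeval (R := ℂ) x).toLinearMap (LinearMap.ker_eq_bot.2 h2)
      have h4 : (fun a : ℕ => x ^ a) = (Polynomial.aeval (R := ℂ) x).toLinearMap ∘
          (Polynomial.basisMonomials ℂ) := by
        funext a
        simp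
      rw [h4]
      exact h3
    exact h1.comp (fun a : Fin b => (a : ℕ)) Fin.val_injective
  intro P V hC c hc a ha
  have hc' : V.v (x - algebraMap ℂ F c) ≠ 0 := hc
  have h1 := v_prod_sub_neg V hC x hx0 one_ne_zero w.support (fun c => -(w c : ℤ))
  have h2 := fun c => v_prod_sub_pos V hC x hx0 one_ne_zero w.support (fun c => -(w c : ℤ))
    (c := c)
  simp only [map_one, one_mul] at h1 h2
  have hsum : (∑ c ∈ w.support, (w c : ℤ)) = ((b : ℤ) + 1) * m := by
    have h3 : (∑ c ∈ w.support, w c) = (b + 1) * m := hs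
    exact_mod_cast h3
  have hm0 : (0 : ℤ) ≤ m := Int.natCast_nonneg m
  rw [v_pow V hx1]
  obtain ⟨e, he, ⟨hxP, hR⟩ | ⟨c₀, hc₀, h12, hR⟩⟩ := h P (isDiv_one V hC)
  · have h3 : V.v x < 0 := by
      by_contra h0
      exact hxP ((V.mem x hx1).2 (not_lt.1 h0))
    have h4 := (v_sub_of_neg V hC hx1 h3 c).2
    rw [h1 h3, h4, Finset.sum_neg_distrib, hsum]
    have h5 := he.le V (x := x⁻¹) (ℂ⟮x⟯.inv_mem hxm) (inv_ne_zero hx1) (by
      rw [V.inv hx1]
      omega)
    rw [V.inv hx1] at h5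
    have h6 : (R P : ℤ) ≤ m * e := by exact_mod_cast hR
    have h7 : (a : ℤ) + 1 ≤ b := by exact_mod_cast ha
    have h8 : 0 ≤ ((b : ℤ) - (a + 1)) * (m * -V.v x) :=
      mul_nonneg (by linarith) (mul_nonneg hm0 (by omega))
    have h9 : (m : ℤ) * e ≤ m * -V.v x := mul_le_mul_of_nonneg_left h5 hm0
    have h10 : (m : ℤ) * 1 ≤ m * -V.v x := mul_le_mul_of_nonneg_left (by omega) hm0
    have h11 : -(((b : ℤ) + 1) * m) * V.v x + m * (a * V.v x) + m * V.v x =
        ((b : ℤ) - (a + 1)) * (m * -V.v x) + m * -V.v x := by ring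
    constructor <;> linarith
  · have h3 : 0 < V.v (x - algebraMap ℂ F c₀) := (valuation_lt_one_iff V (hx0 c₀)).1 hc₀
    have h4 : c = c₀ := by
      by_contra hne
      exact hc' (v_sub_of_pos V hC hne (Or.inr h3)).2
    subst h4
    have h5 := he.le V (sub_mem hxm (ℂ⟮x⟯.algebraMap_mem c)) (hx0 c) h3
    have h6 : (if c ∈ w.support then -(w c : ℤ) else 0) = -(w c : ℤ) := by
      split_ifs with h7
      · rfl
      · rw [Finsupp.notMem_support_iff.1 h7]
        rfl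
    have hxv : 0 ≤ V.v x := by
      have h7 : Ge V (x - algebraMap ℂ F c + algebraMap ℂ F c) 0 :=
        Ge.add (Or.inr h3.le) (ge_const hC c)
      rw [sub_add_cancel] at h7
      exact h7.le hx1
    rw [h2 c h3, h6]
    have hw12 : w c ≤ m := by
      by_contra h7
      have h8 : m - w c = 0 := by omega
      rw [h8, mul_zero] at h12
      omega
    have h7 : (m : ℤ) ≤ e * (m - (w c : ℤ)) := by
      have h8 : (m : ℤ) ≤ ((e * (m - w c) : ℕ) : ℤ) := by exact_mod_cast h12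
      push_cast [hw12] at h8
      exact h8
    have h8 : (R P : ℤ) ≤ e * (m - (w c : ℤ)) := by
      have h9 : (R P : ℤ) ≤ ((e * (m - w c) : ℕ) : ℤ) := by exact_mod_cast hR
      push_cast [hw12] at h9
      exact h9
    have h9 : (0 : ℤ) ≤ m - (w c : ℤ) := by
      have : (w c : ℤ) ≤ m := by exact_mod_cast hw12
      linarith
    have h10 : (e : ℤ) * (m - (w c : ℤ)) ≤ V.v (x - algebraMap ℂ F c) * (m - (w c : ℤ)) :=
      mul_le_mul_of_nonneg_right h5 h9
    have h11 : (0 : ℤ) ≤ m * (a * V.v x) :=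
      mul_nonneg hm0 (mul_nonneg (Int.natCast_nonneg a) hxv)
    constructor <;> linarith

private theorem frl_of_van {F : Type} [Field F] [Algebra ℂ F] (hF : Crv F)
    (k : IntermediateField ℂ F) (m b : ℕ) (R : ValuationSubring F → ℕ) (t h : F) (z : Fin b → F)
    (ht : t ∈ k) (hh : h ∈ k) (hz : ∀ a, z a ∈ k) (htr : Transcendental ℂ t) (h0 : h ≠ 0)
    (hli : LinearIndependent ℂ z)
    (hv : ∀ a P, IsDiv 1 P → VanAt P t m (h * z a ^ m) (R P - m)) :
    Frl k m b R t h fun a => if ha : a < b then z ⟨a, ha⟩ else 0 := by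
  refine ⟨ht, hh, ?_, htr, h0, ?_, ?_⟩
  · intro a
    split_ifs with ha
    · exact hz _
    · exact zero_mem k
  · have h2 : (fun a : Fin b => if ha : (a : ℕ) < b then z ⟨a, ha⟩ else 0) = z := by
      funext a
      simp only [a.2, dite_true]
    rw [h2]
    exact hli
  · intro P V hC c hc a ha
    simp only [ha, dite_true]
    obtain ⟨y, hy0, hy, hreg⟩ := hv ⟨a, ha⟩ P (isDiv_one V hC)
    have hz0 : z ⟨a, ha⟩ ≠ 0 := hli.ne_zero _
    have h1 := log_ge hF (fun _ : Fin 1 => t) htr V hC m _ hreg c hc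
    have h2 : h * z ⟨a, ha⟩ ^ m / y ^ (R P - m) ≠ 0 :=
      div_ne_zero (mul_ne_zero h0 (pow_ne_zero _ hz0)) (pow_ne_zero _ hy0)
    have h3 := h1.le h2
    have h4 : h * z ⟨a, ha⟩ ^ m / y ^ (R P - m) * y ^ (R P - m) = h * z ⟨a, ha⟩ ^ m :=
      div_mul_cancel₀ _ (pow_ne_zero _ hy0)
    have h5 := congrArg V.v h4
    rw [V.mul _ _ h2 (pow_ne_zero _ hy0), v_pow V hy0, V.mul _ _ h0 (pow_ne_zero _ hz0),
      v_pow V hz0] at h5
    have h6 : 1 ≤ V.v y := (valuation_lt_one_iff V hy0).1 hy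
    have h7 : ((R P - m : ℕ) : ℤ) * 1 ≤ ((R P - m : ℕ) : ℤ) * V.v y :=
      mul_le_mul_of_nonneg_left h6 (Int.natCast_nonneg _)
    have h8 : (R P : ℤ) - m ≤ ((R P - m : ℕ) : ℤ) := by omega
    have h9 : (0 : ℤ) ≤ ((R P - m : ℕ) : ℤ) := Int.natCast_nonneg _
    have h10 : (m : ℤ) * (1 - V.v (t - algebraMap ℂ F c)) =
        m - m * V.v (t - algebraMap ℂ F c) := by ring
    rw [h10] at h3
    constructor <;> linarith

theorem exists_frl {F : Type} [Field F] [Algebra ℂ F] (hF : Crv F) (hrat : ¬ Rational F)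
    {Γ : Type} [Group Γ] [Finite Γ] (φ : Γ →* (F ≃ₐ[ℂ] F)) (k : IntermediateField ℂ F)
    (hk : ∀ y : F, y ∈ k ↔ ∀ γ, φ γ y = y) (m b : ℕ) (hm : 0 < m) (R : ValuationSubring F → ℕ)
    (hR : Weights k m b R) : ∃ (t h : F) (z : ℕ → F), Frl k m b R t h z := by
  have : Algebra.IsAlgebraic k F := isAlgebraic_of_fixed φ k hk
  rcases hR with ⟨rfl, h12, hR⟩ | ⟨hb, hR⟩ | ⟨x, w, hx, hs, h⟩ | ⟨t, h, z, ht, hh, hz, htr, h0,
    hli, hv⟩
  · obtain ⟨t, h, H⟩ := exists_frm hF hrat φ k hk 2 (Or.inl le_rfl)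
    exact ⟨t, _, _, frl_of_frm h12 hR H⟩
  · exact frl_of_genus hF k m b R hb hR
  · have htr := transcendental_of_adjoin hF k x hx
    subst hx
    obtain ⟨y, hy⟩ := frl_of_w x htr m b hm R w hs h
    exact ⟨x, y, _, hy⟩
  · exact ⟨t, h, _, frl_of_van hF k m b R t h z ht hh hz htr h0 hli hv⟩

end PM
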