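import Pool.Agent.Lib.MP_23b606_ag.PM.Cf
import Pool.Agent.Lib.MP_23b606_ag.PM.Wl
import Pool.Agent.Lib.MP_23b606_ag.PQ.Tr
import Pool.Agent.Lib.MP_23b606_ag.PQ.Res
import Pool.Agent.Lib.MP_23b606_ag.PQ.Act

/-!
PM/Fs: the forms of a factor.

`triv_of_crv`: as in the proof of `factor` (`PQ/Fac.lean`): `v_eq_zero`. `cf_of_frl`: `low`:
`V = b' W` on `F` (`exists_res`), `b' ≥ 1`, `H.up` for `W`; `d ∣ b'` (take `W.π`), so `d ≤ b'`.
`exists_forms`: `exists_frl` for `Γ` acting on `F` (`exists_restr`).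
-/

set_option autoImplicit false

open T1 PQ IntermediateField

namespace PM

/-- Algebraic over `ℂ(t)` in `F`, hence in `L`. -/
private theorem fs_alg {L : Type} [Field L] [Algebra ℂ L] (F : IntermediateField ℂ L) (t : F)
    (x : F) (hx : IsAlgebraic ℂ⟮t⟯ x) : IsAlgebraic ℂ⟮(t : L)⟯ (x : L) := by
  have hmem : ∀ y : F, y ∈ ℂ⟮t⟯ → (y : L) ∈ ℂ⟮(t : L)⟯ := by
    intro y hy
    have h1 : F.val y ∈ (ℂ⟮t⟯).map F.val := ⟨y, hy, rfl⟩
    rw [IntermediateField.adjoin_map, Set.image_singleton] at h1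
    exact h1
  let f : ℂ⟮t⟯ →+* ℂ⟮(t : L)⟯ :=
    { toFun := fun y => ⟨((y : F) : L), hmem y y.2⟩
      map_one' := rfl
      map_mul' := fun _ _ => rfl
      map_zero' := rfl
      map_add' := fun _ _ => rfl }
  exact hx.ringHom_of_comp_eq f F.val.toRingHom f.injective rfl

theorem triv_of_crv {L : Type} [Field L] [Algebra ℂ L] (F : IntermediateField ℂ L) (hF : Crv F)
    (t : L) (ht : t ∈ F) (htr : Transcendental ℂ t) (O : ValuationSubring L) (V : NVal O)
    (hC : Cst O) (h : ∀ c : ℂ, V.v (t - algebraMap ℂ L c) = 0) (x : L) (hx : x ∈ F)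
    (h0 : x ≠ 0) : V.v x = 0 := by
  have htr' : Transcendental ℂ (⟨t, ht⟩ : F) := fun h1 =>
    htr ((isAlgebraic_algHom_iff F.val F.val.injective).2 h1)
  have := hF.fin _ htr'
  have h2 : IsAlgebraic ℂ⟮(⟨t, ht⟩ : F)⟯ (⟨x, hx⟩ : F) := Algebra.IsAlgebraic.isAlgebraic _
  refine v_eq_zero V hC t ?_ h x (fs_alg F ⟨t, ht⟩ ⟨x, hx⟩ h2) h0
  intro c hc
  apply htr
  rw [sub_eq_zero.1 hc]
  exact isAlgebraic_algebraMap c

theorem cf_of_frl {L : Type} [Field L] [Algebra ℂ L] (F : IntermediateField ℂ L) (hF : Crv F)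
    (Γ : Subgroup (L ≃ₐ[ℂ] L)) (m b : ℕ) (R : ValuationSubring F → ℕ) (t h : F) (z : ℕ → F)
    (H : Frl (PQ.inv Γ F) m b R t h z) : Cf F Γ m R b (t : L) (h : L) fun a => (z a : L) := by
  have hfix : ∀ y : F, y ∈ PQ.inv Γ F → ∀ γ ∈ Γ, γ (y : L) = (y : L) := by
    intro y hy
    have h1 : (y : L) ∈ fixedField Γ := hy
    rwa [IntermediateField.mem_fixedField_iff] at h1
  have htr : Transcendental ℂ (t : L) := fun h1 =>
    H.tr ((isAlgebraic_algHom_iff F.val F.val.injective).1 h1)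
  exact
    { t_mem := t.2
      h_mem := h.2
      z_mem := fun a => (z a).2
      t_fix := hfix t H.t_mem
      h_fix := hfix h H.h_mem
      z_fix := fun γ hγ a => hfix (z a) (H.z_mem a) γ hγ
      tr := htr
      ne := fun h0 => H.ne (Subtype.ext h0)
      li := H.li.map' F.val.toLinearMap (LinearMap.ker_eq_bot.2 F.val.injective)
      triv := fun O V hC h0 x hx x0 => triv_of_crv F hF _ t.2 htr O V hC h0 x hx x0
      low := by
        intro O V hC c hc a ha
        have hne : t - algebraMap ℂ F c ≠ 0 := by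
          intro h1
          apply H.tr
          rw [sub_eq_zero.1 h1]
          exact isAlgebraic_algebraMap c
        obtain ⟨W, b', hb, hW⟩ := exists_res (algebraMap F L) V (t - algebraMap ℂ F c) hne (by
          rw [map_sub]
          exact hc)
        have h1 := hW _ hne
        rw [map_sub] at h1
        have h1' : V.v ((t : L) - algebraMap ℂ L c) = b' * W.v (t - algebraMap ℂ F c) := h1
        have h2 : V.v (h : L) = b' * W.v h := hW _ H.ne
        have hz0 : z a ≠ 0 := H.li.ne_zero (⟨a, ha⟩ : Fin b)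
        have h2' : V.v (z a : L) = b' * W.v (z a) := hW _ hz0
        have hAt : At W t c := by
          intro h0
          apply hc
          rw [h1', h0, mul_zero]
        obtain ⟨h3, h4⟩ := H.up _ W (fun c' => hC c') c hAt a ha
        have h9 : b' * W.v h + m * (b' * W.v (z a)) + m * (b' * W.v (t - algebraMap ℂ F c)) =
            b' * (W.v h + m * W.v (z a) + m * W.v (t - algebraMap ℂ F c)) := by ring
        rw [h1', h2, h2', h9]
        have hm0 : (0 : ℤ) ≤ m := Int.natCast_nonneg m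
        refine ⟨?_, ?_⟩
        · have h10 : 1 * (m : ℤ) ≤
              b' * (W.v h + m * W.v (z a) + m * W.v (t - algebraMap ℂ F c)) :=
            mul_le_mul (by omega) h3 hm0 (by omega)
          linarith
        · intro d hd hx
          have h5 := hW _ W.hπ
          rw [W.vπ, mul_one] at h5
          have h6 : d ∣ b' := by
            rw [← h5]
            exact hx _ W.π.2 ((map_ne_zero (algebraMap F L)).2 W.hπ)
          have h7 : d ≤ b' := Int.le_of_dvd (by linarith) h6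
          exact mul_le_mul h7 h4 (Int.natCast_nonneg _) (by linarith) }

theorem exists_forms {L : Type} [Field L] [Algebra ℂ L] (F : IntermediateField ℂ L)
    (hF : Crv F) (hr : ¬ Rational F) (Γ : Subgroup (L ≃ₐ[ℂ] L)) [Finite Γ]
    (hΓ : ∀ γ ∈ Γ, ∀ x ∈ F, γ x ∈ F) (m b : ℕ) (hm : 0 < m) (R : ValuationSubring F → ℕ)
    (hR : Weights (PQ.inv Γ F) m b R) :
    ∃ (t h : L) (z : ℕ → L), Cf F Γ m R b t h z := by
  obtain ⟨φ, hφ⟩ := exists_restr Γ F hΓ
  obtain ⟨t, h, z, H⟩ := exists_frl hF hr φ (PQ.inv Γ F) (fun y => by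
    have h1 : y ∈ PQ.inv Γ F ↔ (y : L) ∈ fixedField Γ := Iff.rfl
    rw [h1, IntermediateField.mem_fixedField_iff]
    constructor
    · intro h γ
      apply Subtype.ext
      rw [hφ]
      exact h γ γ.2
    · intro h γ hγ
      have h1 := hφ ⟨γ, hγ⟩ y
      rw [h ⟨γ, hγ⟩] at h1
      exact h1.symm) m b hm R hR
  exact ⟨t, h, _, cf_of_frl F hF Γ m b R t h z H⟩

end PM
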