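import Pool.Agent.Lib.MP_23b606_ag.PM.Chr
import Pool.Agent.Lib.MP_23b606_ag.PM.In3
import Pool.Agent.Lib.MP_23b606_ag.PQ.Act

/-!
PM/Ie: assembly of `exists_inertia` and `exists_gen` for `K = fixedField G`. The instance
`IsGaloisGroup G (fixedField G) L` is `igg` (private) in `PQ/AsmA.lean`, copy it. The subgroup `I` of `G` is
mapped to `L ≃ₐ[ℂ] L` (`Subgroup.map G.subtype`). `Cst O'`: as in the proof of `factor` (`PQ/Fac.lean`).
-/

set_option autoImplicit false

open T1 PQ IntermediateField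

namespace PM

private theorem ie_igg {L : Type} [Field L] [Algebra ℂ L] (G : Subgroup (L ≃ₐ[ℂ] L)) :
    IsGaloisGroup G (fixedField G) L where
  faithful := inferInstance
  commutes := ⟨fun g k x => by
    change (g : L ≃ₐ[ℂ] L) ((k : L) * x) = (k : L) * (g : L ≃ₐ[ℂ] L) x
    rw [map_mul, (mem_fixedField_iff G (k : L)).1 k.2 g g.2]⟩
  isInvariant := ⟨fun b hb => ⟨⟨b, (mem_fixedField_iff G b).2 fun f hf => hb ⟨f, hf⟩⟩, rfl⟩⟩

theorem finite_fixed {L : Type} [Field L] [Algebra ℂ L] (G : Subgroup (L ≃ₐ[ℂ] L)) [Finite G] :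
    FiniteDimensional (fixedField G) L := by
  have := ie_igg G
  exact IsGaloisGroup.finiteDimensional G (fixedField G) L

theorem exists_ine {L : Type} [Field L] [Algebra ℂ L] (G : Subgroup (L ≃ₐ[ℂ] L)) [Finite G]
    {O : ValuationSubring (fixedField G)} (V : NVal O) (hC : Cst O) :
    ∃ (O' : ValuationSubring L) (V' : NVal O') (e : ℕ) (g : L ≃ₐ[ℂ] L) (ζ : ℂ), g ∈ G ∧ Cst O' ∧
      (∀ x : fixedField G, x ≠ 0 → V'.v (x : L) = e * V.v x) ∧ Ine V' g e ζ := by
  have := ie_igg G
  have := finite_fixed G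
  obtain ⟨O', V', e, I, he, -, hV, hcard, hI⟩ := exists_inertia (L := L) (G := G) V hC
  have hC' : Cst O' := by
    intro c
    by_cases hc : c = 0
    · rw [hc, map_zero]
      exact O'.zero_mem
    · have h0 : algebraMap ℂ (fixedField G) c ≠ 0 := (map_ne_zero _).2 hc
      have h1 := hV _ h0
      rw [v_const V hC hc, mul_zero] at h1
      have h2 : algebraMap (fixedField G) L (algebraMap ℂ (fixedField G) c) = algebraMap ℂ L c := rfl
      rw [h2] at h1
      exact (V'.mem _ ((map_ne_zero _).2 hc)).2 h1.ge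
  have hinj : Function.Injective G.subtype := G.subtype_injective
  have hcard' : Nat.card (I.map G.subtype) = e := by
    rw [← hcard]
    exact Nat.card_congr (I.equivMapOfInjective G.subtype hinj).symm.toEquiv
  have hfin : Finite (I.map G.subtype) :=
    Finite.of_equiv I (I.equivMapOfInjective G.subtype hinj).toEquiv
  obtain ⟨g, hg, ζ, h⟩ := exists_gen V' hC' (I.map G.subtype) (by
    rintro _ ⟨g, hg, rfl⟩ x hx
    exact hI g hg x hx)
  rw [hcard'] at h
  obtain ⟨g', -, rfl⟩ := hg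
  exact ⟨O', V', e, _, ζ, g'.2, hC', hV, h⟩

end PM
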