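import Pool.Agent.Lib.MP_23b606_ag.T1.Defs
import Pool.Agent.Lib.MP_23b606_ag.PM.B

/-!
PM/Wu: changes of coordinates in `W`.

Proof: `W` is `ιMulti` of the `D (y i)` (an alternating map). `W_update`: `D w = ∑ c q • D (z q)`,
`AlternatingMap.map_update_sum` / `map_update_add`, `map_update_smul`, the terms `q ≠ i` vanish
(`map_update_self`-type lemma: two equal arguments). `W_perm`: `AlternatingMap.map_perm`. `lin_of_W`: a
relation `∑ c q z q = 0` gives a relation of the `D (z q)` (`AlternatingMap.map_linearDependent`).
`W_sub`: `D` kills constants. `W_update_gen`: `W_update` with one coordinate replaced by any `w` with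
`D w = ∑ r q • D (z q)`, `r q ∈ L`.
-/

set_option autoImplicit false

open T1 PQ

open scoped KaehlerDifferential

namespace PM

variable {L : Type} [Field L] [Algebra ℂ L] {n : ℕ}

private lemma W_upd_D (z : Fin n → L) (i : Fin n) (w : L) :
    W (Function.update z i w) = exteriorPower.ιMulti L n
      (Function.update (fun q => KaehlerDifferential.D ℂ L (z q)) i
        (KaehlerDifferential.D ℂ L w)) := by
  unfold W
  congr 1
  funext j
  rcases eq_or_ne j i with rfl | hj
  · rw [Function.update_self, Function.update_self]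
  · rw [Function.update_of_ne hj, Function.update_of_ne hj]

theorem W_update_gen (z : Fin n → L) (i : Fin n) (w : L) (r : Fin n → L)
    (hw : KaehlerDifferential.D ℂ L w = ∑ q, r q • KaehlerDifferential.D ℂ L (z q)) :
    W (Function.update z i w) = r i • W z := by
  classical
  rw [W_upd_D, hw, AlternatingMap.map_update_sum, Finset.sum_eq_single i]
  · rw [AlternatingMap.map_update_smul]
    have : Function.update (fun q => KaehlerDifferential.D ℂ L (z q)) i
        (KaehlerDifferential.D ℂ L (z i)) = fun q => KaehlerDifferential.D ℂ L (z q) :=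
      Function.update_eq_self i (fun q => KaehlerDifferential.D ℂ L (z q))
    rw [this]
    rfl
  · intro q _ hq
    rw [AlternatingMap.map_update_smul]
    have := (exteriorPower.ιMulti L n (M := Ω[L⁄ℂ])).map_update_self
      (fun q => KaehlerDifferential.D ℂ L (z q)) hq.symm
    rw [this, smul_zero]
  · intro h
    exact absurd (Finset.mem_univ i) h

theorem W_update (z : Fin n → L) (i : Fin n) (w : L) (c : Fin n → ℂ)
    (hw : w = ∑ q, algebraMap ℂ L (c q) * z q) :
    W (Function.update z i w) = algebraMap ℂ L (c i) • W z := by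
  refine W_update_gen z i w (fun q => algebraMap ℂ L (c q)) ?_
  rw [hw, map_sum]
  refine Finset.sum_congr rfl fun q _ => ?_
  rw [Derivation.leibniz, Derivation.map_algebraMap, smul_zero, add_zero]

theorem W_perm (z : Fin n → L) (σ : Equiv.Perm (Fin n)) :
    W (fun i => z (σ i)) = ((Equiv.Perm.sign σ : ℤ) : L) • W z := by
  have h := (exteriorPower.ιMulti L n (M := Ω[L⁄ℂ])).map_perm
    (fun q => KaehlerDifferential.D ℂ L (z q)) σ
  have h2 : W (fun i => z (σ i)) = (exteriorPower.ιMulti L n (M := Ω[L⁄ℂ]))
      ((fun q => KaehlerDifferential.D ℂ L (z q)) ∘ σ) := rfl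
  rw [h2, h, Units.smul_def]
  exact (Int.cast_smul_eq_zsmul L _ _).symm

theorem lin_of_W (z : Fin n → L) (hz : W z ≠ 0) (c : Fin n → ℂ)
    (h : ∑ q, algebraMap ℂ L (c q) * z q = 0) (q : Fin n) : c q = 0 := by
  have h1 := W_update z q 0 c h.symm
  have h2 : W (Function.update z q 0) = 0 := by
    rw [W_upd_D, map_zero]
    exact (exteriorPower.ιMulti L n (M := Ω[L⁄ℂ])).map_update_zero _ q
  rw [h2] at h1
  have h3 := (smul_eq_zero.1 h1.symm).resolve_right hz
  exact (map_eq_zero (algebraMap ℂ L)).1 h3

theorem W_sub (z : Fin n → L) (c : Fin n → ℂ) :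
    W (fun i => z i - algebraMap ℂ L (c i)) = W z := by
  unfold W
  congr 1
  funext i
  rw [map_sub, Derivation.map_algebraMap, sub_zero]

end PM
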