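import Pool.Agent.Lib.MP_23b606_ag.PM.Dat
import Pool.Agent.Lib.MP_23b606_ag.PM.Wu
import Pool.Agent.Lib.MP_23b606_ag.PM.Du

/-!
PM/Iv: the form is invariant.

`W_map`: `E` dual to `x`, the derivations `E' i = g (E i) g⁻¹` are dual to `g x`, `W_of_dual` twice,
`jac E' (g t) = g (jac E t)`. `inv_mem`: for `g ∈ G`, `g t = t ∘ π g`, `g x = x`, so by `W_perm`
`g J = ± J`, `g (J ^ r) = J ^ r` for even `r`; `∏ h i` is permuted; `(det ^ 2) ^ (r / 2)`, `mx_inv`.
-/

set_option autoImplicit false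

open T1 PQ IntermediateField

namespace PM

/-- the conjugate of a derivation -/
private noncomputable def cj {L : Type} [Field L] [Algebra ℂ L] (g : L ≃ₐ[ℂ] L)
    (D : Derivation ℂ L L) : Derivation ℂ L L :=
  Derivation.mk' (g.toLinearMap ∘ₗ (D : L →ₗ[ℂ] L) ∘ₗ g.symm.toLinearMap) (fun a b => by
    show g (D (g.symm (a * b))) = a * g (D (g.symm b)) + b * g (D (g.symm a))
    rw [map_mul, D.leibniz, smul_eq_mul, smul_eq_mul, map_add, map_mul, map_mul,
      AlgEquiv.apply_symm_apply, AlgEquiv.apply_symm_apply])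

private theorem cj_apply {L : Type} [Field L] [Algebra ℂ L] (g : L ≃ₐ[ℂ] L)
    (D : Derivation ℂ L L) (y : L) : cj g D (g y) = g (D y) := by
  show g (D (g.symm (g y))) = g (D y)
  rw [AlgEquiv.symm_apply_apply]

theorem W_map {L : Type} [Field L] [Algebra ℂ L] {n : ℕ} (hn : Algebra.trdeg ℂ L = n)
    (g : L ≃ₐ[ℂ] L) (x t : Fin n → L) (hx : W x ≠ 0) (J : L) (hJ : W t = J • W x) :
    W (fun i => g (t i)) = g J • W (fun i => g (x i)) := by
  have hax := ai_of_W x hx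
  obtain ⟨E, hE⟩ := exists_dual x hax
  have h1 : jac E t = J := by
    have h2 := W_of_dual hn x hax E hE t
    exact smul_left_injective L hx (h2.symm.trans hJ)
  have hax' : AlgebraicIndependent ℂ fun i => g (x i) :=
    hax.map' (f := (g : L →ₐ[ℂ] L)) g.injective
  have h4 := W_of_dual hn (fun i => g (x i)) hax' (fun i => cj g (E i)) (fun i j => by
    rw [cj_apply, hE]
    split_ifs
    · exact map_one g
    · exact map_zero g) fun i => g (t i)
  rw [h4]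
  congr 1
  rw [← h1]
  unfold jac
  rw [AlgEquiv.map_det]
  congr 1
  ext i j
  exact cj_apply g (E i) (t j)

theorem inv_mem {L : Type} [Field L] [Algebra ℂ L] {n : ℕ} {F : Fin n → IntermediateField ℂ L}
    {G : Subgroup (L ≃ₐ[ℂ] L)} {r : ℕ} {R : ∀ i, ValuationSubring (F i) → ℕ} {bl : Fin n → Fin n}
    {π : G →* Equiv.Perm (Fin n)} {t h : Fin n → L} {z : Fin n → ℕ → L}
    (D : Dat F G r R bl π t h z) (hr : 2 ∣ r) (hn : Algebra.trdeg ℂ L = n) (x : Fin n → fixedField G)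
    (hx : W (fun i => (x i : L)) ≠ 0) (J : L) (hJ : W t = J • W (fun i => (x i : L))) :
    (∏ i, h i) * (mx bl z).det ^ r * J ^ r ∈ fixedField G := by
  intro g
  obtain ⟨q, rfl⟩ := hr
  show (g : L ≃ₐ[ℂ] L) _ = _
  have h1 := W_map hn (g : L ≃ₐ[ℂ] L) (fun i => (x i : L)) t hx J hJ
  have h2 : (fun i => (g : L ≃ₐ[ℂ] L) (x i : L)) = fun i => (x i : L) :=
    funext fun i => (x i).2 g
  have h3 : (fun i => (g : L ≃ₐ[ℂ] L) (t i)) = fun i => t (π g i) := funext fun i => D.gt g i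
  rw [h2, h3, W_perm, hJ, smul_smul] at h1
  have h4 : (g : L ≃ₐ[ℂ] L) J = ((Equiv.Perm.sign (π g) : ℤ) : L) * J :=
    smul_left_injective L hx h1.symm
  have h5 : (g : L ≃ₐ[ℂ] L) (J ^ (2 * q)) = J ^ (2 * q) := by
    rw [map_pow, h4, mul_pow]
    have h6 : (((Equiv.Perm.sign (π g) : ℤ) : L)) ^ (2 * q) = 1 := by
      have h7 : ((Equiv.Perm.sign (π g) : ℤ)) ^ 2 = 1 := by
        rcases Int.units_eq_one_or (Equiv.Perm.sign (π g)) with h8 | h8 <;> rw [h8] <;> norm_num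
      have h8 : ((Equiv.Perm.sign (π g) : ℤ)) ^ (2 * q) = 1 := by
        rw [pow_mul, h7, one_pow]
      rw [← Int.cast_pow, h8, Int.cast_one]
    rw [h6, one_mul]
  have h6 : (g : L ≃ₐ[ℂ] L) (∏ i, h i) = ∏ i, h i := by
    rw [map_prod]
    have h7 : ∀ i, (g : L ≃ₐ[ℂ] L) (h i) = h (π g i) := fun i => D.gh g i
    rw [Finset.prod_congr rfl fun i _ => h7 i]
    exact Equiv.prod_comp (π g) h
  have h7 : (g : L ≃ₐ[ℂ] L) ((mx bl z).det ^ (2 * q)) = (mx bl z).det ^ (2 * q) := by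
    have h8 := mx_inv bl z (π g) (fun i j => D.blk g i j) ((g : L ≃ₐ[ℂ] L) : L →+* L)
      fun i a => D.gz g i a
    have h9 : (g : L ≃ₐ[ℂ] L) ((mx bl z).det ^ 2) = (mx bl z).det ^ 2 := h8
    rw [pow_mul, map_pow, h9]
  rw [map_mul, map_mul, h5, h6, h7]

end PM
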