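import Pool.Agent.Lib.MP_23b606_ag.PM.B
import Pool.Agent.Lib.MP_23b606_ag.PQ.Ded
import Pool.Agent.Lib.MP_23b606_ag.PQ.Res

/-!
PM/Kl: a derivation which does not lower the values on a subfield `k` of finite index on which the
valuation is not trivial does not lower the values at all.

Proof: `O_k = O ∩ k` is a discrete valuation ring of `k` (`exists_res`: `W`, `a`, `V = a W` on `k`), `L / k` is
separable (characteristic zero).
1. Bounded below: there is `N : ℤ` with `Ge V (D u) N` for `u ∈ O`. `B` = the integral closure of `O_k` in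
   `L` is a finite `O_k`-module (`IsIntegralClosure.finite`, see `PQ/In2.lean` for all the instances), with
   generators `b_1, .., b_r`, `D (∑ c_i b_i) = ∑ (D c_i) b_i + ∑ c_i D b_i` with `c_i ∈ O_k`, so
   `Ge V (D c_i) 0`, `Ge V b_i 0` (integral): `N` = the minimum of `0` and the `V (D b_i)` works on `B`, and
   for `u = a / s`, `V s = 0` (`ded`), `D u = (D a - u D s) / s`.
2. `Ge V (D u) 0` for `u ∈ O`: let `M < 0` be the greatest lower bound of step 1 (`Int` well-ordering: the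
   least value of a `D u`, `u ∈ O`). First for units `u`: let `f ∈ O_k[X]` be a monic lift of the minimal
   polynomial of the residue class of `u` over the residue field of `O_k`: `f(u) = 0` or of value `≥ 1`,
   `f'(u)` of value `0` (residue characteristic zero). `D (f u) = f^D (u) + f'(u) D u`, `Ge V (f^D u) 0`. Let
   `w = f u ≠ 0`, `V w ≥ 1`. `w ^ a = x u'` with `x ∈ k`, `V u' = 0`, `a = a` of `exists_res` (`V w ^ a` is a
   value on `k`), and `D w / w = (D x / x + D u' / u') / a`, so `Ge V (D w) (V w + min 0 M) `, so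
   `Ge V (D u) (1 + M)`. So the values of `D u` are at least `M + 1`, a contradiction.
3. `y ≠ 0` arbitrary: `y ^ a = x u` with `x ∈ k`, `V u = 0`, `D y / y = (D x / x + D u / u) / a`, of value
   at least `0`.
-/

set_option autoImplicit false

open T1 PQ

namespace PM

variable {L : Type} [Field L] [Algebra ℂ L] {O : ValuationSubring L}

private theorem kl_nat (V : NVal O) (hC : Cst O) {m : ℕ} (hm : m ≠ 0) :
    (m : L) ≠ 0 ∧ V.v (m : L) = 0 := by
  have h1 : (m : L) = algebraMap ℂ L (m : ℂ) := (map_natCast _ m).symm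
  have h2 : (m : ℂ) ≠ 0 := Nat.cast_ne_zero.2 hm
  rw [h1]
  exact ⟨(map_ne_zero _).2 h2, v_const V hC h2⟩

omit [Algebra ℂ L] in
private theorem kl_inv {V : NVal O} {x y : L} {c : ℤ} (hx : x ≠ 0) (h : Ge V (x * y) c) :
    Ge V y (c - V.v x) := by
  have h1 : y = x⁻¹ * (x * y) := by rw [← mul_assoc, inv_mul_cancel₀ hx, one_mul]
  have h2 := (Ge.self V x⁻¹).mul h
  rw [← h1, V.inv hx] at h2
  exact h2.mono (by omega)

/-- The logarithmic step: from units to all elements. -/
private theorem kl_log {k : IntermediateField ℂ L} {V : NVal O} (hC : Cst O) (D : Derivation ℂ L L)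
    (h : ∀ x ∈ k, x ≠ 0 → Ge V (D x) (V.v x)) {p : L} (hp : p ∈ k) (hp0 : p ≠ 0) {a : ℕ}
    (ha : a ≠ 0) (hpa : V.v p = a) {M : ℤ} (hM : M ≤ 0)
    (hu : ∀ u : L, u ≠ 0 → V.v u = 0 → Ge V (D u) M) {y : L} (hy : y ≠ 0) :
    Ge V (D y) (V.v y + M) := by
  have hx0 : p ^ V.v y ≠ 0 := zpow_ne_zero _ hp0
  have hxk : p ^ V.v y ∈ k := zpow_mem hp _
  have hvx : V.v (p ^ V.v y) = a * V.v y := by rw [V.zpow hp0, hpa, mul_comm]
  obtain ⟨x, hx⟩ : ∃ x, x = p ^ V.v y := ⟨_, rfl⟩
  rw [← hx] at hx0 hxk hvx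
  have hu0 : y ^ a / x ≠ 0 := div_ne_zero (pow_ne_zero _ hy) hx0
  have hvu : V.v (y ^ a / x) = 0 := by
    rw [v_div V (pow_ne_zero _ hy) hx0, v_pow V hy, hvx, sub_self]
  obtain ⟨u, hud⟩ : ∃ u, u = y ^ a / x := ⟨_, rfl⟩
  rw [← hud] at hu0 hvu
  have hyx : y ^ a = x * u := by rw [hud, mul_div_cancel₀ _ hx0]
  have h1 : ((a : L) * y ^ (a - 1)) * D y = x * D u + u * D x := by
    have h2 := congrArg D hyx
    rw [D.leibniz_pow, D.leibniz, smul_eq_mul, smul_eq_mul, smul_eq_mul, nsmul_eq_mul] at h2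
    rw [← h2]
    ring
  have h3 : Ge V (((a : L) * y ^ (a - 1)) * D y) (a * V.v y + M) := by
    rw [h1]
    refine Ge.add (((Ge.self V x).mul (hu u hu0 hvu)).mono (by rw [hvx])) ?_
    refine ((Ge.self V u).mul (h x hxk hx0)).mono ?_
    rw [hvu, hvx]
    omega
  obtain ⟨ha0, hav⟩ := kl_nat V hC ha
  have h4 : (a : L) * y ^ (a - 1) ≠ 0 := mul_ne_zero ha0 (pow_ne_zero _ hy)
  refine (kl_inv h4 h3).mono ?_
  rw [V.mul _ _ ha0 (pow_ne_zero _ hy), hav, v_pow V hy]
  obtain ⟨b, rfl⟩ : ∃ b, a = b + 1 := ⟨a - 1, by omega⟩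
  have h5 : b + 1 - 1 = b := rfl
  rw [h5]
  push_cast
  apply le_of_eq
  ring

/-- There is a relation of degree `n` at `u` with a unit as a coefficient. -/
private def KQ (k : IntermediateField ℂ L) (V : NVal O) (u : L) (n : ℕ) : Prop :=
  ∃ c : ℕ → L, (∀ i, c i ∈ k) ∧ (∀ i, Ge V (c i) 0) ∧ (∃ i, i ≤ n ∧ c i ≠ 0 ∧ V.v (c i) = 0) ∧
    Ge V (∑ i ∈ Finset.range (n + 1), c i * u ^ i) 1

private theorem kl_ex (k : IntermediateField ℂ L) [FiniteDimensional k L] (V : NVal O) (u : L) :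
    ∃ n, KQ k V u n := by
  obtain ⟨q, hq, hqu⟩ := Algebra.IsAlgebraic.isAlgebraic (R := k) u
  obtain ⟨j, hj, hmin⟩ := q.support.exists_min_image (fun i => V.v (q.coeff i : L))
    (Polynomial.nonempty_support_iff.2 hq)
  have hj0 : (q.coeff j : L) ≠ 0 := by
    intro h0
    exact Polynomial.mem_support_iff.1 hj (Subtype.ext h0)
  refine ⟨q.natDegree, fun i => (q.coeff i : L) / (q.coeff j : L), fun i => ?_, fun i => ?_,
    ⟨j, Polynomial.le_natDegree_of_mem_supp j hj, ?_, ?_⟩, ?_⟩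
  · exact div_mem (q.coeff i).2 (q.coeff j).2
  · by_cases hi : q.coeff i = 0
    · left
      change (q.coeff i : L) / (q.coeff j : L) = 0
      rw [hi]
      exact zero_div _
    · right
      have hi0 : (q.coeff i : L) ≠ 0 := fun h0 => hi (Subtype.ext h0)
      rw [v_div V hi0 hj0]
      have := hmin i (Polynomial.mem_support_iff.2 hi)
      exact sub_nonneg.2 this
  · exact div_ne_zero hj0 hj0
  · change V.v ((q.coeff j : L) / (q.coeff j : L)) = 0
    rw [div_self hj0, V.one]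
  · left
    have h1 : ∑ i ∈ Finset.range (q.natDegree + 1), (q.coeff i : L) / (q.coeff j : L) * u ^ i =
        (∑ i ∈ Finset.range (q.natDegree + 1), (q.coeff i : L) * u ^ i) / (q.coeff j : L) := by
      rw [Finset.sum_div]
      exact Finset.sum_congr rfl fun i _ => by ring
    rw [h1]
    have h2 : Polynomial.aeval u q =
        ∑ i ∈ Finset.range (q.natDegree + 1), (q.coeff i : L) * u ^ i := by
      rw [Polynomial.aeval_eq_sum_range]
      exact Finset.sum_congr rfl fun i _ => by rw [Algebra.smul_def]; rfl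
    rw [← h2, hqu, zero_div]

private theorem kl_unit {k : IntermediateField ℂ L} [FiniteDimensional k L] {V : NVal O}
    (hC : Cst O) (D : Derivation ℂ L L) (h : ∀ x ∈ k, x ≠ 0 → Ge V (D x) (V.v x)) {M : ℤ}
    (hM : M < 0) (hw : ∀ w : L, w ≠ 0 → Ge V (D w) (V.v w + M)) {u : L} (hu0 : u ≠ 0)
    (hu : V.v u = 0) : Ge V (D u) (M + 1) := by
  classical
  have hupow : ∀ i : ℕ, Ge V (u ^ i) 0 := fun i => Or.inr (by rw [v_pow V hu0, hu, mul_zero])
  have hex := kl_ex k V u
  obtain ⟨n, hn⟩ : ∃ n, n = Nat.find hex := ⟨_, rfl⟩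
  have hnQ : KQ k V u n := by rw [hn]; exact Nat.find_spec hex
  have hmin : ∀ m, m < n → ¬ KQ k V u m := fun m hm => Nat.find_min hex (by rwa [← hn])
  obtain ⟨c, hck, hc0, ⟨i, hin, hi0, hiv⟩, hsum⟩ := hnQ
  -- the degree is positive
  have hn0 : n ≠ 0 := by
    rintro h0
    rw [h0, Finset.sum_range_one, pow_zero, mul_one] at hsum
    have h1 : i = 0 := by omega
    rw [h1] at hi0 hiv
    have := hsum.le hi0
    omega
  obtain ⟨m, rfl⟩ : ∃ m, n = m + 1 := ⟨n - 1, by omega⟩
  -- the leading coefficient is a unit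
  have hlead : c (m + 1) ≠ 0 ∧ V.v (c (m + 1)) = 0 := by
    by_contra hcon
    have h1 : Ge V (c (m + 1)) 1 := by
      by_cases h4 : c (m + 1) = 0
      · exact Or.inl h4
      · right
        have h2 := (hc0 (m + 1)).le h4
        by_contra h3
        exact hcon ⟨h4, by omega⟩
    refine hmin m (by omega) ⟨c, hck, hc0, ⟨i, ?_, hi0, hiv⟩, ?_⟩
    · by_contra h2
      have h3 : i = m + 1 := by omega
      rw [h3] at hi0 hiv
      exact hcon ⟨hi0, hiv⟩
    · have h2 : ∑ i ∈ Finset.range (m + 1), c i * u ^ i =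
          ∑ i ∈ Finset.range (m + 1 + 1), c i * u ^ i - c (m + 1) * u ^ (m + 1) := by
        rw [Finset.sum_range_succ _ (m + 1)]
        ring
      rw [h2]
      exact hsum.sub ((h1.mul (hupow (m + 1))).mono (by omega))
  -- the derivative is a unit
  obtain ⟨d, hd⟩ : ∃ d, d = ∑ i ∈ Finset.range (m + 1), ((i + 1 : ℕ) : L) * c (i + 1) * u ^ i :=
    ⟨_, rfl⟩
  have hnk : ∀ j : ℕ, (j : L) ∈ k := fun j => natCast_mem k j
  have hdk : ∀ i, ((i + 1 : ℕ) : L) * c (i + 1) ∈ k := fun i => k.mul_mem (hnk _) (hck _)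
  have hdG : ∀ i, Ge V (((i + 1 : ℕ) : L) * c (i + 1)) 0 := fun i =>
    ((ge_natCast hC (i + 1)).mul (hc0 (i + 1))).mono (by omega)
  have hd1 : ¬ Ge V d 1 := by
    intro h1
    refine hmin m (by omega) ⟨fun i => ((i + 1 : ℕ) : L) * c (i + 1), hdk, hdG,
      ⟨m, le_rfl, ?_, ?_⟩, ?_⟩
    · exact mul_ne_zero (kl_nat V hC (Nat.succ_ne_zero m)).1 hlead.1
    · change V.v (((m + 1 : ℕ) : L) * c (m + 1)) = 0
      rw [V.mul _ _ (kl_nat V hC (Nat.succ_ne_zero m)).1 hlead.1,
        (kl_nat V hC (Nat.succ_ne_zero m)).2, hlead.2, add_zero]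
    · rw [← hd]
      exact h1
  have hd0 : Ge V d 0 := by
    rw [hd]
    exact Ge.sum _ _ _ fun i _ => ((hdG i).mul (hupow i)).mono (by omega)
  have hdne : d ≠ 0 := fun h1 => hd1 (Or.inl h1)
  have hdv : V.v d = 0 := by
    have h1 := hd0.le hdne
    by_contra h2
    exact hd1 (Or.inr (by omega))
  -- the derivation of the value
  obtain ⟨w, hwd⟩ : ∃ w, w = ∑ i ∈ Finset.range (m + 1 + 1), c i * u ^ i := ⟨_, rfl⟩
  rw [← hwd] at hsum
  have hDw : D w = ∑ i ∈ Finset.range (m + 1 + 1), D (c i) * u ^ i + d * D u := by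
    rw [hwd, map_sum]
    have h1 : ∀ i ∈ Finset.range (m + 1 + 1), D (c i * u ^ i) =
        D (c i) * u ^ i + ((i : ℕ) : L) * c i * u ^ (i - 1) * D u := by
      intro i _
      rw [D.leibniz, D.leibniz_pow, smul_eq_mul, smul_eq_mul, smul_eq_mul, nsmul_eq_mul]
      ring
    rw [Finset.sum_congr rfl h1, Finset.sum_add_distrib, ← Finset.sum_mul]
    congr 2
    rw [Finset.sum_range_succ' _ (m + 1), Nat.cast_zero, zero_mul, zero_mul, add_zero, hd]
    exact Finset.sum_congr rfl fun i _ => by rw [Nat.add_sub_cancel]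
  have hfD : Ge V (∑ i ∈ Finset.range (m + 1 + 1), D (c i) * u ^ i) 0 := by
    refine Ge.sum _ _ _ fun i _ => ?_
    have h1 : Ge V (D (c i)) 0 := by
      by_cases h2 : c i = 0
      · rw [h2, map_zero]
        exact Ge.zero V 0
      · exact (h _ (hck i) h2).mono ((hc0 i).le h2)
    exact (h1.mul (hupow i)).mono (by omega)
  have hDwG : Ge V (D w) (M + 1) := by
    by_cases h1 : w = 0
    · rw [h1, map_zero]
      exact Ge.zero V _
    · have h2 := hsum.le h1
      exact (hw w h1).mono (by omega)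
  have hdu : Ge V (d * D u) (M + 1) := by
    have h1 : d * D u = D w - ∑ i ∈ Finset.range (m + 1 + 1), D (c i) * u ^ i := by
      rw [hDw]
      ring
    rw [h1]
    exact hDwG.sub (hfD.mono (by omega))
  exact (kl_inv hdne hdu).mono (by omega)

/-- The derivation is bounded on the valuation ring. -/
private theorem kl_bdd (k : IntermediateField ℂ L) [FiniteDimensional k L] (V : NVal O)
    (x₀ : L) (hk : x₀ ∈ k) (hx₀ : x₀ ≠ 0) (h₀ : V.v x₀ ≠ 0) (D : Derivation ℂ L L)
    (h : ∀ x ∈ k, x ≠ 0 → Ge V (D x) (V.v x)) : ∃ N : ℤ, N ≤ 0 ∧ ∀ u ∈ O, Ge V (D u) N := by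
  classical
  obtain ⟨W, a, -, hW⟩ := exists_res (algebraMap k L) V ⟨x₀, hk⟩
    (fun h1 => hx₀ (congrArg Subtype.val h1)) h₀
  have hcz : CharZero k := charZero_of_injective_algebraMap (algebraMap ℂ k).injective
  have hdvr : IsDiscreteValuationRing (O.comap (algebraMap k L)) := dvr_of_nval W
  have hsep : Algebra.IsSeparable k L := inferInstance
  have hfr : IsFractionRing (integralClosure (O.comap (algebraMap k L)) L) L :=
    IsIntegralClosure.isFractionRing_of_finite_extension (O.comap (algebraMap k L)) k L _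
  have hded : IsDedekindDomain (integralClosure (O.comap (algebraMap k L)) L) :=
    IsIntegralClosure.isDedekindDomain (O.comap (algebraMap k L)) k L _
  have hfin : Module.Finite (O.comap (algebraMap k L))
      (integralClosure (O.comap (algebraMap k L)) L) :=
    IsIntegralClosure.finite (O.comap (algebraMap k L)) k L _
  have hint : ∀ s : integralClosure (O.comap (algebraMap k L)) L, (s : L) ∈ O := by
    intro s
    obtain ⟨p, hp, hp'⟩ := s.2
    let φ : O.comap (algebraMap k L) →+* O :=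
      ((algebraMap k L).comp (algebraMap (O.comap (algebraMap k L)) k)).codRestrict O.toSubring
        fun y => y.2
    have h1 : IsIntegral O (s : L) := by
      refine ⟨p.map φ, hp.map φ, ?_⟩
      rw [Polynomial.eval₂_map]
      exact hp'
    obtain ⟨y, hy⟩ := IsIntegrallyClosed.isIntegral_iff.1 h1
    rw [← hy]
    exact y.2
  have hOtop : O ≠ ⊤ := by
    intro h1
    have h2 : V.π⁻¹ ∈ O := (SetLike.ext_iff.1 h1 V.π⁻¹).2 (ValuationSubring.mem_top _)
    have h3 := (V.mem _ (inv_ne_zero V.hπ)).1 h2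
    rw [V.inv V.hπ, V.vπ] at h3
    omega
  obtain ⟨-, hloc⟩ := ded (D := integralClosure (O.comap (algebraMap k L)) L) O hint hOtop
  obtain ⟨r, b, hb⟩ := Module.Finite.exists_fin (R := O.comap (algebraMap k L))
    (M := integralClosure (O.comap (algebraMap k L)) L)
  obtain ⟨N, hN⟩ : ∃ N : ℤ, ∀ i, Ge V (D (b i : L)) N := by
    obtain ⟨N, hN⟩ := (Set.finite_range fun i => V.v (D (b i : L))).bddBelow
    exact ⟨N, fun i => Or.inr (hN ⟨i, rfl⟩)⟩
  have hB : ∀ s : integralClosure (O.comap (algebraMap k L)) L, Ge V (D (s : L)) (min N 0) := by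
    intro s
    have hs : s ∈ Submodule.span (O.comap (algebraMap k L)) (Set.range b) := by
      rw [hb]
      exact Submodule.mem_top
    obtain ⟨c, hc⟩ := (Submodule.mem_span_range_iff_exists_fun _).1 hs
    have h1 : (s : L) = ∑ i, ((c i : k) : L) * (b i : L) := by
      rw [← hc, AddSubmonoidClass.coe_finsetSum]
      exact Finset.sum_congr rfl fun i _ => rfl
    rw [h1, map_sum]
    refine Ge.sum _ _ _ fun i _ => ?_
    rw [D.leibniz, smul_eq_mul, smul_eq_mul]
    have hcO : Ge V ((c i : k) : L) 0 := ge_of_mem (c i).2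
    refine Ge.add ((hcO.mul (hN i)).mono ?_) (((ge_of_mem (hint (b i))).mul (d := 0) ?_).mono ?_)
    · rw [zero_add]
      exact min_le_left _ _
    · by_cases h2 : ((c i : k) : L) = 0
      · rw [h2, map_zero]
        exact Ge.zero V 0
      · exact (h _ (c i : k).2 h2).mono (hcO.le h2)
    · rw [zero_add]
      exact min_le_right _ _
  refine ⟨min N 0, min_le_right _ _, fun u hu => ?_⟩
  obtain ⟨x, s, hs, hsu⟩ := hloc u hu
  have hs0 : (s : L) ≠ 0 := by
    intro h1
    change O.valuation (s : L) = 1 at hs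
    rw [h1, map_zero] at hs
    exact zero_ne_one hs
  have hsv : V.v (s : L) = 0 := (valuation_eq_one_iff V hs0).1 hs
  change (s : L) * u = (x : L) at hsu
  have h1 : (s : L) * D u = D (x : L) - u * D (s : L) := by
    rw [← hsu, D.leibniz, smul_eq_mul, smul_eq_mul]
    ring
  have h2 : Ge V ((s : L) * D u) (min N 0) := by
    rw [h1]
    exact (hB x).sub (((ge_of_mem hu).mul (hB s)).mono (by rw [zero_add]))
  exact (kl_inv hs0 h2).mono (by rw [hsv, sub_zero])

theorem log_ext {L : Type} [Field L] [Algebra ℂ L] (k : IntermediateField ℂ L)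
    [FiniteDimensional k L] {O : ValuationSubring L} (V : NVal O) (hC : Cst O) (x₀ : L)
    (hk : x₀ ∈ k) (hx₀ : x₀ ≠ 0) (h₀ : V.v x₀ ≠ 0) (D : Derivation ℂ L L)
    (hD : ∀ x ∈ k, D x ∈ k) (h : ∀ x ∈ k, x ≠ 0 → Ge V (D x) (V.v x)) (y : L) (hy : y ≠ 0) :
    Ge V (D y) (V.v y) := by
  obtain ⟨W, a, ha, hW⟩ := exists_res (algebraMap k L) V ⟨x₀, hk⟩
    (fun h1 => hx₀ (congrArg Subtype.val h1)) h₀
  have hp0 : ((W.π : k) : L) ≠ 0 := fun h1 => W.hπ (Subtype.ext h1)
  have hpa : V.v ((W.π : k) : L) = (a.toNat : ℕ) := by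
    have h1 : V.v ((W.π : k) : L) = a * W.v W.π := hW _ W.hπ
    rw [h1, W.vπ]
    omega
  have hlog : ∀ M : ℤ, M ≤ 0 → (∀ u : L, u ≠ 0 → V.v u = 0 → Ge V (D u) M) →
      ∀ w : L, w ≠ 0 → Ge V (D w) (V.v w + M) := fun M hM hu w hw =>
    kl_log hC D h (W.π : k).2 hp0 (by omega) hpa hM hu hw
  obtain ⟨N, hN0, hN⟩ := kl_bdd k V x₀ hk hx₀ h₀ D h
  have key : ∀ j : ℕ, ∀ u : L, u ≠ 0 → V.v u = 0 → Ge V (D u) (min 0 (N + j)) := by
    intro j
    induction j with
    | zero =>
      intro u hu hv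
      exact (hN u ((V.mem u hu).2 hv.ge)).mono (by
        rw [Nat.cast_zero, add_zero]
        exact min_le_right _ _)
    | succ j ih =>
      intro u hu hv
      by_cases hM : min 0 (N + j) < 0
      · refine (kl_unit hC D h hM (hlog _ hM.le ih) hu hv).mono ?_
        push_cast
        omega
      · exact (ih u hu hv).mono (by push_cast; omega)
  have h1 := hlog 0 le_rfl (fun u hu hv => (key (-N).toNat u hu hv).mono (by omega)) y hy
  rwa [add_zero] at h1

end PM
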