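import Pool.Agent.Lib.MP_23b606_ag.PM.Kl

/-!
PM/Lg: logarithmic derivations. `a 0` has positive value, the other `a i` are independent residues.

Proof: `k = ℂ(a)`. Every element of `k` is a quotient of two elements of the form
`P = ∑_j p_j(u) (a 0)^j` (finite sums, `p_j ∈ MvPolynomial (Fin m) ℂ`, `u i = a i.succ`): the values of
`aeval a` (`MvPolynomial.finSuccEquiv`), or of `Polynomial.eval₂ (aeval u) (a 0)` on
`Polynomial (MvPolynomial (Fin m) ℂ)`. If not all `p_j` are `0` then `P ≠ 0` and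
`V P = V (a 0) * min {j | p_j ≠ 0}`, as `V (p_j(u)) = 0` (`v_add_eq`). `a 0 * E 0 P = ∑ j p_j(u) (a 0)^j`,
`E i.succ P = ∑ (∂_i p_j)(u) (a 0)^j`: of value at least that of `P`. So this holds on `k` (quotient rule), and
the derivations `a 0 • E 0`, `E i.succ` map `k` to `k` (subfield generated by `a`). Then `log_ext`.
-/

set_option autoImplicit false

open T1 PQ

namespace PM

/-- a derivation maps the algebra generated by `a` to itself -/
private theorem adj_map {L : Type} [Field L] [Algebra ℂ L] {m : ℕ} (a : Fin (m + 1) → L)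
    (D : Derivation ℂ L L) (hD : ∀ j, D (a j) ∈ Algebra.adjoin ℂ (Set.range a)) {x : L}
    (hx : x ∈ Algebra.adjoin ℂ (Set.range a)) : D x ∈ Algebra.adjoin ℂ (Set.range a) := by
  induction hx using Algebra.adjoin_induction with
  | mem x hx =>
    obtain ⟨j, rfl⟩ := hx
    exact hD j
  | algebraMap r =>
    rw [D.map_algebraMap]
    exact Subalgebra.zero_mem _
  | add x y _ _ h1 h2 =>
    rw [map_add]
    exact Subalgebra.add_mem _ h1 h2
  | mul x y hx hy h1 h2 =>
    rw [D.leibniz, smul_eq_mul, smul_eq_mul]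
    exact Subalgebra.add_mem _ (Subalgebra.mul_mem _ hx h2) (Subalgebra.mul_mem _ hy h1)

/-- the elements of the algebra generated by `a` lie in the valuation ring -/
private theorem adj_ge {L : Type} [Field L] [Algebra ℂ L] {m : ℕ} (a : Fin (m + 1) → L)
    {O : ValuationSubring L} (V : NVal O) (hC : Cst O) (hpos : 0 < V.v (a 0))
    (hu : ∀ p : MvPolynomial (Fin m) ℂ, p ≠ 0 →
      MvPolynomial.aeval (fun i => a (Fin.succ i)) p ≠ 0 ∧
        V.v (MvPolynomial.aeval (fun i => a (Fin.succ i)) p) = 0) {x : L}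
    (hx : x ∈ Algebra.adjoin ℂ (Set.range a)) : Ge V x 0 := by
  induction hx using Algebra.adjoin_induction with
  | mem x hx =>
    obtain ⟨j, rfl⟩ := hx
    refine Fin.cases ?_ (fun i => ?_) j
    · exact Or.inr hpos.le
    · have h1 := (hu (MvPolynomial.X i) (MvPolynomial.X_ne_zero i)).2
      rw [MvPolynomial.aeval_X] at h1
      exact Or.inr h1.ge
  | algebraMap r => exact ge_const hC r
  | add x y _ _ h1 h2 => exact h1.add h2
  | mul x y _ _ h1 h2 =>
    have h3 := h1.mul h2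
    rwa [add_zero] at h3

/-- the polynomials in `a 0` over the polynomials in the other elements -/
private noncomputable def ph {L : Type} [Field L] [Algebra ℂ L] {m : ℕ} (a : Fin (m + 1) → L) :
    Polynomial (MvPolynomial (Fin m) ℂ) →+* L :=
  Polynomial.eval₂RingHom
    (MvPolynomial.aeval (R := ℂ) (fun i : Fin m => a (Fin.succ i))).toRingHom (a 0)

private theorem ph_C {L : Type} [Field L] [Algebra ℂ L] {m : ℕ} (a : Fin (m + 1) → L)
    (p : MvPolynomial (Fin m) ℂ) :
    ph a (Polynomial.C p) = MvPolynomial.aeval (fun i => a (Fin.succ i)) p := by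
  unfold ph
  rw [Polynomial.coe_eval₂RingHom, Polynomial.eval₂_C]
  rfl

private theorem ph_X {L : Type} [Field L] [Algebra ℂ L] {m : ℕ} (a : Fin (m + 1) → L) :
    ph a Polynomial.X = a 0 := by
  unfold ph
  rw [Polynomial.coe_eval₂RingHom, Polynomial.eval₂_X]

private theorem ph_mem {L : Type} [Field L] [Algebra ℂ L] {m : ℕ} (a : Fin (m + 1) → L)
    (P : Polynomial (MvPolynomial (Fin m) ℂ)) : ph a P ∈ Algebra.adjoin ℂ (Set.range a) := by
  induction P using Polynomial.induction_on' with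
  | add p q h1 h2 =>
    rw [map_add]
    exact Subalgebra.add_mem _ h1 h2
  | monomial n p =>
    rw [← Polynomial.C_mul_X_pow_eq_monomial, map_mul, map_pow, ph_X, ph_C]
    refine Subalgebra.mul_mem _ ?_ (Subalgebra.pow_mem _ (Algebra.subset_adjoin (Set.mem_range_self (0 : Fin (m + 1)))) _)
    induction p using MvPolynomial.induction_on with
    | C c =>
      rw [MvPolynomial.aeval_C]
      exact Subalgebra.algebraMap_mem _ c
    | add p q h1 h2 =>
      rw [map_add]
      exact Subalgebra.add_mem _ h1 h2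
    | mul_X p i h1 =>
      rw [map_mul, MvPolynomial.aeval_X]
      exact Subalgebra.mul_mem _ h1 (Algebra.subset_adjoin ⟨Fin.succ i, rfl⟩)

private theorem adj_ph {L : Type} [Field L] [Algebra ℂ L] {m : ℕ} (a : Fin (m + 1) → L) {x : L}
    (hx : x ∈ Algebra.adjoin ℂ (Set.range a)) : ∃ P, ph a P = x := by
  induction hx using Algebra.adjoin_induction with
  | mem x hx =>
    obtain ⟨j, rfl⟩ := hx
    refine Fin.cases ⟨Polynomial.X, ph_X a⟩ (fun i => ⟨Polynomial.C (MvPolynomial.X i), ?_⟩) j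
    rw [ph_C, MvPolynomial.aeval_X]
  | algebraMap r =>
    refine ⟨Polynomial.C (MvPolynomial.C r), ?_⟩
    rw [ph_C, MvPolynomial.aeval_C]
  | add x y _ _ h1 h2 =>
    obtain ⟨P, rfl⟩ := h1
    obtain ⟨Q, rfl⟩ := h2
    exact ⟨P + Q, map_add _ _ _⟩
  | mul x y _ _ h1 h2 =>
    obtain ⟨P, rfl⟩ := h1
    obtain ⟨Q, rfl⟩ := h2
    exact ⟨P * Q, map_mul _ _ _⟩

/-- every element of the algebra is a power of `a 0` times an element of value `0` -/
private theorem ph_val {L : Type} [Field L] [Algebra ℂ L] {m : ℕ} (a : Fin (m + 1) → L)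
    {O : ValuationSubring L} (V : NVal O) (hC : Cst O) (hpos : 0 < V.v (a 0))
    (hu : ∀ p : MvPolynomial (Fin m) ℂ, p ≠ 0 →
      MvPolynomial.aeval (fun i => a (Fin.succ i)) p ≠ 0 ∧
        V.v (MvPolynomial.aeval (fun i => a (Fin.succ i)) p) = 0) :
    ∀ (d : ℕ) (P : Polynomial (MvPolynomial (Fin m) ℂ)), P.natDegree ≤ d → P ≠ 0 →
      ∃ (c : ℕ) (y : L), y ∈ Algebra.adjoin ℂ (Set.range a) ∧ y ≠ 0 ∧ V.v y = 0 ∧
        ph a P = a 0 ^ c * y := by
  intro d
  induction d with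
  | zero =>
    intro P hP h0
    rw [Polynomial.eq_C_of_natDegree_le_zero hP] at h0 ⊢
    have h1 : P.coeff 0 ≠ 0 := fun h => h0 (by rw [h, Polynomial.C_0])
    exact ⟨0, _, ph_mem a _, by rw [ph_C]; exact (hu _ h1).1, by rw [ph_C]; exact (hu _ h1).2,
      by rw [pow_zero, one_mul]⟩
  | succ d ih =>
    intro P hP h0
    have hdiv : ph a P = a 0 * ph a P.divX + MvPolynomial.aeval (fun i => a (Fin.succ i))
        (P.coeff 0) := by
      conv_lhs => rw [← Polynomial.X_mul_divX_add P]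
      rw [map_add, map_mul, ph_X, ph_C]
    by_cases h1 : P.coeff 0 = 0
    · have h2 : P.divX ≠ 0 := by
        intro h
        apply h0
        rw [← Polynomial.X_mul_divX_add P, h, h1, mul_zero, Polynomial.C_0, add_zero]
      have h3 : P.divX.natDegree ≤ d := by
        rw [Polynomial.natDegree_divX_eq_natDegree_tsub_one]
        omega
      obtain ⟨c, y, hy, hy0, hV, hc⟩ := ih P.divX h3 h2
      refine ⟨c + 1, y, hy, hy0, hV, ?_⟩
      rw [hdiv, h1, map_zero, add_zero, hc, pow_succ]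
      ring
    · obtain ⟨h2, h3⟩ := hu _ h1
      have h4 : Ge V (ph a P - MvPolynomial.aeval (fun i => a (Fin.succ i)) (P.coeff 0))
          (V.v (MvPolynomial.aeval (fun i => a (Fin.succ i)) (P.coeff 0)) + 1) := by
        rw [hdiv, add_sub_cancel_right, h3]
        have h5 := (Ge.self V (a 0)).mul (adj_ge a V hC hpos hu (ph_mem a P.divX))
        exact h5.mono (by omega)
      obtain ⟨h5, h6⟩ := v_eq_of_ge h2 h4
      exact ⟨0, _, ph_mem a P, h5, h6.trans h3, by rw [pow_zero, one_mul]⟩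

/-- on the algebra -/
private theorem adj_der {L : Type} [Field L] [Algebra ℂ L] {m : ℕ} (a : Fin (m + 1) → L)
    {O : ValuationSubring L} (V : NVal O) (hC : Cst O) (h0 : a 0 ≠ 0) (hpos : 0 < V.v (a 0))
    (hu : ∀ p : MvPolynomial (Fin m) ℂ, p ≠ 0 →
      MvPolynomial.aeval (fun i => a (Fin.succ i)) p ≠ 0 ∧
        V.v (MvPolynomial.aeval (fun i => a (Fin.succ i)) p) = 0)
    (D : Derivation ℂ L L) (hD : ∀ j, D (a j) ∈ Algebra.adjoin ℂ (Set.range a)) {w : L}
    (hw : w ∈ Algebra.adjoin ℂ (Set.range a)) (hD0 : D (a 0) = w * a 0) {x : L}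
    (hx : x ∈ Algebra.adjoin ℂ (Set.range a)) (hx0 : x ≠ 0) : Ge V (D x) (V.v x) := by
  obtain ⟨P, rfl⟩ := adj_ph a hx
  have hP : P ≠ 0 := fun h => hx0 (by rw [h, map_zero])
  obtain ⟨c, y, hy, hy0, hV, hc⟩ := ph_val a V hC hpos hu _ P le_rfl hP
  rw [hc]
  have h1 : V.v (a 0 ^ c * y) = V.v (a 0 ^ c) + 0 := by
    rw [V.mul _ _ (pow_ne_zero c h0) hy0, hV]
  have h2 : D (a 0 ^ c * y) = a 0 ^ c * (D y + c * w * y) := by
    rw [D.leibniz, D.leibniz_pow, hD0, smul_eq_mul, smul_eq_mul, smul_eq_mul, nsmul_eq_mul]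
    rcases Nat.eq_zero_or_pos c with h | h
    · subst h
      simp
    · obtain ⟨d, rfl⟩ : ∃ d, c = d + 1 := ⟨c - 1, by omega⟩
      rw [Nat.add_sub_cancel, pow_succ]
      ring
  rw [h1, h2]
  refine (Ge.self V _).mul (adj_ge a V hC hpos hu ?_)
  refine Subalgebra.add_mem _ (adj_map a D hD hy) (Subalgebra.mul_mem _ (Subalgebra.mul_mem _ ?_ hw) hy)
  exact Subalgebra.natCast_mem _ c

/-- any derivation which is logarithmic along `a 0` -/
private theorem log_one {L : Type} [Field L] [Algebra ℂ L] {m : ℕ} (a : Fin (m + 1) → L)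
    [FiniteDimensional (IntermediateField.adjoin ℂ (Set.range a)) L] {O : ValuationSubring L}
    (V : NVal O) (hC : Cst O) (h0 : a 0 ≠ 0) (hpos : 0 < V.v (a 0))
    (hu : ∀ p : MvPolynomial (Fin m) ℂ, p ≠ 0 →
      MvPolynomial.aeval (fun i => a (Fin.succ i)) p ≠ 0 ∧
        V.v (MvPolynomial.aeval (fun i => a (Fin.succ i)) p) = 0)
    (D : Derivation ℂ L L) (hD : ∀ j, D (a j) ∈ Algebra.adjoin ℂ (Set.range a)) {w : L}
    (hw : w ∈ Algebra.adjoin ℂ (Set.range a)) (hD0 : D (a 0) = w * a 0) (y : L) (hy : y ≠ 0) :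
    Ge V (D y) (V.v y) := by
  have hle : ∀ x ∈ Algebra.adjoin ℂ (Set.range a), x ∈ IntermediateField.adjoin ℂ (Set.range a) :=
    fun x hx => IntermediateField.algebra_adjoin_le_adjoin ℂ (Set.range a) hx
  have hq : ∀ x ∈ IntermediateField.adjoin ℂ (Set.range a), x ≠ 0 →
      ∃ p ∈ Algebra.adjoin ℂ (Set.range a), ∃ q ∈ Algebra.adjoin ℂ (Set.range a),
        p ≠ 0 ∧ q ≠ 0 ∧ x = p / q := by
    intro x hx hx0
    obtain ⟨p, hp, q, hq, rfl⟩ := IntermediateField.mem_adjoin_iff_div.1 hx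
    exact ⟨p, hp, q, hq, fun h => hx0 (by rw [h, zero_div]), fun h => hx0 (by rw [h, div_zero]),
      rfl⟩
  have hdiv : ∀ p q : L, q ≠ 0 → D (p / q) = (D p * q - p * D q) / q ^ 2 := by
    intro p q hq0
    have h1 : D p = D (p / q * q) := by rw [div_mul_cancel₀ p hq0]
    rw [D.leibniz, smul_eq_mul, smul_eq_mul] at h1
    rw [h1]
    field_simp
    ring
  refine log_ext (IntermediateField.adjoin ℂ (Set.range a)) V hC (a 0)
    (hle _ (Algebra.subset_adjoin ⟨0, rfl⟩)) h0 hpos.ne' D (fun x hx => ?_) (fun x hx hx0 => ?_) y hy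
  · by_cases hx0 : x = 0
    · rw [hx0, map_zero]
      exact zero_mem _
    · obtain ⟨p, hp, q, hq', hp0, hq0, rfl⟩ := hq x hx hx0
      rw [hdiv p q hq0]
      exact div_mem (sub_mem (mul_mem (hle _ (adj_map a D hD hp)) (hle _ hq'))
        (mul_mem (hle _ hp) (hle _ (adj_map a D hD hq')))) (pow_mem (hle _ hq') 2)
  · obtain ⟨p, hp, q, hq', hp0, hq0, rfl⟩ := hq x hx hx0
    have h1 := adj_der a V hC h0 hpos hu D hD hw hD0 hp hp0
    have h2 := adj_der a V hC h0 hpos hu D hD hw hD0 hq' hq0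
    rw [hdiv p q hq0, div_eq_mul_inv]
    have h3 : Ge V (D p * q - p * D q) (V.v p + V.v q) :=
      (h1.mul (Ge.self V q)).sub ((Ge.self V p).mul h2)
    have hinv : ∀ z : L, z ≠ 0 → V.v z⁻¹ = - V.v z := by
      intro z hz
      have h4 := V.mul z z⁻¹ hz (inv_ne_zero hz)
      rw [mul_inv_cancel₀ hz, V.one] at h4
      omega
    have h4 : V.v (q ^ 2)⁻¹ = - (V.v q + V.v q) := by
      rw [hinv _ (pow_ne_zero 2 hq0), pow_two, V.mul _ _ hq0 hq0]
    have h5 : V.v (p / q) = V.v p - V.v q := by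
      rw [div_eq_mul_inv, V.mul _ _ hp0 (inv_ne_zero hq0), hinv q hq0]
      ring
    have h6 := h3.mul (Ge.self V (q ^ 2)⁻¹)
    refine h6.mono ?_
    rw [h4, h5]
    omega

theorem log_dual {L : Type} [Field L] [Algebra ℂ L] {m : ℕ} (a : Fin (m + 1) → L)
    [FiniteDimensional (IntermediateField.adjoin ℂ (Set.range a)) L] {O : ValuationSubring L}
    (V : NVal O) (hC : Cst O) (h0 : a 0 ≠ 0) (hpos : 0 < V.v (a 0))
    (hu : ∀ p : MvPolynomial (Fin m) ℂ, p ≠ 0 →
      MvPolynomial.aeval (fun i => a (Fin.succ i)) p ≠ 0 ∧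
        V.v (MvPolynomial.aeval (fun i => a (Fin.succ i)) p) = 0)
    (E : Fin (m + 1) → Derivation ℂ L L) (hE : ∀ i j, E i (a j) = if i = j then 1 else 0)
    (y : L) (hy : y ≠ 0) :
    Ge V (a 0 * E 0 y) (V.v y) ∧ ∀ i : Fin m, Ge V (E i.succ y) (V.v y) := by
  have hmem : ∀ i j, E i (a j) ∈ Algebra.adjoin ℂ (Set.range a) := by
    intro i j
    rw [hE]
    split_ifs
    · exact Subalgebra.one_mem _
    · exact Subalgebra.zero_mem _
  have ha0 : a 0 ∈ Algebra.adjoin ℂ (Set.range a) := Algebra.subset_adjoin ⟨0, rfl⟩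
  constructor
  · have h1 := log_one a V hC h0 hpos hu (a 0 • E 0) (fun j => by
      rw [Derivation.smul_apply, smul_eq_mul]
      exact Subalgebra.mul_mem _ ha0 (hmem 0 j)) (Subalgebra.one_mem _) (by
      rw [Derivation.smul_apply, smul_eq_mul, hE, if_pos rfl, mul_one, one_mul]) y hy
    rwa [Derivation.smul_apply, smul_eq_mul] at h1
  · intro i
    exact log_one a V hC h0 hpos hu (E i.succ) (hmem _) (Subalgebra.zero_mem _) (by
      rw [hE, if_neg (Fin.succ_ne_zero i), zero_mul]) y hy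

end PM
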