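import Pool.Agent.Lib.MP_23b606_ag.PM.Eg
import Pool.Agent.Lib.MP_23b606_ag.PM.Wu

/-!
PM/Ln: eigenvectors in the span of the orbit of `s i`.

`half`: `ε = 1` or `-1`: `w = s i + ε s (σ i)`, `g w = ε w`, `w ≠ 0` (`lin_of_W`). By `dvd_of_pow` (`g ^ 2` fixes
`s i`) `e ∣ 2 v`, `v = V (s i)`. If `e ∣ v` take `ε = -1`: `V w` is an odd multiple of `e/2`
(`odd_of_anti`) and `≥ v`. Otherwise `ε = 1`: `e ∣ V w`, `V w ≥ v`, `v` an odd multiple of `e/2`.
-/

set_option autoImplicit false

open T1 PQ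

namespace PM

variable {L : Type} [Field L] [Algebra ℂ L] {O : ValuationSubring L} {V : NVal O}
  {g : L ≃ₐ[ℂ] L} {e : ℕ} {ζ : ℂ}

theorem half (h : Ine V g e ζ) (hC : Cst O) {n : ℕ} (s : Fin n → L) (hs : W s ≠ 0)
    (σ : Equiv.Perm (Fin n)) (hg : ∀ i, g (s i) = s (σ i)) (i : Fin n) (h1 : σ i ≠ i)
    (h2 : σ (σ i) = i) :
    ∃ ε : ℂ, s i + algebraMap ℂ L ε * s (σ i) ≠ 0 ∧
      2 * V.v (s i) + e ≤ 2 * V.v (s i + algebraMap ℂ L ε * s (σ i)) := by
  classical
  have he : 1 ≤ e := h.pos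
  -- linear independence
  have hlin : ∀ a b : ℂ, algebraMap ℂ L a * s i + algebraMap ℂ L b * s (σ i) = 0 → a = 0 := by
    intro a b hab
    have h3 := lin_of_W s hs (fun q => if q = i then a else if q = σ i then b else 0) (by
      have h4 : ∀ q : Fin n, algebraMap ℂ L (if q = i then a else if q = σ i then b else 0) * s q =
          (if q = i then algebraMap ℂ L a * s i else 0) +
            (if q = σ i then algebraMap ℂ L b * s (σ i) else 0) := by
        intro q
        by_cases hq : q = i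
        · subst hq
          rw [if_pos rfl, if_pos rfl, if_neg fun h5 => h1 h5.symm, add_zero]
        · by_cases hq' : q = σ i
          · subst hq'
            rw [if_neg hq, if_pos rfl, if_neg hq, if_pos rfl, zero_add]
          · rw [if_neg hq, if_neg hq', if_neg hq, if_neg hq', map_zero, zero_mul, add_zero]
      rw [Finset.sum_congr rfl fun q _ => h4 q, Finset.sum_add_distrib, Finset.sum_ite_eq',
        Finset.sum_ite_eq', if_pos (Finset.mem_univ _), if_pos (Finset.mem_univ _)]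
      exact hab) i
    rwa [if_pos rfl] at h3
  have hsi : s i ≠ 0 := by
    intro h3
    have h4 := hlin 1 0 (by rw [h3, mul_zero, map_zero, zero_mul, add_zero])
    exact one_ne_zero h4
  have hw : ∀ ε : ℂ, s i + algebraMap ℂ L ε * s (σ i) ≠ 0 := by
    intro ε h3
    have h4 := hlin 1 ε (by rw [map_one, one_mul]; exact h3)
    exact one_ne_zero h4
  have hsg : s (σ i) = g (s i) := (hg i).symm
  have hg2 : g (s (σ i)) = s i := by rw [hg, h2]
  have hv : V.v (s (σ i)) = V.v (s i) := by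
    rw [hsg]
    exact h.v_map hC hsi
  have hsσ : s (σ i) ≠ 0 := by
    intro h3
    rw [h3, map_zero] at hg2
    exact hsi hg2.symm
  obtain ⟨m, hm⟩ := h.dvd_of_pow hC 2 hsi (by
    rw [pow_two, AlgEquiv.mul_apply, ← hsg]
    exact hg2)
  have hm' : 2 * V.v (s i) = e * m := by
    rw [← hm]
    norm_num
  have he' : (1 : ℤ) ≤ e := by exact_mod_cast he
  by_cases hd : (e : ℤ) ∣ V.v (s i)
  · obtain ⟨c, hc⟩ := hd
    refine ⟨-1, hw _, ?_⟩
    have h3 : g (s i + algebraMap ℂ L (-1) * s (σ i)) = -(s i + algebraMap ℂ L (-1) * s (σ i)) := by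
      rw [map_add, map_mul, AlgEquiv.commutes, hg2, ← hsg, map_neg, map_one]
      ring
    obtain ⟨k, hk⟩ := h.odd_of_anti hC (hw _) h3
    have h4 : V.v (s i) ≤ V.v (s i + algebraMap ℂ L (-1) * s (σ i)) := by
      have h5 : Ge V (s i + algebraMap ℂ L (-1) * s (σ i)) (V.v (s i)) := by
        refine (Ge.self V (s i)).add ?_
        rw [map_neg, map_one, neg_one_mul]
        exact (hv ▸ Ge.self V (s (σ i))).neg
      exact h5.le (hw _)
    rw [hk]
    have h6 : c ≤ k := by
      by_contra h7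
      push Not at h7
      have h8 : 2 * (e * c : ℤ) ≤ (2 * k + 1) * e := by
        rw [← hk, ← hc]
        linarith
      nlinarith
    rw [hc]
    nlinarith
  · refine ⟨1, hw _, ?_⟩
    have h3 : g (s i + algebraMap ℂ L 1 * s (σ i)) = s i + algebraMap ℂ L 1 * s (σ i) := by
      rw [map_add, map_mul, AlgEquiv.commutes, hg2, ← hsg, map_one]
      ring
    obtain ⟨k, hk⟩ := h.dvd_of_inv hC (hw _) h3
    have h4 : V.v (s i) ≤ V.v (s i + algebraMap ℂ L 1 * s (σ i)) := by
      have h5 : Ge V (s i + algebraMap ℂ L 1 * s (σ i)) (V.v (s i)) := by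
        refine (Ge.self V (s i)).add ?_
        rw [map_one, one_mul]
        exact hv ▸ Ge.self V (s (σ i))
      exact h5.le (hw _)
    rw [hk] at h4 ⊢
    have h5 : ¬ (2 : ℤ) ∣ m := by
      rintro ⟨c, rfl⟩
      exact hd ⟨c, by linarith⟩
    have h6 : m + 1 ≤ 2 * k := by
      have h7 : m ≤ 2 * k := by
        by_contra h8
        push Not at h8
        nlinarith
      omega
    nlinarith

end PM
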