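import Pool.Agent.Lib.MP_23b606_ag.PM.Eg
import Pool.Agent.Lib.MP_23b606_ag.PM.Wu

/-!
PM/Lt: two eigenvectors in the span of an orbit of length at least three.

`three`: `l ≥ 3` the length of the orbit of `i` (least `l ≥ 1` with `(σ^l) i = i`), `(g ^ l) (s i) = s i`, so
`e ∣ l v`; `g ^ e = 1` gives `l ∣ e` (`s` is injective), `e = l f`, `f ∣ v`. For `k = 1, 2`
let `a_k = v - k f`, `w_k = ∑_{r < l} ζ^(- a_k r) s (σ^r i)`: `g w_k = ζ^(a_k) w_k` (as `ζ^(a_k l) = 1`),
`w_k ≠ 0` (`lin_of_W`, the `σ^r i` are distinct), `V w_k ≥ v`, and `ζ^(V w_k) = ζ^(a_k)` (`of_eigen`) gives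
`V w_k ≡ a_k` modulo `e = l f`, so `V w_k ≥ v + (l - k) f`. The sum is `≥ 2 v + (2 l - 3) f ≥ 2 v + e`. The
coefficients at `s (σ i)` are `ζ^(- a_1) ≠ ζ^(- a_2)` as `a_1 - a_2 = f` is not divisible by `e`.
-/

set_option autoImplicit false

open T1 PQ

namespace PM

variable {L : Type} [Field L] [Algebra ℂ L] {O : ValuationSubring L} {V : NVal O}
  {g : L ≃ₐ[ℂ] L} {e : ℕ} {ζ : ℂ}

private theorem lt_pow {n : ℕ} (s : Fin n → L) (σ : Equiv.Perm (Fin n))
    (hg : ∀ i, g (s i) = s (σ i)) (i : Fin n) (r : ℕ) : (g ^ r) (s i) = s (σ^[r] i) := by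
  induction r with
  | zero => simp
  | succ r ih =>
    rw [pow_succ', AlgEquiv.mul_apply, ih, hg, Function.iterate_succ_apply']

private theorem lt_inj {n : ℕ} (s : Fin n → L) (hs : W s ≠ 0) : Function.Injective s := by
  classical
  intro a b hab
  by_contra hne
  have h1 := lin_of_W s hs (fun q => (if q = a then 1 else 0) - (if q = b then 1 else 0)) (by
    have h2 : ∀ q : Fin n, algebraMap ℂ L ((if q = a then 1 else 0) - (if q = b then 1 else 0)) * s q
        = (if q = a then s q else 0) - (if q = b then s q else 0) := by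
      intro q
      rw [map_sub, sub_mul]
      split_ifs <;> simp
    rw [Finset.sum_congr rfl fun q _ => h2 q, Finset.sum_sub_distrib]
    simp [hab]) a
  simp [hne] at h1

private theorem lt_eig (h : Ine V g e ζ) (hC : Cst O) {n : ℕ} (s : Fin n → L) (hs : W s ≠ 0)
    (σ : Equiv.Perm (Fin n)) (hg : ∀ i, g (s i) = s (σ i)) (i : Fin n) (l : ℕ)
    (hl : l = Function.minimalPeriod σ i) (h1l : 1 < l) (a : ℤ) (ha : (e : ℤ) ∣ a * l) :
    ∃ c : Fin n → ℂ, c i = 1 ∧ c (σ i) = ζ ^ (-a) ∧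
      (∑ q, algebraMap ℂ L (c q) * s q) ≠ 0 ∧
      V.v (s i) ≤ V.v (∑ q, algebraMap ℂ L (c q) * s q) ∧
      (e : ℤ) ∣ V.v (∑ q, algebraMap ℂ L (c q) * s q) - a := by
  classical
  have h0 : ζ ≠ 0 := h.prim.ne_zero (by have := h.pos; omega)
  have hper : σ^[l] i = i := by
    rw [hl]
    exact Function.iterate_minimalPeriod
  have hdist : ∀ r < l, ∀ t < l, σ^[r] i = σ^[t] i → r = t := by
    intro r hr t ht hrt
    exact (Function.iterate_eq_iterate_iff_of_lt_minimalPeriod (hl ▸ hr) (hl ▸ ht)).1 hrt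
  have hsi : s i ≠ 0 := by
    intro h1
    have h2 := lin_of_W s hs (fun q => if q = i then 1 else 0) (by
      rw [Finset.sum_eq_single i]
      · rw [h1, mul_zero]
      · intro b _ hb
        rw [if_neg hb, map_zero, zero_mul]
      · intro h3
        exact absurd (Finset.mem_univ i) h3) i
    simp at h2
  obtain ⟨c, hc⟩ : ∃ c : Fin n → ℂ, c = fun q => ∑ r ∈ Finset.range l,
      if σ^[r] i = q then ζ ^ (-(a * (r : ℤ))) else 0 := ⟨_, rfl⟩
  have hcr : ∀ t < l, c (σ^[t] i) = ζ ^ (-(a * (t : ℤ))) := by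
    intro t ht
    rw [hc]
    change (∑ r ∈ Finset.range l, if σ^[r] i = σ^[t] i then ζ ^ (-(a * (r : ℤ))) else 0) = _
    rw [Finset.sum_eq_single t]
    · rw [if_pos rfl]
    · intro b hb hbt
      rw [if_neg]
      intro h1
      exact hbt (hdist b (Finset.mem_range.1 hb) t ht h1)
    · intro h1
      exact absurd (Finset.mem_range.2 ht) h1
  have hsum : ∑ q, algebraMap ℂ L (c q) * s q
      = ∑ r ∈ Finset.range l, algebraMap ℂ L (ζ ^ (-(a * (r : ℤ)))) * s (σ^[r] i) := by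
    have h1 : ∀ q, algebraMap ℂ L (c q) * s q = ∑ r ∈ Finset.range l,
        if σ^[r] i = q then algebraMap ℂ L (ζ ^ (-(a * (r : ℤ)))) * s q else 0 := by
      intro q
      rw [hc]
      change algebraMap ℂ L (∑ r ∈ Finset.range l,
        if σ^[r] i = q then ζ ^ (-(a * (r : ℤ))) else 0) * s q = _
      rw [map_sum, Finset.sum_mul]
      refine Finset.sum_congr rfl fun r _ => ?_
      split_ifs
      · rfl
      · rw [map_zero, zero_mul]
    rw [Finset.sum_congr rfl fun q _ => h1 q, Finset.sum_comm]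
    refine Finset.sum_congr rfl fun r _ => ?_
    rw [Finset.sum_ite_eq, if_pos (Finset.mem_univ _)]
  have hci : c i = 1 := by
    have h1 := hcr 0 (by omega)
    rw [Function.iterate_zero_apply] at h1
    rw [h1]
    simp
  have hcs : c (σ i) = ζ ^ (-a) := by
    have h1 := hcr 1 h1l
    rw [Function.iterate_one] at h1
    rw [h1]
    simp
  have hne : (∑ q, algebraMap ℂ L (c q) * s q) ≠ 0 := by
    intro h1
    have h2 := lin_of_W s hs c h1 i
    rw [hci] at h2
    exact one_ne_zero h2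
  have hge : V.v (s i) ≤ V.v (∑ q, algebraMap ℂ L (c q) * s q) := by
    refine Ge.le ?_ hne
    rw [hsum]
    refine Ge.sum _ _ _ fun r _ => ?_
    have h1 := (ge_const (V := V) hC (ζ ^ (-(a * (r : ℤ))))).mul (Ge.self (V := V) (s (σ^[r] i)))
    rw [zero_add] at h1
    rw [← lt_pow s σ hg i r, h.v_map_pow hC r hsi, lt_pow s σ hg i r] at h1
    exact h1
  have heig : g (∑ q, algebraMap ℂ L (c q) * s q)
      = algebraMap ℂ L (ζ ^ a) * ∑ q, algebraMap ℂ L (c q) * s q := by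
    rw [hsum, map_sum, Finset.mul_sum]
    have h1 : ∀ r ∈ Finset.range l, g (algebraMap ℂ L (ζ ^ (-(a * (r : ℤ)))) * s (σ^[r] i))
        = algebraMap ℂ L (ζ ^ a) * (algebraMap ℂ L (ζ ^ (-(a * ((r + 1 : ℕ) : ℤ))))
          * s (σ^[r + 1] i)) := by
      intro r _
      rw [map_mul, AlgEquiv.commutes, hg, Function.iterate_succ_apply', ← mul_assoc, ← map_mul,
        ← zpow_add₀ h0]
      have h2 : a + -(a * ((r + 1 : ℕ) : ℤ)) = -(a * (r : ℤ)) := by
        push_cast
        ring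
      rw [h2]
    rw [Finset.sum_congr rfl h1, ← Finset.mul_sum, ← Finset.mul_sum]
    have h3 := Finset.sum_range_succ (fun r : ℕ => algebraMap ℂ L (ζ ^ (-(a * (r : ℤ))))
      * s (σ^[r] i)) l
    have h4 := Finset.sum_range_succ' (fun r : ℕ => algebraMap ℂ L (ζ ^ (-(a * (r : ℤ))))
      * s (σ^[r] i)) l
    have h5 : algebraMap ℂ L (ζ ^ (-(a * (l : ℤ)))) * s (σ^[l] i)
        = algebraMap ℂ L (ζ ^ (-(a * ((0 : ℕ) : ℤ)))) * s (σ^[0] i) := by
      rw [hper, Function.iterate_zero_apply]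
      have h6 : ζ ^ (-(a * (l : ℤ))) = 1 := (h.prim.zpow_eq_one_iff_dvd _).2 ha.neg_right
      rw [h6]
      simp
    have h7 := h3.symm.trans h4
    rw [h5] at h7
    rw [add_right_cancel h7]
  refine ⟨c, hci, hcs, hne, hge, ?_⟩
  have h8 := h.of_eigen hC hne heig
  rw [← h.prim.zpow_eq_one_iff_dvd, zpow_sub₀ h0, ← h8, div_self (zpow_ne_zero _ h0)]

theorem three (h : Ine V g e ζ) (hC : Cst O) {n : ℕ} (s : Fin n → L) (hs : W s ≠ 0)
    (σ : Equiv.Perm (Fin n)) (hg : ∀ i, g (s i) = s (σ i)) (i : Fin n) (h1 : σ i ≠ i)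
    (h2 : σ (σ i) ≠ i) :
    ∃ c d : Fin n → ℂ, c i = 1 ∧ d i = 1 ∧ c (σ i) ≠ d (σ i) ∧
      (∑ q, algebraMap ℂ L (c q) * s q) ≠ 0 ∧ (∑ q, algebraMap ℂ L (d q) * s q) ≠ 0 ∧
      2 * V.v (s i) + e ≤ V.v (∑ q, algebraMap ℂ L (c q) * s q) +
        V.v (∑ q, algebraMap ℂ L (d q) * s q) := by
  classical
  have h0 : ζ ≠ 0 := h.prim.ne_zero (by have := h.pos; omega)
  obtain ⟨l, hl⟩ : ∃ l : ℕ, l = Function.minimalPeriod σ i := ⟨_, rfl⟩
  have hper : σ^[l] i = i := by
    rw [hl]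
    exact Function.iterate_minimalPeriod
  have hse : σ^[e] i = i := by
    apply lt_inj s hs
    rw [← lt_pow s σ hg i e, h.pow]
    rfl
  have hle : l ∣ e := by
    rw [hl]
    exact Function.IsPeriodicPt.minimalPeriod_dvd hse
  have he := h.pos
  obtain ⟨f, hf⟩ := hle
  have hl0 : l ≠ 0 := by
    rintro h3
    rw [h3, zero_mul] at hf
    omega
  have hl1 : l ≠ 1 := by
    intro h3
    rw [h3, Function.iterate_one] at hper
    exact h1 hper
  have hl2 : l ≠ 2 := by
    intro h3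
    rw [h3] at hper
    exact h2 hper
  have hl3 : 3 ≤ l := by omega
  have hf0 : 1 ≤ f := by
    rcases Nat.eq_zero_or_pos f with h3 | h3
    · rw [h3, mul_zero] at hf
      omega
    · exact h3
  have hsi : s i ≠ 0 := by
    intro h3
    have h4 := lin_of_W s hs (fun q => if q = i then 1 else 0) (by
      rw [Finset.sum_eq_single i]
      · rw [h3, mul_zero]
      · intro b _ hb
        rw [if_neg hb, map_zero, zero_mul]
      · intro h5
        exact absurd (Finset.mem_univ i) h5) i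
    simp at h4
  have hdv : (e : ℤ) ∣ l * V.v (s i) := by
    refine h.dvd_of_pow hC l hsi ?_
    rw [lt_pow s σ hg i l, hper]
  have hef : (e : ℤ) = l * f := by
    rw [hf]
    push_cast
    ring
  have hk : ∀ k : ℤ, (e : ℤ) ∣ (V.v (s i) - k * f) * l := by
    intro k
    have h3 : (V.v (s i) - k * f) * l = l * V.v (s i) - k * (e : ℤ) := by
      rw [hef]
      ring
    rw [h3]
    exact dvd_sub hdv (dvd_mul_left _ _)
  obtain ⟨c, c1, c2, c3, c4, c5⟩ := lt_eig h hC s hs σ hg i l hl (by omega) _ (hk 1)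
  obtain ⟨d, d1, d2, d3, d4, d5⟩ := lt_eig h hC s hs σ hg i l hl (by omega) _ (hk 2)
  have hfe : (0 : ℤ) < f := by exact_mod_cast hf0
  have hee : (0 : ℤ) < e := by exact_mod_cast he
  have hl3' : (3 : ℤ) ≤ l := by exact_mod_cast hl3
  refine ⟨c, d, c1, d1, ?_, c3, d3, ?_⟩
  · intro h3
    rw [c2, d2] at h3
    have h4 : ζ ^ ((f : ℤ)) = 1 := by
      have h5 : (f : ℤ) = -(V.v (s i) - 2 * f) - -(V.v (s i) - 1 * f) := by ring
      rw [h5, zpow_sub₀ h0, h3, div_self (zpow_ne_zero _ h0)]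
    have h5 := (h.prim.zpow_eq_one_iff_dvd _).1 h4
    have h6 := Int.le_of_dvd hfe h5
    rw [hef] at h6
    nlinarith
  · obtain ⟨m, hm⟩ := c5
    obtain ⟨k, hk'⟩ := d5
    have hm1 : 1 ≤ m := by
      by_contra h3
      have h4 : m ≤ 0 := by omega
      nlinarith
    have hk1 : 1 ≤ k := by
      by_contra h3
      have h4 : k ≤ 0 := by omega
      nlinarith
    have h5 : (e : ℤ) ≤ e * m := le_mul_of_one_le_right hee.le hm1
    have h6 : (e : ℤ) ≤ e * k := le_mul_of_one_le_right hee.le hk1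
    have h7 : (3 : ℤ) * f ≤ e := by
      rw [hef]
      exact mul_le_mul_of_nonneg_right hl3' hfe.le
    linarith

end PM
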