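import Mathlib

/-! PM/Pr: permutations which are neither trivial nor transpositions. -/

set_option autoImplicit false

namespace PM

theorem perm_cases {n : ℕ} (σ : Equiv.Perm (Fin n)) (h1 : σ ≠ 1)
    (h2 : ∀ i j, i ≠ j → σ ≠ Equiv.swap i j) :
    (∃ i, σ i ≠ i ∧ σ (σ i) ≠ i) ∨
      ∃ i j, σ i ≠ i ∧ σ (σ i) = i ∧ σ j ≠ j ∧ σ (σ j) = j ∧ j ≠ i ∧ j ≠ σ i := by
  classical
  by_cases h : ∃ i, σ i ≠ i ∧ σ (σ i) ≠ i
  · exact Or.inl h
  · right
    push Not at h
    obtain ⟨i, hi⟩ : ∃ i, σ i ≠ i := by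
      by_contra hcon
      push Not at hcon
      exact h1 (Equiv.ext hcon)
    have hii := h i hi
    obtain ⟨j, hj, hji, hjs⟩ : ∃ j, σ j ≠ j ∧ j ≠ i ∧ j ≠ σ i := by
      by_contra hcon
      push Not at hcon
      apply h2 i (σ i) hi.symm
      refine Equiv.ext fun j => ?_
      by_cases hji : j = i
      · rw [hji, Equiv.swap_apply_left]
      by_cases hjs : j = σ i
      · rw [hjs, Equiv.swap_apply_right, hii]
      · rw [Equiv.swap_apply_of_ne_of_ne hji hjs]
        by_contra hne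
        exact hjs (hcon j hne hji)
    exact ⟨i, j, hi, hii, hj, h j hj, hji, hjs⟩

end PM
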