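import Pool.Agent.Lib.MP_23b606_ag.PM.Ln
import Pool.Agent.Lib.MP_23b606_ag.PM.Lt
import Pool.Agent.Lib.MP_23b606_ag.PM.Pr

/-!
PM/Ly: good coordinates.

`y_half`: `y = update s i w`, `w` from `half`, `W_update` with `c i = 1`.
`y_full`: `perm_cases`. First case: `three`: `y = update (update s i w) (σ i) w'`,
`w' = w + ∑ (d q - c q) s q` where the coefficient at `i` is `0`, so `W y = (d (σ i) - c (σ i)) • W s`
(`W_update` twice, the second time for `update s i w` with the coefficient `1` at `i`). Second case: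
`half` at `i` and `j`, `y = update (update s i w) j w'`, `W y = W s`. The other `y q = s q`, `s q ≠ 0` by
`lin_of_W`. The sums: only two terms change (`Finset.sum_update_of_mem` or
`Finset.add_sum_erase`), `V (s (σ i)) = V (s i)` by `v_map`.
-/

set_option autoImplicit false

open T1 PQ

namespace PM

variable {L : Type} [Field L] [Algebra ℂ L] {O : ValuationSubring L} {V : NVal O}
  {g : L ≃ₐ[ℂ] L} {e : ℕ} {ζ : ℂ}

private theorem ly_ne {n : ℕ} (s : Fin n → L) (hs : W s ≠ 0) (i : Fin n) : s i ≠ 0 := by
  classical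
  intro h1
  have h2 := lin_of_W s hs (fun q => if q = i then 1 else 0) (by
    rw [Finset.sum_eq_single i]
    · rw [h1, mul_zero]
    · intro b _ hb
      rw [if_neg hb, map_zero, zero_mul]
    · intro h3
      exact absurd (Finset.mem_univ i) h3) i
  simp at h2

omit [Field L] [Algebra ℂ L] in
private theorem ly_sum {n : ℕ} (f : L → ℤ) (s : Fin n → L) (i : Fin n) (w : L) :
    ∑ q, f (Function.update s i w q) + f (s i) = ∑ q, f (s q) + f w := by
  classical
  rw [← Finset.add_sum_erase Finset.univ (fun q => f (Function.update s i w q))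
    (Finset.mem_univ i), ← Finset.add_sum_erase Finset.univ (fun q => f (s q)) (Finset.mem_univ i)]
  have h1 : ∑ q ∈ Finset.univ.erase i, f (Function.update s i w q)
      = ∑ q ∈ Finset.univ.erase i, f (s q) :=
    Finset.sum_congr rfl fun q hq => by rw [Function.update_of_ne (Finset.ne_of_mem_erase hq)]
  rw [h1]
  simp only [Function.update_self]
  ring

private theorem ly_two {n : ℕ} (s : Fin n → L) (i j : Fin n) (hij : j ≠ i) (ε : ℂ) :
    s i + algebraMap ℂ L ε * s j
      = ∑ q, algebraMap ℂ L (if q = i then 1 else if q = j then ε else 0) * s q := by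
  classical
  have h4 : ∀ q : Fin n, algebraMap ℂ L (if q = i then 1 else if q = j then ε else 0) * s q =
      (if q = i then s i else 0) + (if q = j then algebraMap ℂ L ε * s j else 0) := by
    intro q
    by_cases hq : q = i
    · subst hq
      rw [if_pos rfl, if_pos rfl, if_neg fun h5 => hij h5.symm, add_zero, map_one, one_mul]
    · by_cases hq' : q = j
      · subst hq'
        rw [if_neg hq, if_pos rfl, if_neg hq, if_pos rfl, zero_add]
      · rw [if_neg hq, if_neg hq', if_neg hq, if_neg hq', map_zero, zero_mul, add_zero]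
  rw [Finset.sum_congr rfl fun q _ => h4 q, Finset.sum_add_distrib, Finset.sum_ite_eq',
    Finset.sum_ite_eq', if_pos (Finset.mem_univ _), if_pos (Finset.mem_univ _)]

private theorem ly_W {n : ℕ} (s : Fin n → L) (i j : Fin n) (hij : j ≠ i) (ε : ℂ) :
    W (Function.update s i (s i + algebraMap ℂ L ε * s j)) = W s := by
  classical
  rw [W_update s i _ (fun q => if q = i then 1 else if q = j then ε else 0) (ly_two s i j hij ε)]
  simp

omit [Algebra ℂ L] in
private theorem ly_upd_ne {n : ℕ} {s : Fin n → L} (hs : ∀ q, s q ≠ 0) (i : Fin n) {w : L}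
    (hw : w ≠ 0) (q : Fin n) : Function.update s i w q ≠ 0 := by
  classical
  by_cases h1 : q = i
  · subst h1
    rw [Function.update_self]
    exact hw
  · rw [Function.update_of_ne h1]
    exact hs q

theorem y_half (h : Ine V g e ζ) (hC : Cst O) {n : ℕ} (s : Fin n → L) (hs : W s ≠ 0)
    (σ : Equiv.Perm (Fin n)) (hg : ∀ i, g (s i) = s (σ i)) (i : Fin n) (h1 : σ i ≠ i)
    (h2 : σ (σ i) = i) :
    ∃ y : Fin n → L, (∀ q, y q ≠ 0) ∧ W y = W s ∧
      2 * ∑ q, V.v (s q) + e ≤ 2 * ∑ q, V.v (y q) := by
  obtain ⟨ε, hw, hv⟩ := half h hC s hs σ hg i h1 h2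
  refine ⟨Function.update s i (s i + algebraMap ℂ L ε * s (σ i)),
    ly_upd_ne (ly_ne s hs) i hw, ly_W s i (σ i) h1 ε, ?_⟩
  have h3 := ly_sum (fun x => V.v x) s i (s i + algebraMap ℂ L ε * s (σ i))
  linarith

theorem y_full (h : Ine V g e ζ) (hC : Cst O) {n : ℕ} (s : Fin n → L) (hs : W s ≠ 0)
    (σ : Equiv.Perm (Fin n)) (hg : ∀ i, g (s i) = s (σ i)) (h1 : σ ≠ 1)
    (h2 : ∀ i j, i ≠ j → σ ≠ Equiv.swap i j) :
    ∃ (y : Fin n → L) (c : ℂ), c ≠ 0 ∧ (∀ q, y q ≠ 0) ∧ W y = algebraMap ℂ L c • W s ∧
      ∑ q, V.v (s q) + e ≤ ∑ q, V.v (y q) := by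
  classical
  rcases perm_cases σ h1 h2 with ⟨i, hi, hii⟩ | ⟨i, j, hi, hii, hj, hjj, hji, hjs⟩
  · obtain ⟨c, d, c1, d1, hcd, hw, hw', hv⟩ := three h hC s hs σ hg i hi hii
    have hz1 : W (Function.update s i (∑ q, algebraMap ℂ L (c q) * s q)) = W s := by
      rw [W_update s i _ c rfl, c1, map_one, one_smul]
    have hz2 : (∑ q, algebraMap ℂ L (d q) * s q)
        = ∑ q, algebraMap ℂ L (if q = i then 1 else d q - c q)
          * Function.update s i (∑ q, algebraMap ℂ L (c q) * s q) q := by
      rw [← Finset.add_sum_erase Finset.univ (fun q => algebraMap ℂ L (if q = i then 1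
        else d q - c q) * Function.update s i (∑ q, algebraMap ℂ L (c q) * s q) q)
        (Finset.mem_univ i)]
      have h3 : ∑ q ∈ Finset.univ.erase i, algebraMap ℂ L (if q = i then 1 else d q - c q)
          * Function.update s i (∑ q, algebraMap ℂ L (c q) * s q) q
          = ∑ q ∈ Finset.univ.erase i, (algebraMap ℂ L (d q) * s q - algebraMap ℂ L (c q) * s q) :=
        Finset.sum_congr rfl fun q hq => by
          rw [Function.update_of_ne (Finset.ne_of_mem_erase hq),
            if_neg (Finset.ne_of_mem_erase hq), map_sub, sub_mul]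
      rw [h3, Finset.sum_sub_distrib]
      simp only [Function.update_self, if_true, map_one, one_mul]
      rw [← Finset.add_sum_erase Finset.univ (fun q => algebraMap ℂ L (d q) * s q)
        (Finset.mem_univ i), ← Finset.add_sum_erase Finset.univ
        (fun q => algebraMap ℂ L (c q) * s q) (Finset.mem_univ i)]
      simp only [c1, d1, map_one, one_mul]
      ring
    refine ⟨Function.update (Function.update s i (∑ q, algebraMap ℂ L (c q) * s q)) (σ i)
      (∑ q, algebraMap ℂ L (d q) * s q), d (σ i) - c (σ i), sub_ne_zero.2 (Ne.symm hcd),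
      ly_upd_ne (ly_upd_ne (ly_ne s hs) i hw) (σ i) hw', ?_, ?_⟩
    · rw [W_update _ (σ i) _ (fun q => if q = i then 1 else d q - c q) hz2, hz1]
      simp only [if_neg hi]
    · have h3 := ly_sum (fun x => V.v x) s i (∑ q, algebraMap ℂ L (c q) * s q)
      have h4 := ly_sum (fun x => V.v x) (Function.update s i (∑ q, algebraMap ℂ L (c q) * s q))
        (σ i) (∑ q, algebraMap ℂ L (d q) * s q)
      rw [Function.update_of_ne hi] at h4
      have h5 : V.v (s (σ i)) = V.v (s i) := by
        rw [← hg i]
        exact h.v_map hC (ly_ne s hs i)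
      rw [h5] at h4
      linarith
  · obtain ⟨ε, hw, hv⟩ := half h hC s hs σ hg i hi hii
    obtain ⟨ε', hw', hv'⟩ := half h hC s hs σ hg j hj hjj
    have hji' : σ j ≠ i := fun h3 => hjs (by rw [← h3, hjj])
    have h3 : s j + algebraMap ℂ L ε' * s (σ j)
        = Function.update s i (s i + algebraMap ℂ L ε * s (σ i)) j
          + algebraMap ℂ L ε' * Function.update s i (s i + algebraMap ℂ L ε * s (σ i)) (σ j) := by
      rw [Function.update_of_ne hji, Function.update_of_ne hji']
    refine ⟨Function.update (Function.update s i (s i + algebraMap ℂ L ε * s (σ i))) j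
      (s j + algebraMap ℂ L ε' * s (σ j)), 1, one_ne_zero,
      ly_upd_ne (ly_upd_ne (ly_ne s hs) i hw) j hw', ?_, ?_⟩
    · rw [h3, ly_W _ j (σ j) hj ε', ly_W s i (σ i) hi ε, map_one, one_smul]
    · have h4 := ly_sum (fun x => V.v x) s i (s i + algebraMap ℂ L ε * s (σ i))
      have h5 := ly_sum (fun x => V.v x)
        (Function.update s i (s i + algebraMap ℂ L ε * s (σ i))) j
        (s j + algebraMap ℂ L ε' * s (σ j))
      rw [Function.update_of_ne hji] at h5
      linarith

end PM
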