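import Pool.Agent.Lib.MP_23b606_ag.PM.Sit

/-!
PM/Sw: the case of a transposition. `A i` = `V (h i) + r * m i + r * V (s i)`, all `A i ≥ 0` (`Sit.nonneg`).

`good_swap` (`σ = swap i j`): `y_half`, `j = 1`: `2 ∑ V y ≥ 2 ∑ V s + e`. If `2 ∑ A ≥ r e` this is enough, with
`base`. If `bl i = bl j`: `det_ge_swap` (with `gM`, `par`): `2 V det ≥ 2 ∑ m + e`.
-/

set_option autoImplicit false

open T1 PQ

namespace PM

variable {L : Type} [Field L] [Algebra ℂ L] {O : ValuationSubring L} {V : NVal O}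
    {g : L ≃ₐ[ℂ] L} {e : ℕ} {ζ : ℂ} {n : ℕ} {σ : Equiv.Perm (Fin n)}
    {bl : Fin n → Fin n} {r : ℕ} {s h : Fin n → L} {M : Matrix (Fin n) (Fin n) L} {m : Fin n → ℤ}

theorem good_swap (S : Sit V g e ζ σ bl r s h M m) (i j : Fin n) (hij : i ≠ j)
    (hσ : σ = Equiv.swap i j) : Good V e r s ((∏ i, h i) * M.det ^ r) := by
  have hi : σ i = j := by rw [hσ, Equiv.swap_apply_left]
  have hj : σ j = i := by rw [hσ, Equiv.swap_apply_right]
  have hb := S.base
  have hr : (0 : ℤ) ≤ r := Int.natCast_nonneg r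
  obtain ⟨y, hy, hW, hv⟩ := y_half S.ine S.cst s S.W_ne σ S.gs i (by rw [hi]; exact hij.symm)
    (by rw [hi, hj])
  have hW' : W y = (1 : L) • W s := by rw [hW]; exact (one_smul L _).symm
  have hv' : (r : ℤ) * (2 * ∑ q, V.v (s q) + e) ≤ r * (2 * ∑ q, V.v (y q)) :=
    mul_le_mul_of_nonneg_left hv hr
  refine ⟨y, 1, one_ne_zero, hy, hW', ?_⟩
  rw [V.one]
  rcases S.swap i j hij hσ with hbl | h6
  · have hd := det_ge_swap S.ine S.cst M m S.ge i j hij (S.par i j hij hσ hbl)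
      (fun a => by rw [S.gM a i (by rw [hi, hbl]), hi])
      (fun a => by rw [S.gM a j (by rw [hj, hbl]), hj]) S.det_ne
    have hd' : (r : ℤ) * (2 * ∑ p, m p + e) ≤ r * (2 * V.v M.det) :=
      mul_le_mul_of_nonneg_left hd hr
    have h4 : 0 ≤ ∑ i, (V.v (h i) + r * m i + r * V.v (s i)) :=
      Finset.sum_nonneg fun i _ => S.nonneg i
    rw [Finset.sum_add_distrib, Finset.sum_add_distrib, ← Finset.mul_sum,
      ← Finset.mul_sum] at h4
    rw [S.val]
    linarith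
  · linarith

end PM
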