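import Pool.Agent.Lib.MP_23b606_ag.PM.Sc
import Pool.Agent.Lib.MP_23b606_ag.PM.Sw

/-! PM/Sg: the four cases together. -/

set_option autoImplicit false

open T1 PQ

namespace PM

variable {L : Type} [Field L] [Algebra ℂ L] {O : ValuationSubring L} {V : NVal O}
    {g : L ≃ₐ[ℂ] L} {e : ℕ} {ζ : ℂ} {n : ℕ} {σ : Equiv.Perm (Fin n)}
    {bl : Fin n → Fin n} {r : ℕ} {s h : Fin n → L} {M : Matrix (Fin n) (Fin n) L} {m : Fin n → ℤ}

theorem good (S : Sit V g e ζ σ bl r s h M m) : Good V e r s ((∏ i, h i) * M.det ^ r) := by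
  by_cases he : e = 1
  · exact good_unram S he
  by_cases h1 : σ = 1
  · exact good_one S he h1
  by_cases h2 : ∃ i j, i ≠ j ∧ σ = Equiv.swap i j
  · obtain ⟨i, j, hij, hσ⟩ := h2
    exact good_swap S i j hij hσ
  · push Not at h2
    exact good_other S h1 h2

end PM
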