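import Pool.Agent.Lib.MP_23b606_ag.PM.Mx
import Pool.Agent.Lib.MP_23b606_ag.PM.Dt
import Pool.Agent.Lib.MP_23b606_ag.PQ.Fin

/-!
PM/Md: the determinant of the block matrix is not zero.

`der_zero`: `x` is algebraic over `ℂ(t)` (`hF.fin`), `D` vanishes on `ℂ(t)`; if `p(x) = 0` with `p` minimal over
`ℂ(t)` then `p'(x) D x = 0` (characteristic zero).
`mx_det_ne`: `t i ∈ F i` transcendental, algebraically independent (`alg_indep`), `E` from `exists_dual`.
`Matrix.BlockTriangular.det` for `mx bl z` and `bl` (the entries outside of the blocks are `0`), and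
`det_ne'` for every block `{p // bl p = β}`, `q = Subtype.val`; linear independence: `hli` composed with the
injective map `q ↦ rk bl q` (`LinearIndependent.comp`, `rk_lt`, `rk_inj`).
-/

set_option autoImplicit false

open T1 PQ IntermediateField

namespace PM

/-- the constants of a derivation -/
private noncomputable def derK {L : Type} [Field L] [Algebra ℂ L] (D : Derivation ℂ L L) :
    IntermediateField ℂ L where
  carrier := {y | D y = 0}
  mul_mem' := by
    intro u v hu hv
    have hu' : D u = 0 := hu
    have hv' : D v = 0 := hv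
    show D (u * v) = 0
    rw [Derivation.leibniz, hu', hv', smul_zero, smul_zero, add_zero]
  add_mem' := by
    intro u v hu hv
    have hu' : D u = 0 := hu
    have hv' : D v = 0 := hv
    show D (u + v) = 0
    rw [map_add, hu', hv', add_zero]
  algebraMap_mem' := fun r => D.map_algebraMap r
  inv_mem' := by
    intro u hu
    have hu' : D u = 0 := hu
    show D u⁻¹ = 0
    rw [Derivation.leibniz_inv, hu', smul_zero]

private theorem mem_derK {L : Type} [Field L] [Algebra ℂ L] (D : Derivation ℂ L L) (y : L) :
    y ∈ derK D ↔ D y = 0 := Iff.rfl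

/-- `D` as a derivation over its constants -/
private noncomputable def derE {L : Type} [Field L] [Algebra ℂ L] (D : Derivation ℂ L L) :
    Derivation (derK D) L L :=
  Derivation.mk'
    { toFun := D
      map_add' := fun a b => map_add D a b
      map_smul' := fun k y => by
        have h1 : D (k : L) = 0 := k.2
        have h2 : k • y = (k : L) * y := rfl
        have h3 : k • D y = (k : L) * D y := rfl
        rw [RingHom.id_apply, h2, h3, Derivation.leibniz, h1, smul_zero, add_zero, smul_eq_mul] }
    (fun a b => D.leibniz a b)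

private theorem derE_apply {L : Type} [Field L] [Algebra ℂ L] (D : Derivation ℂ L L) (y : L) :
    derE D y = D y := rfl

private theorem md_alg {L : Type} [Field L] [Algebra ℂ L] (F₀ E : IntermediateField ℂ L)
    (h1 : Algebra.trdeg ℂ F₀ = 1) (t : L) (ht : t ∈ F₀) (htE : t ∈ E) (htr : Transcendental ℂ t)
    (z : L) (hz : z ∈ F₀) : IsAlgebraic E z := by
  let x : Fin 1 → F₀ := fun _ => ⟨t, ht⟩
  have hx : AlgebraicIndependent ℂ x := by
    rw [algebraicIndependent_unique_type_iff]
    intro h
    exact htr (h.algHom F₀.val)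
  have hb : IsTranscendenceBasis ℂ x := by
    refine hx.isTranscendenceBasis_of_trdeg_le_of_finite ?_
    rw [h1, Cardinal.mk_fin, Nat.cast_one]
  have halg := hb.isAlgebraic
  have hzx : IsAlgebraic (Algebra.adjoin ℂ (Set.range x)) (⟨z, hz⟩ : F₀) := halg.isAlgebraic _
  have hmem : ∀ a : Algebra.adjoin ℂ (Set.range x), (((a : F₀) : L)) ∈ E := by
    intro a
    have h2 : Algebra.adjoin ℂ (Set.range x) ≤ E.toSubalgebra.comap F₀.val := by
      rw [Algebra.adjoin_le_iff]
      rintro _ ⟨i, rfl⟩
      exact htE
    exact h2 a.2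
  let g : F₀ →+* L := F₀.val.toRingHom
  let f : Algebra.adjoin ℂ (Set.range x) →+* E :=
    RingHom.codRestrict (g.comp (Algebra.adjoin ℂ (Set.range x)).subtype) E hmem
  have hf : Function.Injective f := by
    intro a b hab
    have h3 : (((f a : E)) : L) = ((f b : E) : L) := congrArg Subtype.val hab
    exact Subtype.ext (Subtype.ext h3)
  exact hzx.ringHom_of_comp_eq f g hf (RingHom.ext fun a => rfl)

private theorem md_zero {L : Type} [Field L] [Algebra ℂ L] (F : IntermediateField ℂ L)
    (h1 : Algebra.trdeg ℂ F = 1) (t : L) (ht : t ∈ F) (htr : Transcendental ℂ t)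
    (D : Derivation ℂ L L) (hD : D t = 0) (x : L) (hx : x ∈ F) : D x = 0 := by
  have halg : IsAlgebraic (derK D) x := md_alg F (derK D) h1 t ht hD htr x hx
  have hint : IsIntegral (derK D) x := halg.isIntegral
  have hsep : (minpoly (derK D) x).Separable := (minpoly.irreducible hint).separable
  have h2 : Polynomial.aeval x (minpoly (derK D) x).derivative ≠ 0 :=
    hsep.aeval_derivative_ne_zero (minpoly.aeval _ _)
  have h3 := (derE D).map_aeval (minpoly (derK D) x) x
  rw [minpoly.aeval, map_zero, smul_eq_mul, derE_apply] at h3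
  exact (mul_eq_zero.1 h3.symm).resolve_left h2

theorem der_zero {L : Type} [Field L] [Algebra ℂ L] (F : IntermediateField ℂ L) (hF : Crv F)
    (t : L) (ht : t ∈ F) (htr : Transcendental ℂ t) (D : Derivation ℂ L L) (hD : D t = 0) (x : L)
    (hx : x ∈ F) : D x = 0 :=
  md_zero F hF.tr t ht htr D hD x hx

private theorem md_tr {L : Type} [Field L] [Algebra ℂ L] (F : IntermediateField ℂ L)
    (h1 : Algebra.trdeg ℂ F = 1) : ∃ t : L, t ∈ F ∧ Transcendental ℂ t := by
  by_contra hcon
  push Not at hcon
  have halg : Algebra.IsAlgebraic ℂ F := by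
    refine ⟨fun x => ?_⟩
    have h2 := hcon x x.2
    unfold Transcendental at h2
    rw [not_not] at h2
    exact (isAlgebraic_algHom_iff F.val F.val.injective).1 h2
  have h3 : Algebra.trdeg ℂ F = 0 := trdeg_eq_zero_iff.2 halg
  rw [h3] at h1
  exact zero_ne_one h1

theorem mx_det_ne {L : Type} [Field L] [Algebra ℂ L] {n : ℕ}
    (F : Fin n → IntermediateField ℂ L) (hF : CurveProduct F) (bl : Fin n → Fin n)
    (z : Fin n → ℕ → L) (hz : ∀ i a, z i a ∈ F i)
    (hli : ∀ i, LinearIndependent ℂ fun a : Fin (bs bl i) => z i a) : (mx bl z).det ≠ 0 := by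
  choose t ht htr using fun i => md_tr (F i) (hF.tr i)
  have hai : AlgebraicIndependent ℂ t := alg_indep F hF.tr hF.sup hF.dim t ht htr
  obtain ⟨E, hE⟩ := exists_dual t hai
  have hbt : (mx bl z).BlockTriangular bl := by
    intro i j hij
    simp only [mx, Matrix.of_apply]
    rw [if_neg hij.ne']
  rw [hbt.det, Finset.prod_ne_zero_iff]
  intro β _
  refine det_ne' hF.dim t hai E hE (fun p : {p // bl p = β} => (p : Fin n))
    Subtype.val_injective _ (fun a p j hj => ?_) fun p => ?_
  · have h1 : bl a.1 = bl p.1 := a.2.trans p.2.symm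
    have h2 : (mx bl z).toSquareBlock bl β a p = z p.1 (rk bl a.1) := by
      simp only [Matrix.toSquareBlock_def, mx, Matrix.of_apply]
      rw [if_pos h1]
    rw [h2]
    refine md_zero (F p.1) (hF.tr p.1) (t p.1) (ht p.1) (htr p.1) (E j) ?_ _ (hz _ _)
    rw [hE, if_neg hj]
  · have h1 : ∀ a : {a // bl a = β}, rk bl a.1 < bs bl p.1 := by
      intro a
      have h2 := rk_lt bl a.1
      have h3 : bs bl a.1 = bs bl p.1 := by
        unfold bs
        rw [a.2, p.2]
      omega
    have h4 := (hli p.1).comp (fun a : {a // bl a = β} => (⟨rk bl a.1, h1 a⟩ : Fin (bs bl p.1)))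
      (fun a b hab => Subtype.ext (rk_inj bl (a.2.trans b.2.symm) (congrArg Fin.val hab)))
    have h5 : (fun a => (mx bl z).toSquareBlock bl β a p)
        = (fun a : Fin (bs bl p.1) => z p.1 a) ∘
          fun a : {a // bl a = β} => (⟨rk bl a.1, h1 a⟩ : Fin (bs bl p.1)) := by
      funext a
      simp only [Matrix.toSquareBlock_def, mx, Matrix.of_apply, Function.comp_apply]
      rw [if_pos (a.2.trans p.2.symm)]
    rw [h5]
    exact h4

end PM
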