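import Pool.Agent.Lib.MP_23b606_ag.PM.Nm
import Pool.Agent.Lib.MP_23b606_ag.PM.Defs
import Pool.Agent.Lib.MP_23b606_ag.PQ.Res

/-!
PM/Rt: the rotation numbers of the powers of the generator of the inertia group.

`V` not trivial on `A`: `V = d W` on `A`, `u = W.π`, `g^k u - ζ^(k d) u` is zero or of value `> d`, so
`b` = the remainder of `k d` modulo `e`. `V` trivial on `A`: `g^k` is the identity on `A`, `b = d = 0`.
-/

set_option autoImplicit false

open T1 PQ

namespace PM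

private theorem rt_triv {L : Type} [Field L] [Algebra ℂ L] {O : ValuationSubring L} {V : NVal O}
    {g : L ≃ₐ[ℂ] L} {e : ℕ} {ζ : ℂ} (h : Ine V g e ζ) (hC : Cst O) (A : IntermediateField ℂ L)
    (k : ℕ) (hg : ∀ x ∈ A, (g ^ k) x ∈ A) (hA : ∀ x ∈ A, x ≠ 0 → V.v x = 0) (x : L)
    (hx : x ∈ A) : (g ^ k) x = x := by
  by_cases hx0 : x = 0
  · rw [hx0, map_zero]
  have h1 := h.key_pow hC k hx0
  rw [hA x hx hx0, mul_zero, zpow_zero, map_one, one_mul, zero_add] at h1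
  by_contra hne
  have h2 : (g ^ k) x - x ≠ 0 := sub_ne_zero.2 hne
  have h3 := h1.le h2
  rw [hA _ (A.sub_mem (hg x hx) hx) h2] at h3
  omega

private theorem rt_max {K : Type} [Field K] {P : ValuationSubring K} (W : NVal P) (x : K)
    (hx : P.valuation x < 1) : P.valuation x ≤ P.valuation W.π := by
  by_cases hx0 : x = 0
  · rw [hx0, map_zero]
    exact zero_le
  · rw [valuation_le_iff W hx0 W.hπ, W.vπ]
    exact (valuation_lt_one_iff W hx0).1 hx

theorem rot_pow {L : Type} [Field L] [Algebra ℂ L] {O : ValuationSubring L} {V : NVal O}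
    {g : L ≃ₐ[ℂ] L} {e : ℕ} (h : Ine V g e (zt e)) (hC : Cst O) (A : IntermediateField ℂ L)
    (k : ℕ) (hg : ∀ x ∈ A, (g ^ k) x ∈ A) (P : ValuationSubring A) (hP : IsDiv 1 P)
    (hPO : (∃ x ∈ A, x ≠ 0 ∧ V.v x ≠ 0) → P = O.comap (algebraMap A L)) :
    ∃ (b : ℕ) (d : ℤ), Rot (g ^ k) P b e ∧ 0 ≤ d ∧ (b : ℤ) ≤ k * d ∧
      (∀ x ∈ A, x ≠ 0 → d ∣ V.v x) ∧ ((∀ x ∈ A, x ≠ 0 → V.v x = 0) → b = 0) := by
  have he := h.pos
  by_cases hnt : ∃ x ∈ A, x ≠ 0 ∧ V.v x ≠ 0
  · have hPeq := hPO hnt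
    subst hPeq
    obtain ⟨x, hx, hx0, hxv⟩ := hnt
    obtain ⟨W, d, hd, hW⟩ := exists_res (algebraMap A L) V (⟨x, hx⟩ : A)
      (fun h => hx0 (congrArg Subtype.val h)) hxv
    have hu0 : ((W.π : A) : L) ≠ 0 := fun h => W.hπ (Subtype.ext h)
    have hu := hW _ W.hπ
    rw [W.vπ, mul_one] at hu
    have hu' : V.v ((W.π : A) : L) = d := hu
    obtain ⟨D, hD⟩ := Int.eq_ofNat_of_zero_le (by omega : 0 ≤ d)
    refine ⟨(k * D) % e, d, ⟨Nat.mod_lt _ he, W.π, ⟨(g ^ k) (W.π : A), hg _ W.π.2⟩, W.hπ, ?_,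
      fun x hx => rt_max W x hx, rfl, ?_⟩, by omega, ?_, ?_,
      fun h1 => absurd (h1 x hx hx0) hxv⟩
    · rw [valuation_lt_one_iff W W.hπ, W.vπ]
      exact one_pos
    · rw [← zt_pow e he (k * D)]
      have h1 := h.key_pow hC k hu0
      rw [hu', hD] at h1
      have h2 : zt e ^ ((k : ℤ) * (D : ℤ)) = zt e ^ (k * D) := by
        rw [← zpow_natCast, Nat.cast_mul]
      rw [h2] at h1
      obtain ⟨y, hy⟩ : ∃ y : A, y = (⟨(g ^ k) (W.π : A), hg _ W.π.2⟩ : A) -
          algebraMap ℂ A (zt e ^ (k * D)) * W.π := ⟨_, rfl⟩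
      have hyL : (y : L) = (g ^ k) (W.π : A) - algebraMap ℂ L (zt e ^ (k * D)) * (W.π : A) := by
        rw [hy]
        rfl
      rw [← hy]
      rw [← hyL] at h1
      by_cases hy0 : y = 0
      · rw [hy0, map_zero]
        exact (Valuation.pos_iff _).2 W.hπ
      · have h3 := h1.le fun h => hy0 (Subtype.ext h)
        have h4 := hW y hy0
        have h4' : V.v (y : L) = d * W.v y := h4
        rw [valuation_lt_iff W hy0 W.hπ, W.vπ]
        rw [h4'] at h3
        by_contra h5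
        push Not at h5
        have h6 : d * W.v y ≤ d * 1 := mul_le_mul_of_nonneg_left h5 (by omega)
        omega
    · rw [hD]
      exact_mod_cast Nat.mod_le _ _
    · intro y hy hy0
      have h1 := hW (⟨y, hy⟩ : A) fun h => hy0 (congrArg Subtype.val h)
      exact ⟨_, h1⟩
  · have htriv : ∀ x ∈ A, x ≠ 0 → V.v x = 0 := by
      intro x hx hx0
      by_contra h
      exact hnt ⟨x, hx, hx0, h⟩
    obtain ⟨W⟩ := exists_nval P hP.1
    refine ⟨0, 0, ⟨he, W.π, W.π, W.hπ, ?_, fun x hx => rt_max W x hx,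
      rt_triv h hC A k hg htriv _ W.π.2, ?_⟩, le_rfl, by simp, fun x hx hx0 => by
        rw [htriv x hx hx0], fun _ => rfl⟩
    · rw [valuation_lt_one_iff W W.hπ, W.vπ]
      exact one_pos
    · have h1 : W.π - algebraMap ℂ A (Complex.exp (2 * Real.pi * Complex.I *
          (((0 : ℕ) : ℂ) / e))) * W.π = 0 := by
        rw [Nat.cast_zero, zero_div, mul_zero, Complex.exp_zero, map_one, one_mul, sub_self]
      rw [h1, map_zero]
      exact (Valuation.pos_iff _).2 W.hπ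

end PM
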