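import Pool.Agent.Lib.MP_23b606_ag.PM.Wu
import Pool.Agent.Lib.MP_23b606_ag.PM.Eg

/-!
PM/Tn: the residues of the coordinates are algebraically dependent.

Proof: `L` is algebraic over `ℂ(s)`. If all `P(s)`, `P ≠ 0`, have value `0` then `V = 0` on `ℂ(s)`, and then
on `L` (`tr_le` in `PQ/Tr.lean` is private, the argument: a monic equation with coefficients of value `0` or
zero for `y` and `y⁻¹`), a contradiction to `V π = 1`. `Ge V (P(s)) 0` for all `P`. Take `P ≠ 0` of least total
degree with `P(s)` of positive value (`P(s) ≠ 0` as the `s i` are algebraically independent). Some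
`∂_i P ≠ 0` (otherwise `P` is constant, of value `0`); it has a smaller total degree, so `V (∂_i P (s)) = 0`.
`y = update s i P(s)`: `D (P(s)) = ∑ (∂_q P)(s) D (s q)` (`MvPolynomial.mkDerivation`, or the chain rule
`MvPolynomial.aeval` with `Derivation`), `W_update_gen`.
-/

set_option autoImplicit false

open T1 PQ

namespace PM

private theorem tn_chain {L : Type} [Field L] [Algebra ℂ L] {n : ℕ} (s : Fin n → L)
    (P : MvPolynomial (Fin n) ℂ) :
    KaehlerDifferential.D ℂ L (MvPolynomial.aeval s P) =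
      ∑ q, MvPolynomial.aeval s (MvPolynomial.pderiv q P) • KaehlerDifferential.D ℂ L (s q) := by
  induction P using MvPolynomial.induction_on with
  | C a =>
    rw [MvPolynomial.aeval_C, Derivation.map_algebraMap, Finset.sum_eq_zero]
    intro q _
    rw [MvPolynomial.pderiv_C, map_zero, zero_smul]
  | add p q hp hq =>
    rw [map_add, map_add, hp, hq, ← Finset.sum_add_distrib]
    refine Finset.sum_congr rfl fun i _ => ?_
    rw [map_add, map_add, add_smul]
  | mul_X p i hp =>
    rw [map_mul, MvPolynomial.aeval_X, Derivation.leibniz, hp, Finset.smul_sum]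
    have h1 : ∀ q : Fin n, MvPolynomial.aeval s (MvPolynomial.pderiv q (p * MvPolynomial.X i)) •
        KaehlerDifferential.D ℂ L (s q) =
        (if q = i then MvPolynomial.aeval s p • KaehlerDifferential.D ℂ L (s q) else 0) +
          s i • MvPolynomial.aeval s (MvPolynomial.pderiv q p) •
            KaehlerDifferential.D ℂ L (s q) := by
      intro q
      rw [MvPolynomial.pderiv_mul, map_add, map_mul, map_mul, MvPolynomial.aeval_X, add_smul,
        add_comm, smul_smul, mul_comm (s i)]
      congr 1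
      by_cases hq : q = i
      · subst hq
        rw [if_pos rfl, MvPolynomial.pderiv_X_self, map_one, mul_one]
      · rw [if_neg hq, MvPolynomial.pderiv_X_of_ne (Ne.symm hq), map_zero, mul_zero, zero_smul]
    rw [Finset.sum_congr rfl fun q _ => h1 q, Finset.sum_add_distrib]
    congr 1
    rw [Finset.sum_ite_eq' Finset.univ i, if_pos (Finset.mem_univ i)]

private theorem tn_deg {n : ℕ} (P : MvPolynomial (Fin n) ℂ) (i : Fin n)
    (h : MvPolynomial.pderiv i P ≠ 0) :
    (MvPolynomial.pderiv i P).totalDegree < P.totalDegree := by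
  classical
  have key : ∀ m ∈ (MvPolynomial.pderiv i P).support, (m.sum fun _ e => e) < P.totalDegree := by
    intro m hm
    rw [MvPolynomial.mem_support_iff, MvPolynomial.coeff_pderiv] at hm
    have h1 : m + Finsupp.single i 1 ∈ P.support :=
      MvPolynomial.mem_support_iff.2 (left_ne_zero_of_mul hm)
    have h2 := MvPolynomial.le_totalDegree h1
    rw [Finsupp.sum_add_index' (fun _ => rfl) (fun _ _ _ => rfl),
      Finsupp.sum_single_index rfl] at h2
    omega
  obtain ⟨m0, hm0⟩ := MvPolynomial.support_nonempty.2 h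
  rw [MvPolynomial.totalDegree, Finset.sup_lt_iff (lt_of_le_of_lt (Nat.zero_le _) (key m0 hm0))]
  exact key

private theorem tn_pder {n : ℕ} (P : MvPolynomial (Fin n) ℂ)
    (h : ∀ i, MvPolynomial.pderiv i P = 0) : P = MvPolynomial.C (P.coeff 0) := by
  classical
  ext m
  rw [MvPolynomial.coeff_C]
  by_cases hm : 0 = m
  · rw [if_pos hm, hm]
  · rw [if_neg hm]
    obtain ⟨i, hi⟩ : ∃ i, m i ≠ 0 := by
      by_contra hcon
      push Not at hcon
      exact hm (Finsupp.ext fun i => (hcon i).symm)
    have h1 := MvPolynomial.coeff_pderiv (i := i) P (m - Finsupp.single i 1)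
    rw [h i, MvPolynomial.coeff_zero] at h1
    have h2 : m - Finsupp.single i 1 + Finsupp.single i 1 = m := by
      refine tsub_add_cancel_of_le ?_
      rw [Finsupp.single_le_iff]
      omega
    rw [h2] at h1
    rcases mul_eq_zero.1 h1.symm with h3 | h3
    · exact h3
    · exact absurd h3 (Nat.cast_add_one_ne_zero _)

section

variable {L : Type} [Field L] [Algebra ℂ L] {n : ℕ} {O : ValuationSubring L}

/-- The values of the polynomials in elements of the valuation ring. -/
private theorem tn_mem (hC : Cst O) (s : Fin n → L) (hm : ∀ i, s i ∈ O)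
    (P : MvPolynomial (Fin n) ℂ) : MvPolynomial.aeval s P ∈ O := by
  induction P using MvPolynomial.induction_on with
  | C a =>
    rw [MvPolynomial.aeval_C]
    exact hC a
  | add p q hp hq =>
    rw [map_add]
    exact O.add_mem _ _ hp hq
  | mul_X p i hp =>
    rw [map_mul, MvPolynomial.aeval_X]
    exact O.mul_mem _ _ hp (hm i)

private theorem tn_ex (V : NVal O) (hC : Cst O) (hn : Algebra.trdeg ℂ L = n) (s : Fin n → L)
    (hs : AlgebraicIndependent ℂ s) (hm : ∀ i, s i ∈ O) :
    ∃ P : MvPolynomial (Fin n) ℂ, P ≠ 0 ∧ 1 ≤ V.v (MvPolynomial.aeval s P) := by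
  by_contra hcon
  push Not at hcon
  have hne : ∀ P : MvPolynomial (Fin n) ℂ, P ≠ 0 → MvPolynomial.aeval s P ≠ 0 := by
    intro P hP h
    exact hP (hs (by rw [h, map_zero]))
  have hv : ∀ P : MvPolynomial (Fin n) ℂ, P ≠ 0 → V.v (MvPolynomial.aeval s P) = 0 := by
    intro P hP
    have h1 := hcon P hP
    have h2 := (V.mem _ (hne P hP)).1 (tn_mem hC s hm P)
    omega
  have hadj : ∀ a : L, a ∈ Algebra.adjoin ℂ (Set.range s) → a ≠ 0 → V.v a = 0 := by
    intro a ha ha0
    rw [Algebra.adjoin_range_eq_range_aeval] at ha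
    obtain ⟨P, rfl⟩ := ha
    refine hv P ?_
    rintro rfl
    exact ha0 (map_zero _)
  have htb : IsTranscendenceBasis ℂ s := by
    refine hs.isTranscendenceBasis_of_trdeg_le_of_finite ?_
    rw [hn, Cardinal.mk_fin]
  have halg := htb.isAlgebraic
  have hx : IsAlgebraic (Algebra.adjoin ℂ (Set.range s)) V.π := halg.isAlgebraic V.π
  obtain ⟨p, hp0, hp⟩ := hx.exists_nonzero_coeff_and_aeval_eq_zero
    (mem_nonZeroDivisors_of_ne_zero V.hπ)
  rw [Polynomial.aeval_eq_sum_range, Finset.sum_range_succ'] at hp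
  have hc0 : ((p.coeff 0 : Algebra.adjoin ℂ (Set.range s)) : L) ≠ 0 := by
    intro h
    exact hp0 (Subtype.ext h)
  have h2 := v_sum_ge V (Finset.range p.natDegree) (fun i => p.coeff (i + 1) • V.π ^ (i + 1)) 1
    (by
      intro i _
      by_cases hi : p.coeff (i + 1) = 0
      · left
        rw [hi, zero_smul]
      · right
        have hi' : ((p.coeff (i + 1) : Algebra.adjoin ℂ (Set.range s)) : L) ≠ 0 :=
          fun h => hi (Subtype.ext h)
        have h3 : p.coeff (i + 1) • V.π ^ (i + 1) =
            ((p.coeff (i + 1) : Algebra.adjoin ℂ (Set.range s)) : L) * V.π ^ (i + 1) :=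
          Algebra.smul_def _ _
        rw [h3, V.mul _ _ hi' (pow_ne_zero _ V.hπ), v_pow V V.hπ, V.vπ,
          hadj _ (p.coeff (i + 1)).2 hi']
        omega)
  have h3 : ∑ i ∈ Finset.range p.natDegree, p.coeff (i + 1) • V.π ^ (i + 1) =
      - ((p.coeff 0 : Algebra.adjoin ℂ (Set.range s)) : L) := by
    rw [pow_zero] at hp
    have h4 : p.coeff 0 • (1 : L) = ((p.coeff 0 : Algebra.adjoin ℂ (Set.range s)) : L) := by
      rw [Algebra.smul_def, mul_one]
      rfl
    rw [h4] at hp
    exact eq_neg_of_add_eq_zero_left hp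
  rw [h3] at h2
  rcases h2 with h2 | h2
  · exact hc0 (neg_eq_zero.1 h2)
  · rw [v_neg V hc0, hadj _ (p.coeff 0).2 hc0] at h2
    omega

end

theorem exists_tangent {L : Type} [Field L] [Algebra ℂ L] {n : ℕ} {O : ValuationSubring L}
    (V : NVal O) (hC : Cst O) (hn : Algebra.trdeg ℂ L = n) (s : Fin n → L)
    (hs : AlgebraicIndependent ℂ s) (h0 : ∀ i, V.v (s i) = 0) :
    ∃ (y : Fin n → L) (j : L), j ≠ 0 ∧ (∀ q, y q ≠ 0) ∧ W y = j • W s ∧ V.v j = 0 ∧
      1 ≤ ∑ q, V.v (y q) := by
  classical
  have hs0 : ∀ i, s i ≠ 0 := fun i => hs.ne_zero i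
  have hm : ∀ i, s i ∈ O := fun i => (V.mem _ (hs0 i)).2 (h0 i).ge
  have hne : ∀ P : MvPolynomial (Fin n) ℂ, P ≠ 0 → MvPolynomial.aeval s P ≠ 0 := by
    intro P hP h
    exact hP (hs (by rw [h, map_zero]))
  have hex : ∃ m : ℕ, ∃ P : MvPolynomial (Fin n) ℂ, P ≠ 0 ∧
      1 ≤ V.v (MvPolynomial.aeval s P) ∧ P.totalDegree = m := by
    obtain ⟨P, h1, h2⟩ := tn_ex V hC hn s hs hm
    exact ⟨_, P, h1, h2, rfl⟩
  obtain ⟨P, hP0, hP1, hPm⟩ := Nat.find_spec hex
  have hmin := fun k hk => Nat.find_min hex (m := k) hk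
  obtain ⟨i, hi⟩ : ∃ i, MvPolynomial.pderiv i P ≠ 0 := by
    by_contra hcon
    push Not at hcon
    have h1 := tn_pder P hcon
    have h2 : P.coeff 0 ≠ 0 := by
      intro h
      rw [h, map_zero] at h1
      exact hP0 h1
    rw [h1, MvPolynomial.aeval_C, v_const V hC h2] at hP1
    omega
  have hd := tn_deg P i hi
  have hvi : V.v (MvPolynomial.aeval s (MvPolynomial.pderiv i P)) = 0 := by
    have h1 := (V.mem _ (hne _ hi)).1 (tn_mem hC s hm (MvPolynomial.pderiv i P))
    by_contra hcon
    refine hmin _ (by rw [← hPm]; exact hd) ⟨_, hi, ?_, rfl⟩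
    omega
  refine ⟨Function.update s i (MvPolynomial.aeval s P),
    MvPolynomial.aeval s (MvPolynomial.pderiv i P), hne _ hi, ?_, ?_, hvi, ?_⟩
  · intro q
    by_cases hq : q = i
    · subst hq
      rw [Function.update_self]
      exact hne P hP0
    · rw [Function.update_of_ne hq]
      exact hs0 q
  · exact W_update_gen s i (MvPolynomial.aeval s P)
      (fun q => MvPolynomial.aeval s (MvPolynomial.pderiv q P)) (tn_chain s P)
  · rw [Finset.sum_eq_single i]
    · rw [Function.update_self]
      exact hP1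
    · intro q _ hq
      rw [Function.update_of_ne hq]
      exact h0 q
    · intro h
      exact absurd (Finset.mem_univ i) h

end PM
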