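import Pool.Agent.Lib.MP_23b606_ag.PM.Ly
import Pool.Agent.Lib.MP_23b606_ag.PM.Dv
import Pool.Agent.Lib.MP_23b606_ag.PM.Tn
import Pool.Agent.Lib.MP_23b606_ag.PQ.Ai

/-!
PM/Sit: the situation at a valuation of `L`. `V (h i) + r * m i + r * V (s i)` is
`r` times the logarithmic order of the factor `i`.

`nonneg`: `zero` or `low`. `base`: `v_prod`, `v_pow`, `det_ge`.
-/

set_option autoImplicit false

open T1 PQ

namespace PM

/-- What is known at a valuation of `L`. -/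
structure Sit {L : Type} [Field L] [Algebra ℂ L] {O : ValuationSubring L} (V : NVal O)
    (g : L ≃ₐ[ℂ] L) (e : ℕ) (ζ : ℂ) {n : ℕ} (σ : Equiv.Perm (Fin n)) (bl : Fin n → Fin n) (r : ℕ)
    (s h : Fin n → L) (M : Matrix (Fin n) (Fin n) L) (m : Fin n → ℤ) : Prop where
  cst : Cst O
  ine : Ine V g e ζ
  trd : Algebra.trdeg ℂ L = n
  ai : AlgebraicIndependent ℂ s
  gs : ∀ i, g (s i) = s (σ i)
  h_ne : ∀ i, h i ≠ 0
  det_ne : M.det ≠ 0
  ge : ∀ q p, Ge V (M q p) (m p)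
  gM : ∀ q p, bl (σ p) = bl p → g (M q p) = M q (σ p)
  zero : ∀ i, V.v (s i) = 0 → V.v (h i) = 0 ∧ m i = 0
  low : ∀ i, V.v (s i) ≠ 0 → (r : ℤ) ≤ V.v (h i) + r * m i + r * V.v (s i)
  par : ∀ i j, i ≠ j → σ = Equiv.swap i j → bl i = bl j → (e : ℤ) ∣ m i + m j
  one : σ = 1 → e ≠ 1 → (r : ℤ) * e ≤ ∑ i, (V.v (h i) + r * m i + r * V.v (s i))
  swap : ∀ i j, i ≠ j → σ = Equiv.swap i j →
    bl i = bl j ∨ (r : ℤ) * e ≤ 2 * ∑ i, (V.v (h i) + r * m i + r * V.v (s i))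

variable {L : Type} [Field L] [Algebra ℂ L] {O : ValuationSubring L} {V : NVal O}
    {g : L ≃ₐ[ℂ] L} {e : ℕ} {ζ : ℂ} {n : ℕ} {σ : Equiv.Perm (Fin n)}
    {bl : Fin n → Fin n} {r : ℕ} {s h : Fin n → L} {M : Matrix (Fin n) (Fin n) L} {m : Fin n → ℤ}

theorem Sit.nonneg (S : Sit V g e ζ σ bl r s h M m) (i : Fin n) :
    0 ≤ V.v (h i) + r * m i + r * V.v (s i) := by
  by_cases h1 : V.v (s i) = 0
  · obtain ⟨h2, h3⟩ := S.zero i h1
    rw [h1, h2, h3]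
    simp
  · have h2 := S.low i h1
    have h3 : (0 : ℤ) ≤ r := Int.natCast_nonneg r
    linarith

theorem Sit.s_ne (S : Sit V g e ζ σ bl r s h M m) (i : Fin n) : s i ≠ 0 := by
  exact S.ai.ne_zero i

theorem Sit.W_ne (S : Sit V g e ζ σ bl r s h M m) : W s ≠ 0 := by
  exact PQ.W_ne s S.ai

theorem Sit.val (S : Sit V g e ζ σ bl r s h M m) :
    V.v ((∏ i, h i) * M.det ^ r) = ∑ i, V.v (h i) + r * V.v M.det := by
  have h1 : ∏ i, h i ≠ 0 := Finset.prod_ne_zero_iff.2 fun i _ => S.h_ne i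
  rw [V.mul _ _ h1 (pow_ne_zero _ S.det_ne), v_prod V _ _ fun i _ => S.h_ne i,
    v_pow V S.det_ne]

theorem Sit.base (S : Sit V g e ζ σ bl r s h M m) :
    ∑ i, (V.v (h i) + r * m i + r * V.v (s i)) ≤
      V.v ((∏ i, h i) * M.det ^ r) + r * ∑ i, V.v (s i) := by
  have h1 := (det_ge S.cst M m S.ge).le S.det_ne
  have h2 : (r : ℤ) * ∑ i, m i ≤ r * V.v M.det :=
    mul_le_mul_of_nonneg_left h1 (Int.natCast_nonneg r)
  rw [S.val, Finset.sum_add_distrib, Finset.sum_add_distrib, ← Finset.mul_sum, ← Finset.mul_sum]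
  linarith

/-- The conclusion: good coordinates. -/
def Good {L : Type} [Field L] [Algebra ℂ L] {O : ValuationSubring L} (V : NVal O) (e r : ℕ)
    {n : ℕ} (s : Fin n → L) (H : L) : Prop :=
  ∃ (y : Fin n → L) (j : L), j ≠ 0 ∧ (∀ i, y i ≠ 0) ∧ W y = j • W s ∧
    (r : ℤ) * e ≤ V.v H - r * V.v j + r * ∑ i, V.v (y i)

end PM
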