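import Pool.Agent.Lib.MP_23b606_ag.PM.Dat
import Pool.Agent.Lib.MP_23b606_ag.PM.Md
import Pool.Agent.Lib.MP_23b606_ag.PM.Sit
import Pool.Agent.Lib.MP_23b606_ag.PM.Cc
import Pool.Agent.Lib.MP_23b606_ag.PM.Fp
import Pool.Agent.Lib.MP_23b606_ag.PM.Rt

/-!
PM/St: the situation at a valuation of `L`.

`sit_of`: `g = ⟨g, hg⟩`, `σ = π g`. `ai`: `alg_indep` for `t i - c i ∈ F i`. `m i` = the least value of the
`z i a`, `a < bs bl i` (`0` if `V (t i - c) = 0` for all `c`, `Cf.triv`). `ge`: the entries of `mx` are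
`0` or `z p (rk bl q)` with `rk bl q < bs bl q = bs bl p` (`rk_lt`). `det_ne`: `mx_det_ne`. `gM`: `mx_map`.
`par`: `m i = m j` (`Ine.v_map`), `g ^ 2` fixes `z i a`, `e ∣ 2 V (z i a)` (`dvd_of_pow`). `one`, `swap`:
`exists_fixedPt`, `rot_pow`, `hG`.
-/

set_option autoImplicit false

open T1 PQ IntermediateField

namespace PM

private theorem st_bs {n : ℕ} (bl : Fin n → Fin n) {p q : Fin n} (h : bl q = bl p) :
    bs bl q = bs bl p := by
  unfold bs
  rw [h]

private theorem st_tr {L : Type} [Field L] [Algebra ℂ L] {t : L} (ht : Transcendental ℂ t)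
    (c : ℂ) : Transcendental ℂ (t - algebraMap ℂ L c) := by
  intro h
  apply ht
  have h1 : t = (t - algebraMap ℂ L c) + algebraMap ℂ L c := by ring
  rw [h1]
  exact h.add (isAlgebraic_algebraMap c)

private theorem st_ne {L : Type} [Field L] [Algebra ℂ L] {t : L} (ht : Transcendental ℂ t)
    (c : ℂ) : t - algebraMap ℂ L c ≠ 0 := by
  intro h
  apply st_tr ht c
  rw [h]
  exact isAlgebraic_zero

/-- The sum over all indices and over the indices different from `i` and `j`. -/
private theorem st_sum {n : ℕ} (i j : Fin n) (hij : i ≠ j) (A : Fin n → ℤ) :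
    ∑ l, A l = A i + A j + ∑ l with l ≠ i ∧ l ≠ j, A l := by
  have h1 : ∑ l, A l = ∑ l ∈ (Finset.univ.erase i).erase j, A l + A j + A i := by
    rw [Finset.sum_erase_add _ _ (Finset.mem_erase.2 ⟨hij.symm, Finset.mem_univ _⟩),
      Finset.sum_erase_add _ _ (Finset.mem_univ _)]
  have h2 : (Finset.univ.erase i).erase j =
      Finset.univ.filter fun l : Fin n => l ≠ i ∧ l ≠ j := by
    ext l
    simp only [Finset.mem_erase, Finset.mem_filter, Finset.mem_univ, true_and, and_true]
    tauto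
  rw [h1, h2]
  ring

theorem sit_of {L : Type} [Field L] [Algebra ℂ L] {n : ℕ} {F : Fin n → IntermediateField ℂ L}
    (hF : CurveProduct F) {G : Subgroup (L ≃ₐ[ℂ] L)} [Finite G] {r : ℕ}
    {R : ∀ i, ValuationSubring (F i) → ℕ} {bl : Fin n → Fin n} (hG : Weighted F G r R bl)
    {π : G →* Equiv.Perm (Fin n)} {t h : Fin n → L} {z : Fin n → ℕ → L}
    (D : Dat F G r R bl π t h z) {O : ValuationSubring L} (V : NVal O) (hC : Cst O)
    (g : L ≃ₐ[ℂ] L) (hg : g ∈ G) (e : ℕ) (hI : Ine V g e (zt e)) :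
    ∃ (c : Fin n → ℂ) (m : Fin n → ℤ), Sit V g e (zt e) (π ⟨g, hg⟩) bl r
      (fun i => t i - algebraMap ℂ L (c i)) h (mx bl z) m := by
  classical
  obtain ⟨σ, hσ⟩ : ∃ σ : Equiv.Perm (Fin n), σ = π ⟨g, hg⟩ := ⟨_, rfl⟩
  rw [← hσ]
  have hgt : ∀ i, g (t i) = t (σ i) := fun i => by rw [hσ]; exact D.gt ⟨g, hg⟩ i
  have hgz : ∀ i a, g (z i a) = z (σ i) a := fun i a => by rw [hσ]; exact D.gz ⟨g, hg⟩ i a
  have hmaps : ∀ i x, g x ∈ F (σ i) ↔ x ∈ F i := fun i x => by
    rw [hσ]
    exact D.maps ⟨g, hg⟩ i x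
  have hmaps2 : ∀ i x, (g ^ 2) x ∈ F (σ (σ i)) ↔ x ∈ F i := fun i x => by
    rw [pow_two, AlgEquiv.mul_apply, hmaps, hmaps]
  obtain ⟨c, hcσ, hc⟩ := exists_cc hI hC t (fun i => (D.cf i).tr) σ hgt
  have hbs : ∀ i, 0 < bs bl i := fun i => lt_of_le_of_lt (Nat.zero_le _) (rk_lt bl i)
  have hz0 : ∀ i a, a < bs bl i → z i a ≠ 0 := fun i a ha =>
    (D.cf i).li.ne_zero (⟨a, ha⟩ : Fin (bs bl i))
  -- the lower bounds
  have hm : ∀ i, ∃ m : ℤ, (V.v (t i - algebraMap ℂ L (c i)) = 0 → V.v (h i) = 0 ∧ m = 0) ∧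
      (∀ a, a < bs bl i → Ge V (z i a) m) ∧ (∃ a, a < bs bl i ∧ V.v (z i a) = m) ∧
      (V.v (t i - algebraMap ℂ L (c i)) ≠ 0 →
        (r : ℤ) ≤ V.v (h i) + r * m + r * V.v (t i - algebraMap ℂ L (c i)) ∧
        (∀ d : ℤ, 0 ≤ d → (∀ x ∈ F i, x ≠ 0 → d ∣ V.v x) →
          d * R i (O.comap (algebraMap (F i) L)) ≤
            V.v (h i) + r * m + r * V.v (t i - algebraMap ℂ L (c i)))) := by
    intro i
    by_cases h0 : V.v (t i - algebraMap ℂ L (c i)) = 0
    · have htriv := (D.cf i).triv O V hC (hc i h0)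
      refine ⟨0, fun _ => ⟨htriv _ (D.cf i).h_mem (D.cf i).ne, rfl⟩, fun a ha => ?_,
        ⟨0, hbs i, htriv _ ((D.cf i).z_mem 0) (hz0 i 0 (hbs i))⟩, fun h => absurd h0 h⟩
      exact Or.inr (htriv _ ((D.cf i).z_mem a) (hz0 i a ha)).ge
    · obtain ⟨a, ha, hmin⟩ := Finset.exists_min_image (Finset.range (bs bl i))
        (fun a => V.v (z i a)) ⟨0, Finset.mem_range.2 (hbs i)⟩
      have ha' := Finset.mem_range.1 ha
      exact ⟨V.v (z i a), fun h => absurd h h0,
        fun a' ha'' => Or.inr (hmin a' (Finset.mem_range.2 ha'')), ⟨a, ha', rfl⟩,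
        fun _ => (D.cf i).low O V hC (c i) h0 a ha'⟩
  choose m hm0 hmge hmat hmlow using hm
  refine ⟨c, m, ?_⟩
  obtain ⟨A, hA⟩ : ∃ A : Fin n → ℤ, ∀ i, A i =
      V.v (h i) + r * m i + r * V.v (t i - algebraMap ℂ L (c i)) := ⟨_, fun _ => rfl⟩
  have hA0 : ∀ i, 0 ≤ A i := by
    intro i
    rw [hA]
    by_cases h0 : V.v (t i - algebraMap ℂ L (c i)) = 0
    · obtain ⟨h1, h2⟩ := hm0 i h0
      rw [h0, h1, h2]
      simp
    · exact le_trans (Int.natCast_nonneg r) (hmlow i h0).1
  have hnt : ∀ i, V.v (t i - algebraMap ℂ L (c i)) ≠ 0 → ∃ x ∈ F i, x ≠ 0 ∧ V.v x ≠ 0 :=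
    fun i h0 => ⟨_, (F i).sub_mem (D.cf i).t_mem ((F i).algebraMap_mem (c i)),
      st_ne (D.cf i).tr (c i), h0⟩
  have hgs : ∀ i, g (t i - algebraMap ℂ L (c i)) = t (σ i) - algebraMap ℂ L (c (σ i)) := by
    intro i
    rw [map_sub, hgt, AlgEquiv.commutes, hcσ]
  have hai : AlgebraicIndependent ℂ (fun i => t i - algebraMap ℂ L (c i)) :=
    alg_indep F hF.tr hF.sup hF.dim _
      (fun i => (F i).sub_mem (D.cf i).t_mem ((F i).algebraMap_mem (c i)))
      (fun i => st_tr (D.cf i).tr (c i))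
  have hMaps : ∀ i, Maps g (F i) (F (σ i)) := fun i x hx => (hmaps i x).2 hx
  -- the inequality for one factor
  have hone : ∀ (P : ∀ i, ValuationSubring (F i)) (i : Fin n) (b : ℕ) (k : ℕ) (d : ℤ),
      ((∃ x ∈ F i, x ≠ 0 ∧ V.v x ≠ 0) → P i = O.comap (algebraMap (F i) L)) → 0 ≤ d →
      (b : ℤ) ≤ k * d → (∀ x ∈ F i, x ≠ 0 → d ∣ V.v x) →
      ((∀ x ∈ F i, x ≠ 0 → V.v x = 0) → b = 0) → (b : ℤ) * R i (P i) ≤ k * A i := by
    intro P i b k d hPO hd hb hdv hb0
    by_cases h0 : V.v (t i - algebraMap ℂ L (c i)) = 0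
    · rw [hb0 ((D.cf i).triv O V hC (hc i h0))]
      rw [Nat.cast_zero, zero_mul]
      exact mul_nonneg (Int.natCast_nonneg k) (hA0 i)
    · have h1 := (hmlow i h0).2 d hd hdv
      rw [hPO (hnt i h0)]
      rw [← hA] at h1
      have h2 : (0 : ℤ) ≤ R i (O.comap (algebraMap (F i) L)) := Int.natCast_nonneg _
      calc (b : ℤ) * R i (O.comap (algebraMap (F i) L))
          ≤ (k * d) * R i (O.comap (algebraMap (F i) L)) := mul_le_mul_of_nonneg_right hb h2
        _ = k * (d * R i (O.comap (algebraMap (F i) L))) := by ring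
        _ ≤ k * A i := mul_le_mul_of_nonneg_left h1 (Int.natCast_nonneg k)
  exact {
    cst := hC
    ine := hI
    trd := hF.dim
    ai := hai
    gs := hgs
    h_ne := fun i => (D.cf i).ne
    det_ne := mx_det_ne F hF bl z (fun i a => (D.cf i).z_mem a) fun i => (D.cf i).li
    ge := by
      intro q p
      unfold mx
      rw [Matrix.of_apply]
      split_ifs with hqp
      · refine hmge p _ ?_
        rw [← st_bs bl hqp]
        exact rk_lt bl q
      · exact Ge.zero V _
    gM := fun q p hp => mx_map bl z σ (g : L →+* L) hgz q p hp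
    zero := fun i h0 => hm0 i h0
    low := fun i h0 => (hmlow i h0).1
    par := by
      intro i j hij h1 hbl
      have hσi : σ i = j := by rw [h1, Equiv.swap_apply_left]
      have hσj : σ j = i := by rw [h1, Equiv.swap_apply_right]
      have hbij : bs bl i = bs bl j := st_bs bl hbl
      obtain ⟨a, ha, ham⟩ := hmat i
      obtain ⟨a', ha', ham'⟩ := hmat j
      have h2 : m j ≤ m i := by
        have h3 := (hmge j a (by rw [← hbij]; exact ha)).le (hz0 j a (by rw [← hbij]; exact ha))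
        have h4 := hgz i a
        rw [hσi] at h4
        rwa [← h4, hI.v_map hC (hz0 i a ha), ham] at h3
      have h3 : m i ≤ m j := by
        have h3 := (hmge i a' (by rw [hbij]; exact ha')).le (hz0 i a' (by rw [hbij]; exact ha'))
        have h4 := hgz j a'
        rw [hσj] at h4
        rwa [← h4, hI.v_map hC (hz0 j a' ha'), ham'] at h3
      have h4 : (g ^ 2) (z i a) = z i a := by
        rw [pow_two, AlgEquiv.mul_apply, hgz, hgz, hσi, hσj]
      have h5 := hI.dvd_of_pow hC 2 (hz0 i a ha) h4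
      have h6 : m i + m j = ((2 : ℕ) : ℤ) * V.v (z i a) := by
        rw [ham, le_antisymm h2 h3]
        push_cast
        ring
      rw [h6]
      exact h5
    one := by
      intro h1 he
      have hg1 : g ≠ 1 := fun h => he (hI.one_of_eq hC h)
      have hM : ∀ i, Maps g (F i) (F i) := fun i => by
        have h2 := hMaps i
        rwa [h1, Equiv.Perm.one_apply] at h2
      obtain ⟨P, hP, hPO⟩ := exists_fixedPt hF hI hC σ hmaps fun i => by
        rw [h1, Equiv.Perm.one_apply, Equiv.Perm.one_apply]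
      have hrot := fun i => rot_pow hI hC (F i) 1 (fun x hx => by
        rw [pow_one]
        exact hM i x hx) (P i) (hP.place i) (hPO i)
      choose b d hb hd hbd hdv hb0 using hrot
      have h2 := hG.one g hg hg1 hM P hP e b fun i => by
        have h3 := hb i
        rwa [pow_one] at h3
      have h3 : (r : ℤ) * e ≤ ∑ i, (b i : ℤ) * R i (P i) := by exact_mod_cast h2
      refine h3.trans (Finset.sum_le_sum fun i _ => ?_)
      have h4 := hone P i (b i) 1 (d i) (hPO i) (hd i) (hbd i) (hdv i) (hb0 i)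
      rw [Nat.cast_one, one_mul, hA] at h4
      exact h4
    swap := by
      intro i j hij h1
      have hM : ∀ l, Maps g (F l) (F (Equiv.swap i j l)) := fun l => by
        have h2 := hMaps l
        rwa [h1] at h2
      have hσi : σ i = j := by rw [h1, Equiv.swap_apply_left]
      have hσj : σ j = i := by rw [h1, Equiv.swap_apply_right]
      obtain ⟨P, hP, hPO⟩ := exists_fixedPt hF hI hC σ hmaps fun l => by
        rw [h1, Equiv.swap_apply_self]
      obtain ⟨b, d, hb, hd, hbd, hdv, hb0⟩ := rot_pow hI hC (F i) 2 (fun x hx => by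
        have h2 := (hmaps2 i x).2 hx
        rwa [hσi, hσj] at h2) (P i) (hP.place i) (hPO i)
      have hrot : ∀ l, ∃ (a : ℕ) (d : ℤ), l ≠ i → l ≠ j → (Rot g (P l) a e ∧ 0 ≤ d ∧
          (a : ℤ) ≤ d ∧ (∀ x ∈ F l, x ≠ 0 → d ∣ V.v x) ∧
            ((∀ x ∈ F l, x ≠ 0 → V.v x = 0) → a = 0)) := by
        intro l
        by_cases hl : l ≠ i ∧ l ≠ j
        · obtain ⟨a, d, h3, h4, h5, h6, h7⟩ := rot_pow hI hC (F l) 1 (fun x hx => by
            rw [pow_one]
            have h2 := hM l x hx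
            rwa [Equiv.swap_apply_of_ne_of_ne hl.1 hl.2] at h2) (P l) (hP.place l) (hPO l)
          rw [pow_one] at h3
          rw [Nat.cast_one, one_mul] at h5
          exact ⟨a, d, fun _ _ => ⟨h3, h4, h5, h6, h7⟩⟩
        · exact ⟨0, 0, fun h2 h3 => absurd ⟨h2, h3⟩ hl⟩
      choose a d' hrot using hrot
      rcases hG.swap g hg i j hij hM P hP e b a hb (fun l h2 h3 => (hrot l h2 h3).1) with h2 | h2
      · exact Or.inl h2
      · right
        have h3 : (r : ℤ) * e ≤ 2 * ((b : ℤ) * R i (P i) +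
            ∑ l with l ≠ i ∧ l ≠ j, (a l : ℤ) * R l (P l)) := by exact_mod_cast h2
        have h4 : ∑ l with l ≠ i ∧ l ≠ j, (a l : ℤ) * R l (P l) ≤
            ∑ l with l ≠ i ∧ l ≠ j, A l := by
          refine Finset.sum_le_sum fun l hl => ?_
          obtain ⟨-, hli, hlj⟩ := Finset.mem_filter.1 hl
          obtain ⟨-, h5, h6, h7, h8⟩ := hrot l hli hlj
          have h9 := hone P l (a l) 1 (d' l) (hPO l) h5 (by rwa [Nat.cast_one, one_mul]) h7 h8
          rwa [Nat.cast_one, one_mul] at h9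
        have h5 : (b : ℤ) * R i (P i) ≤ A i + A j := by
          by_cases h0 : V.v (t i - algebraMap ℂ L (c i)) = 0
          · rw [hb0 ((D.cf i).triv O V hC (hc i h0)), Nat.cast_zero, zero_mul]
            exact add_nonneg (hA0 i) (hA0 j)
          · have h6 := (hmlow i h0).2 d hd hdv
            have hs : V.v (t j - algebraMap ℂ L (c j)) = V.v (t i - algebraMap ℂ L (c i)) := by
              have h7 := hgs i
              rw [hσi] at h7
              rw [← h7]
              exact hI.v_map hC (st_ne (D.cf i).tr (c i))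
            have h0j : V.v (t j - algebraMap ℂ L (c j)) ≠ 0 := by rwa [hs]
            have h7 := (hmlow j h0j).2 d hd fun x hx hx0 => by
              have h8 : g x ∈ F i := by
                have h9 := (hmaps j x).2 hx
                rwa [hσj] at h9
              rw [← hI.v_map hC hx0]
              exact hdv _ h8 fun h9 => hx0 ((map_eq_zero g).1 h9)
            have hMij : Maps g (F i) (F j) := by
              have h8 := hMaps i
              rwa [hσi] at h8
            have h8 : R i (P i) = R j (P j) :=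
              hG.orbit g hg i j hMij (P i) (P j) (hP.place i) (hP.place j) (hP.fix i j hMij)
            rw [← hPO i (hnt i h0), ← hA] at h6
            rw [← hPO j (hnt j h0j), ← hA, ← h8] at h7
            have h9 : (0 : ℤ) ≤ R i (P i) := Int.natCast_nonneg _
            have h10 : (b : ℤ) * R i (P i) ≤ (((2 : ℕ) : ℤ) * d) * R i (P i) :=
              mul_le_mul_of_nonneg_right hbd h9
            push_cast at h10
            linarith
        have h6 := st_sum i j hij A
        have h7 : ∑ l, (V.v (h l) + r * m l + r * V.v (t l - algebraMap ℂ L (c l))) =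
            ∑ l, A l := Finset.sum_congr rfl fun l _ => (hA l).symm
        rw [h7, h6]
        linarith }

end PM
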