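import Pool.Agent.Lib.MP_23b606_ag.PM.Rg
import Pool.Agent.Lib.MP_23b606_ag.PM.Ie
import Pool.Agent.Lib.MP_23b606_ag.PM.Iv
import Pool.Agent.Lib.MP_23b606_ag.PM.Sg
import Pool.Agent.Lib.MP_23b606_ag.PM.St

/-! PM/Main: assembly. -/

set_option autoImplicit false

open T1 PQ IntermediateField

namespace PM

theorem top_fg {L : Type} [Field L] [Algebra ℂ L] {n : ℕ} (F : Fin n → IntermediateField ℂ L)
    (hF : CurveProduct F) : (⊤ : IntermediateField ℂ L).FG := by
  rw [← hF.sup]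
  exact IntermediateField.fg_iSup hF.fg

/-- `K` has a transcendence basis, it is one of `L`. -/
theorem exists_base {L : Type} [Field L] [Algebra ℂ L] (K : IntermediateField ℂ L) {n : ℕ}
    (hK : Algebra.trdeg ℂ K = n) :
    ∃ x : Fin n → K, W x ≠ 0 ∧ W (fun i => (x i : L)) ≠ 0 := by
  obtain ⟨s, hs⟩ := exists_isTranscendenceBasis ℂ K
  have h1 : Cardinal.mk s = n := by rw [hs.cardinalMk_eq_trdeg, hK]
  have h2 : Finite s := Cardinal.mk_lt_aleph0_iff.1 (by rw [h1]; exact Cardinal.natCast_lt_aleph0)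
  have h3 : Nat.card s = n := by
    rw [Nat.card, h1, Cardinal.toNat_natCast]
  let φ : Fin n ≃ s := (Finite.equivFinOfCardEq h3).symm
  have h4 : AlgebraicIndependent ℂ (fun i : Fin n => ((φ i : s) : K)) :=
    hs.1.comp φ φ.injective
  refine ⟨fun i => (φ i : s), W_ne _ h4, W_ne _ ?_⟩
  exact h4.map' (f := K.val) K.val.injective

theorem main {L : Type} [Field L] [Algebra ℂ L] {n : ℕ} (F : Fin n → IntermediateField ℂ L)
    (hF : CurveProduct F) (hr : ∀ i, ¬ Rational (F i)) (G : Subgroup (L ≃ₐ[ℂ] L)) [Finite G]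
    (r : ℕ) (R : ∀ i, ValuationSubring (F i) → ℕ) (bl : Fin n → Fin n)
    (hG : Weighted F G r R bl) :
    ∃ (x : Fin n → fixedField G) (g : fixedField G), W x ≠ 0 ∧ g ≠ 0 ∧
      ∀ O : ValuationSubring (fixedField G), IsDiv n O → RegAt O x r g := by
  obtain ⟨x, hx, hxL⟩ := exists_base (fixedField G) (trdeg_fixed G hF.dim)
  obtain ⟨π, t, h, z, D⟩ := exists_dat F hF hr G r R bl hG
  have hai : AlgebraicIndependent ℂ t :=
    alg_indep F hF.tr hF.sup hF.dim t (fun i => (D.cf i).t_mem) (fun i => (D.cf i).tr)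
  have hWt : W t ≠ 0 := W_ne t hai
  obtain ⟨J, hJ⟩ := exists_smul_W hF.dim t (fun i => (x i : L)) hxL
  have hJ0 : J ≠ 0 := by
    rintro rfl
    rw [zero_smul] at hJ
    exact hWt hJ
  have hdet : (mx bl z).det ≠ 0 :=
    mx_det_ne F hF bl z (fun i a => (D.cf i).z_mem a) fun i => (D.cf i).li
  have hh : ∏ i, h i ≠ 0 := Finset.prod_ne_zero_iff.2 fun i _ => (D.cf i).ne
  have hH : (∏ i, h i) * (mx bl z).det ^ r ≠ 0 := mul_ne_zero hh (pow_ne_zero _ hdet)
  refine ⟨x, ⟨_, inv_mem D hG.even hF.dim x hxL J hJ⟩, hx, ?_, ?_⟩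
  · intro h0
    exact mul_ne_zero hH (pow_ne_zero r hJ0) (congrArg Subtype.val h0)
  · intro O hO
    obtain ⟨V⟩ := exists_nval O hO.1
    have hC := cst_of_isDiv hO
    obtain ⟨O', V', e, g₀, ζ, hg₀, hC', hV, hI₀⟩ := exists_ine G V hC
    obtain ⟨k, hI⟩ := ine_norm hI₀ hC'
    obtain ⟨c, m, S⟩ := sit_of hF hG D V' hC' _ (G.pow_mem hg₀ k) e hI
    obtain ⟨y, j, hj, hy, hyW, hle⟩ := good S
    rw [W_sub] at hyW
    have hfin := finite_fixed G
    rcases n with _ | n
    · -- `n = 0` is impossible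
      exfalso
      have h1 := S.trd
      have h2 : Algebra.IsAlgebraic ℂ L := by
        rw [← trdeg_eq_zero_iff, h1]
        exact Nat.cast_zero
      have h3 : Algebra.IsIntegral ℂ L := Algebra.isAlgebraic_iff_isIntegral.1 h2
      obtain ⟨c, hc⟩ := (IsAlgClosed.algebraMap_bijective_of_isIntegral (k := ℂ)).2 V'.π
      have h4 : c ≠ 0 := by
        rintro rfl
        rw [map_zero] at hc
        exact V'.hπ hc.symm
      have h5 := v_const V' hC' h4
      rw [hc, V'.vπ] at h5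
      exact one_ne_zero h5
    · exact regAt_of_up r (fixedField G) (top_fg F hF) hF.dim x hx t J _ hJ hJ0 hH _ rfl hO V V'
        e (by exact_mod_cast hI.pos) hV y j hj hy hyW hle

end PM
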