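import Pool.Agent.Lib.MP_23b606_ag.PM.Eg

/-!
PM/Nm: the generator of the inertia group which acts by `exp (2 π i / e)`: a power of any generator.
-/

set_option autoImplicit false

open T1 PQ

namespace PM

/-- The primitive root of unity. -/
noncomputable def zt (e : ℕ) : ℂ := Complex.exp (2 * Real.pi * Complex.I / e)

theorem zt_pow (e : ℕ) (he : 1 ≤ e) (k : ℕ) :
    zt e ^ k = Complex.exp (2 * Real.pi * Complex.I * (((k % e : ℕ) : ℂ) / e)) := by
  have h0 : (e : ℂ) ≠ 0 := by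
    rw [Ne, Nat.cast_eq_zero]
    omega
  have h1 : zt e ^ e = 1 := (Complex.isPrimitiveRoot_exp e (by omega)).pow_eq_one
  have h2 : zt e ^ k = zt e ^ (k % e) := by
    conv_lhs => rw [← Nat.div_add_mod k e]
    rw [pow_add, pow_mul, h1, one_pow, one_mul]
  rw [h2, zt, ← Complex.exp_nat_mul]
  congr 1
  field_simp

theorem ine_norm {L : Type} [Field L] [Algebra ℂ L] {O : ValuationSubring L} {V : NVal O}
    {g : L ≃ₐ[ℂ] L} {e : ℕ} {ζ : ℂ} (h : Ine V g e ζ) (hC : Cst O) :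
    ∃ k : ℕ, Ine V (g ^ k) e (zt e) := by
  have he : e ≠ 0 := by
    have := h.pos
    omega
  have : NeZero e := ⟨he⟩
  have h1 : IsPrimitiveRoot (zt e) e := Complex.isPrimitiveRoot_exp e he
  obtain ⟨k, -, hk⟩ := h.prim.eq_pow_of_pow_eq_one h1.pow_eq_one
  refine ⟨k, h.pos, h1, ?_, fun x hx => ?_⟩
  · rw [← pow_mul, mul_comm, pow_mul, h.pow, one_pow]
  · have h2 := h.key_pow hC k hx
    rwa [zpow_mul, zpow_natCast, hk] at h2

end PM
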