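import Pool.Agent.Lib.MP_23b606_ag.PM.Lg
import Pool.Agent.Lib.MP_23b606_ag.PM.Du

/-!
PM/Rg: a form on `K` which has a large logarithmic order at `V'` on `L` is regular at `V`.

Proof: `u` from `hO.2` (`V` of the nonzero polynomials in `u` is `0`: `valuation_eq_one_iff`), `a = (V.π, u)`,
`a ∈ O`. The `a i` are algebraically independent (a nonzero polynomial `∑ p_j(u) π^j` has value `min j`).
`L / ℂ(a)` is algebraic (`trdeg L = m + 1`) and `L` is finitely generated, so finite
(`Algebra.finite_of_essFiniteType_of_isAlgebraic`, see `crv_of_fg` in `PQ/Crvs.lean`). `E` from `exists_dual`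
for `a` in `L`. `W a = j' • W x` on `K` with `j' ≠ 0`. `J_a = jac E t`: `W t = J_a • W a` in `L`, so
`J = J_a * j'` (the `W` of elements of `K` in `L`: take jacobians, `jac_eq_of_W`, or derivations of `L`
which map `K` to `K`; simplest: `jac E` on both sides, `jac E a = 1`, `jac E x * j' = 1`, where
`jac E` of elements of `K` restricts to derivations `K → K`: the `E i` map `K` to `K`, as `K / ℂ(a)` is
algebraic; or map `Ω[K⁄ℂ] → Ω[L⁄ℂ]`, `KaehlerDifferential.map`). `c = g / j' ^ r ∈ K`, `c = H * J_a ^ r` in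
`L`, `g = c * j' ^ r`. To show: `c ∈ O`, that is `0 ≤ V' c = e V c`. `jac E y = j * jac E t`, and by `log_dual`
`Ge V' (a 0 * jac E y) (∑ V' (y i))` (expand the determinant, multiply the row `0` by `a 0`), so
`V' j + V' J_a + e ≥ ∑ V' (y i)` (`V' (a 0) = e`), `V' c = V' H + r V' J_a ≥ 0` by `h`.
-/

set_option autoImplicit false

open T1 PQ

namespace PM

section

variable {K : Type} [Field K] [Algebra ℂ K] {m : ℕ} {O : ValuationSubring K}

/-- A uniformiser and independent residues are algebraically independent. -/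
private theorem rg_ai (V : NVal O) (u : Fin m → K)
    (hu : ∀ p : MvPolynomial (Fin m) ℂ, p ≠ 0 → MvPolynomial.aeval u p ≠ 0 ∧
      V.v (MvPolynomial.aeval u p) = 0) :
    AlgebraicIndependent ℂ (Fin.cons V.π u : Fin (m + 1) → K) := by
  have hui : AlgebraicIndependent ℂ u := by
    rw [algebraicIndependent_iff]
    intro p hp
    by_contra hcon
    exact (hu p hcon).1 hp
  have hadj : ∀ a : K, a ∈ Algebra.adjoin ℂ (Set.range u) → a ≠ 0 → V.v a = 0 := by
    intro a ha ha0
    rw [Algebra.adjoin_range_eq_range_aeval] at ha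
    obtain ⟨P, rfl⟩ := ha
    refine (hu P ?_).2
    rintro rfl
    exact ha0 (map_zero _)
  have htr : Transcendental (Algebra.adjoin ℂ (Set.range u)) V.π := by
    intro hx
    obtain ⟨p, hp0, hp⟩ := hx.exists_nonzero_coeff_and_aeval_eq_zero
      (mem_nonZeroDivisors_of_ne_zero V.hπ)
    rw [Polynomial.aeval_eq_sum_range, Finset.sum_range_succ'] at hp
    have hc0 : ((p.coeff 0 : Algebra.adjoin ℂ (Set.range u)) : K) ≠ 0 := by
      intro h
      exact hp0 (Subtype.ext h)
    have h2 := v_sum_ge V (Finset.range p.natDegree) (fun i => p.coeff (i + 1) • V.π ^ (i + 1)) 1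
      (by
        intro i _
        by_cases hi : p.coeff (i + 1) = 0
        · left
          rw [hi, zero_smul]
        · right
          have hi' : ((p.coeff (i + 1) : Algebra.adjoin ℂ (Set.range u)) : K) ≠ 0 :=
            fun h => hi (Subtype.ext h)
          have h3 : p.coeff (i + 1) • V.π ^ (i + 1) =
              ((p.coeff (i + 1) : Algebra.adjoin ℂ (Set.range u)) : K) * V.π ^ (i + 1) :=
            Algebra.smul_def _ _
          rw [h3, V.mul _ _ hi' (pow_ne_zero _ V.hπ), v_pow V V.hπ, V.vπ,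
            hadj _ (p.coeff (i + 1)).2 hi']
          omega)
    have h3 : ∑ i ∈ Finset.range p.natDegree, p.coeff (i + 1) • V.π ^ (i + 1) =
        - ((p.coeff 0 : Algebra.adjoin ℂ (Set.range u)) : K) := by
      rw [pow_zero] at hp
      have h4 : p.coeff 0 • (1 : K) = ((p.coeff 0 : Algebra.adjoin ℂ (Set.range u)) : K) := by
        rw [Algebra.smul_def, mul_one]
        rfl
      rw [h4] at hp
      exact eq_neg_of_add_eq_zero_left hp
    rw [h3] at h2
    rcases h2 with h2 | h2
    · exact hc0 (neg_eq_zero.1 h2)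
    · rw [v_neg V hc0, hadj _ (p.coeff 0).2 hc0] at h2
      omega
  have h1 := (hui.option_iff_transcendental V.π).2 htr
  refine (algebraicIndependent_equiv' (finSuccEquiv m) ?_).2 h1
  funext i
  refine Fin.cases ?_ (fun i => ?_) i
  · rw [Function.comp_apply, finSuccEquiv_zero, Fin.cons_zero]
    rfl
  · rw [Function.comp_apply, finSuccEquiv_succ, Fin.cons_succ]
    rfl

/-- The determinant of logarithmic derivations. -/
private theorem rg_det {L : Type} [Field L] [Algebra ℂ L] {P : ValuationSubring L} (V : NVal P)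
    (hC : Cst P) (M : Matrix (Fin m) (Fin m) L) (c : Fin m → ℤ)
    (h : ∀ i k, Ge V (M i k) (c k)) : Ge V M.det (∑ k, c k) := by
  classical
  rw [Matrix.det_apply]
  refine Ge.sum _ _ _ fun σ _ => ?_
  have h1 : Ge V (∏ i, M (σ i) i) (∑ k, c k) := Ge.prod _ _ _ fun i _ => h (σ i) i
  have h2 : (Equiv.Perm.sign σ • ∏ i, M (σ i) i : L) =
      (((Equiv.Perm.sign σ : ℤˣ) : ℤ) : L) * ∏ i, M (σ i) i := by
    rw [Units.smul_def, zsmul_eq_mul]
  rw [h2]
  have h3 := (ge_intCast (V := V) hC ((Equiv.Perm.sign σ : ℤˣ) : ℤ)).mul h1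
  rwa [zero_add] at h3

end

theorem regAt_of_up {L : Type} [Field L] [Algebra ℂ L] {m : ℕ} (r : ℕ) (K : IntermediateField ℂ L)
    [FiniteDimensional K L] (hfg : (⊤ : IntermediateField ℂ L).FG)
    (hn : Algebra.trdeg ℂ L = (m + 1 : ℕ)) (x : Fin (m + 1) → K) (hx : W x ≠ 0)
    (t : Fin (m + 1) → L) (J H : L) (hJ : W t = J • W (fun i => (x i : L))) (hJ0 : J ≠ 0)
    (hH : H ≠ 0) (g : K) (hg : (g : L) = H * J ^ r) {O : ValuationSubring K}
    (hO : IsDiv (m + 1) O) (V : NVal O) {O' : ValuationSubring L} (V' : NVal O') (e : ℤ)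
    (he : 1 ≤ e) (hV : ∀ x : K, x ≠ 0 → V'.v (x : L) = e * V.v x) (y : Fin (m + 1) → L) (j : L)
    (hj : j ≠ 0) (hy : ∀ i, y i ≠ 0) (hyW : W y = j • W t)
    (h : r * e ≤ V'.v H - r * V'.v j + r * ∑ i, V'.v (y i)) : RegAt O x r g := by
  classical
  have hCO : Cst O := cst_of_isDiv hO
  have hcoe0 : ∀ z : K, z ≠ 0 → (z : L) ≠ 0 := fun z hz h0 => hz (Subtype.ext h0)
  have hCO' : Cst O' := by
    intro c
    by_cases hc : c = 0
    · rw [hc, map_zero]
      exact O'.zero_mem
    · have h1 : algebraMap ℂ K c ≠ 0 := (map_ne_zero _).2 hc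
      have h2 := hV _ h1
      rw [v_const V hCO hc, mul_zero] at h2
      exact (V'.mem _ ((map_ne_zero _).2 hc)).2 h2.ge
  obtain ⟨-, u, hu⟩ := hO
  have hu' : ∀ p : MvPolynomial (Fin m) ℂ, p ≠ 0 → MvPolynomial.aeval (u : Fin m → K) p ≠ 0 ∧
      V.v (MvPolynomial.aeval (u : Fin m → K) p) = 0 := by
    intro p hp
    have h1 : O.valuation (MvPolynomial.aeval (u : Fin m → K) p) = 1 := hu p hp
    have h2 : MvPolynomial.aeval (u : Fin m → K) p ≠ 0 := by
      intro h0
      rw [h0, map_zero] at h1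
      exact zero_ne_one h1
    exact ⟨h2, (valuation_eq_one_iff V h2).1 h1⟩
  have huO : ∀ i : Fin m, (u : Fin m → K) i ∈ O := by
    intro i
    have h1 := hu' (MvPolynomial.X i) (MvPolynomial.X_ne_zero i)
    rw [MvPolynomial.aeval_X] at h1
    exact (V.mem _ h1.1).2 h1.2.ge
  obtain ⟨a, ha⟩ : ∃ a : Fin (m + 1) → K, a = Fin.cons V.π (u : Fin m → K) := ⟨_, rfl⟩
  have ha0 : a 0 = V.π := by rw [ha, Fin.cons_zero]
  have has : ∀ i : Fin m, a i.succ = (u : Fin m → K) i := fun i => by rw [ha, Fin.cons_succ]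
  have haO : ∀ i, a i ∈ O := by
    intro i
    refine Fin.cases ?_ (fun i => ?_) i
    · rw [ha0]
      exact (V.mem _ V.hπ).2 (by rw [V.vπ]; exact zero_le_one)
    · rw [has]
      exact huO i
  have hai : AlgebraicIndependent ℂ a := by
    rw [ha]
    exact rg_ai V _ hu'
  have hWa : W a ≠ 0 := W_ne a hai
  have hnK : Algebra.trdeg ℂ K = (m + 1 : ℕ) := by
    have h1 := trdeg_add_eq ℂ K (A := L)
    rw [hn, trdeg_eq_zero (R := K) (A := L), add_zero] at h1
    exact h1
  obtain ⟨EK, hEK⟩ := exists_dual a hai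
  have hWx := W_of_dual hnK a hai EK hEK x
  have hJK0 : jac EK x ≠ 0 := by
    intro h0
    rw [h0, zero_smul] at hWx
    exact hx hWx
  obtain ⟨JK, hJK⟩ : ∃ JK : K, JK = jac EK x := ⟨_, rfl⟩
  rw [← hJK] at hWx hJK0
  have hWax : W a = JK⁻¹ • W x := by
    rw [hWx, smul_smul, inv_mul_cancel₀ hJK0, one_smul]
  obtain ⟨a', ha'⟩ : ∃ a' : Fin (m + 1) → L, a' = fun i => (a i : L) := ⟨_, rfl⟩
  have hai' : AlgebraicIndependent ℂ a' := by
    rw [ha']
    exact hai.map' (f := K.val) K.val.injective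
  have hWa' : W a' ≠ 0 := W_ne a' hai'
  have hfin : FiniteDimensional (IntermediateField.adjoin ℂ (Set.range a')) L := by
    have h1 : Algebra.EssFiniteType ℂ L := IntermediateField.fg_top_iff.1 hfg
    have h2 : Algebra.EssFiniteType (IntermediateField.adjoin ℂ (Set.range a')) L :=
      Algebra.EssFiniteType.of_comp ℂ _ L
    have h3 : IsTranscendenceBasis ℂ a' := by
      refine hai'.isTranscendenceBasis_of_trdeg_le_of_finite ?_
      rw [hn, Cardinal.mk_fin]
    have h4 : Algebra.IsAlgebraic (IntermediateField.adjoin ℂ (Set.range a')) L :=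
      h3.isAlgebraic_field
    exact Algebra.finite_of_essFiniteType_of_isAlgebraic
  obtain ⟨E, hE⟩ := exists_dual a' hai'
  have hEx : ∀ i (z : K), E i (z : L) = ((EK i z : K) : L) := by
    intro i z
    have h1 := T4.der_base (K := L) hnK a EK hEK (E i) z
    have h2 : ∀ s : Fin (m + 1), algebraMap K L (EK s z) * E i (algebraMap K L (a s)) =
        if i = s then algebraMap K L (EK s z) else 0 := by
      intro s
      have h3 : E i (algebraMap K L (a s)) = if i = s then 1 else 0 := by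
        rw [← hE i s, ha']
        rfl
      rw [h3, mul_ite, mul_one, mul_zero]
    rw [Finset.sum_congr rfl fun s _ => h2 s, Finset.sum_ite_eq Finset.univ i,
      if_pos (Finset.mem_univ i)] at h1
    exact h1
  have hjx : jac E (fun i => (x i : L)) = (JK : L) := by
    rw [hJK]
    unfold jac
    have h1 : ((Matrix.of fun i k => EK i (x k)).map (algebraMap K L)) =
        Matrix.of fun i k => E i (x k : L) := by
      ext i k
      rw [Matrix.map_apply, Matrix.of_apply, Matrix.of_apply, hEx]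
      rfl
    rw [← h1]
    exact (RingHom.map_det (algebraMap K L) _).symm
  have hWx' := W_of_dual hn a' hai' E hE (fun i => (x i : L))
  rw [hjx] at hWx'
  obtain ⟨Ja, hJa⟩ : ∃ Ja : L, Ja = J * (JK : L) := ⟨_, rfl⟩
  have hJa0 : Ja ≠ 0 := by
    rw [hJa]
    exact mul_ne_zero hJ0 (hcoe0 _ hJK0)
  have hWt : W t = Ja • W a' := by
    rw [hJ, hWx', smul_smul, hJa]
  have hjy : jac E y = j * Ja := by
    have h1 := W_of_dual hn a' hai' E hE y
    rw [hyW, hWt, smul_smul] at h1
    exact (smul_left_injective L hWa' h1).symm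
  have ha00 : a' 0 = (V.π : L) := by rw [ha', ← ha0]
  have hva : V'.v (a' 0) = e := by
    rw [ha00, hV _ V.hπ, V.vπ, mul_one]
  have ha'0 : a' 0 ≠ 0 := by
    rw [ha00]
    exact hcoe0 _ V.hπ
  have hu'' : ∀ p : MvPolynomial (Fin m) ℂ, p ≠ 0 →
      MvPolynomial.aeval (fun i => a' (Fin.succ i)) p ≠ 0 ∧
        V'.v (MvPolynomial.aeval (fun i => a' (Fin.succ i)) p) = 0 := by
    intro p hp
    have h1 : MvPolynomial.aeval (fun i => a' (Fin.succ i)) p =
        ((MvPolynomial.aeval (u : Fin m → K) p : K) : L) := by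
      have h2 : (fun i : Fin m => a' (Fin.succ i)) = fun i => K.val ((u : Fin m → K) i) := by
        funext i
        rw [ha']
        show ((a i.succ : K) : L) = _
        rw [has]
        rfl
      rw [h2]
      exact (MvPolynomial.comp_aeval_apply (f := (u : Fin m → K)) K.val p).symm
    obtain ⟨h2, h3⟩ := hu' p hp
    rw [h1]
    exact ⟨hcoe0 _ h2, by rw [hV _ h2, h3, mul_zero]⟩
  have hlog := fun k => log_dual a' V' hCO' ha'0 (by rw [hva]; omega) hu'' E hE (y k) (hy k)
  have hdet : Ge V' (a' 0 * jac E y) (∑ i, V'.v (y i)) := by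
    have h1 := Matrix.det_mul_column (fun i : Fin (m + 1) => if i = 0 then a' 0 else 1)
      (Matrix.of fun i k => E i (y k))
    have h2 : (∏ i : Fin (m + 1), if i = 0 then a' 0 else 1) = a' 0 := by
      rw [Finset.prod_ite_eq' Finset.univ, if_pos (Finset.mem_univ _)]
    rw [h2] at h1
    have h3 : a' 0 * jac E y = a' 0 * (Matrix.of fun i k => E i (y k)).det := rfl
    rw [h3, ← h1]
    refine rg_det V' hCO' _ _ fun i k => ?_
    rw [Matrix.of_apply, Matrix.of_apply]
    refine Fin.cases ?_ (fun i => ?_) i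
    · rw [if_pos rfl]
      exact (hlog k).1
    · rw [if_neg (Fin.succ_ne_zero i), one_mul]
      exact (hlog k).2 i
  have hv1 := hdet.le (mul_ne_zero ha'0 (by rw [hjy]; exact mul_ne_zero hj hJa0))
  rw [V'.mul _ _ ha'0 (by rw [hjy]; exact mul_ne_zero hj hJa0), hjy, V'.mul _ _ hj hJa0, hva] at hv1
  have hg0 : g ≠ 0 := by
    intro h0
    rw [h0] at hg
    exact mul_ne_zero hH (pow_ne_zero r hJ0) hg.symm
  refine ⟨a, g * JK ^ r, JK⁻¹, haO, ?_, hWax, ?_⟩
  · have hc0 : g * JK ^ r ≠ 0 := mul_ne_zero hg0 (pow_ne_zero r hJK0)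
    rw [V.mem _ hc0]
    have h1 := hV _ hc0
    have h2 : ((g * JK ^ r : K) : L) = H * Ja ^ r := by
      have h3 : ((g * JK ^ r : K) : L) = (g : L) * (JK : L) ^ r := by push_cast; rfl
      rw [h3, hg, hJa, mul_pow, mul_assoc]
    rw [h2, V'.mul _ _ hH (pow_ne_zero r hJa0), v_pow V' hJa0] at h1
    push_cast at h1
    by_contra hcon
    push Not at hcon
    have h4 : e * V.v (g * JK ^ r) < 0 := mul_neg_of_pos_of_neg (by omega) hcon
    have h5 := mul_le_mul_of_nonneg_left hv1 (Int.natCast_nonneg r)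
    linarith
  · rw [mul_assoc, ← mul_pow, mul_inv_cancel₀ hJK0, one_pow, mul_one]

end PM
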