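import Pool.Agent.Lib.MP_23b606_ag.PM.Sit

/-!
PM/Sc: the cases. `A i` = `V (h i) + r * m i + r * V (s i)`, all `A i ≥ 0` (`Sit.nonneg`).

`good_unram` (`e = 1`): if some `V (s i) ≠ 0`: `y = s`, `j = 1`, `A i ≥ r` (`low`), `base`. Otherwise all
`V (s i) = 0`, so `m i = 0`, `V (h i) = 0`, `V H ≥ 0` (`base`) and `exists_tangent`.
`good_one` (`σ = 1`, `e ≠ 1`): `y = s`, `j = 1`.
`good_other`: `y_full`, `j = c` of value `0` (`v_const`).
-/

set_option autoImplicit false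

open T1 PQ

namespace PM

variable {L : Type} [Field L] [Algebra ℂ L] {O : ValuationSubring L} {V : NVal O}
    {g : L ≃ₐ[ℂ] L} {e : ℕ} {ζ : ℂ} {n : ℕ} {σ : Equiv.Perm (Fin n)}
    {bl : Fin n → Fin n} {r : ℕ} {s h : Fin n → L} {M : Matrix (Fin n) (Fin n) L} {m : Fin n → ℤ}

/-- The coordinates `s` themselves. -/
private theorem good_self (S : Sit V g e ζ σ bl r s h M m)
    (h1 : (r : ℤ) * e ≤ ∑ i, (V.v (h i) + r * m i + r * V.v (s i))) :
    Good V e r s ((∏ i, h i) * M.det ^ r) := by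
  refine ⟨s, 1, one_ne_zero, S.s_ne, (one_smul L _).symm, ?_⟩
  have h2 := S.base
  rw [V.one]
  linarith

theorem good_unram (S : Sit V g e ζ σ bl r s h M m) (he : e = 1) :
    Good V e r s ((∏ i, h i) * M.det ^ r) := by
  by_cases h0 : ∃ i, V.v (s i) ≠ 0
  · obtain ⟨i, hi⟩ := h0
    refine good_self S ?_
    have h1 := S.low i hi
    have h2 := Finset.single_le_sum
      (f := fun i => V.v (h i) + r * m i + r * V.v (s i)) (fun j _ => S.nonneg j)
      (Finset.mem_univ i)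
    have h3 : (e : ℤ) = 1 := by rw [he]; rfl
    rw [h3]
    linarith
  · push Not at h0
    obtain ⟨y, j, hj, hy, hW, hvj, hs⟩ := exists_tangent V S.cst S.trd s S.ai h0
    refine ⟨y, j, hj, hy, hW, ?_⟩
    have h1 := S.base
    have h2 : ∑ i, (V.v (h i) + r * m i + r * V.v (s i)) = 0 := by
      refine Finset.sum_eq_zero fun i _ => ?_
      obtain ⟨h3, h4⟩ := S.zero i (h0 i)
      rw [h3, h4, h0 i]
      simp
    have h3 : ∑ i, V.v (s i) = 0 := Finset.sum_eq_zero fun i _ => h0 i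
    have h4 : (e : ℤ) = 1 := by rw [he]; rfl
    have h5 : (r : ℤ) * 1 ≤ r * ∑ i, V.v (y i) :=
      mul_le_mul_of_nonneg_left hs (Int.natCast_nonneg r)
    rw [h2, h3] at h1
    rw [h4, hvj]
    linarith

theorem good_one (S : Sit V g e ζ σ bl r s h M m) (he : e ≠ 1) (hσ : σ = 1) :
    Good V e r s ((∏ i, h i) * M.det ^ r) :=
  good_self S (S.one hσ he)

theorem good_other (S : Sit V g e ζ σ bl r s h M m) (h1 : σ ≠ 1)
    (h2 : ∀ i j, i ≠ j → σ ≠ Equiv.swap i j) : Good V e r s ((∏ i, h i) * M.det ^ r) := by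
  obtain ⟨y, c, hc, hy, hW, hs⟩ := y_full S.ine S.cst s S.W_ne σ S.gs h1 h2
  refine ⟨y, algebraMap ℂ L c, (map_ne_zero _).2 hc, hy, hW, ?_⟩
  rw [v_const V S.cst hc]
  have h3 := S.base
  have h4 : 0 ≤ ∑ i, (V.v (h i) + r * m i + r * V.v (s i)) :=
    Finset.sum_nonneg fun i _ => S.nonneg i
  have h5 : (r : ℤ) * (∑ i, V.v (s i) + e) ≤ r * ∑ i, V.v (y i) :=
    mul_le_mul_of_nonneg_left hs (Int.natCast_nonneg r)
  linarith

end PM
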